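import Mathlib

/-! Common definitions of the library HVL (maximal volume of the hull of an arc of length 1). -/

namespace Pool.Agent.HVL

open MeasureTheory

/-- Euclidean 3-space. -/
abbrev E3 := EuclideanSpace ℝ (Fin 3)

/-- The set of the pairs `(t,y)`, `0 ≤ t ≤ 1`, with `y` in the homothetic copy `(1-t) D + t y0` of `D`. -/
def growthSet {n : ℕ} (D : Set (Fin n → ℝ)) (y0 : Fin n → ℝ) : Set (ℝ × (Fin n → ℝ)) :=
  {q | q.1 ∈ Set.Icc (0 : ℝ) 1 ∧ ∃ z ∈ D, q.2 = (1 - q.1) • z + q.1 • y0}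

/-- The sum of the absolute values of all determinants with rows from `v 0, .., v (N-1)`. -/
noncomputable def detSum (n N : ℕ) (v : ℕ → (Fin n → ℝ)) : ℝ :=
  ∑ f : Fin n → Fin N, |Matrix.det (Matrix.of fun i => v (f i))|

/-- The determinant of three vectors of Euclidean space. -/
noncomputable def det3 (x y z : E3) : ℝ :=
  x 0 * (y 1 * z 2 - y 2 * z 1) - x 1 * (y 0 * z 2 - y 2 * z 0) + x 2 * (y 0 * z 1 - y 1 * z 0)

/-- The coefficients of `1 - sqrt (1 - x)`. -/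
noncomputable def cc (k : ℕ) : ℝ := (Nat.centralBinom k : ℝ) / ((2 * k - 1) * 4 ^ k)

/-- The Taylor polynomials of `sqrt (1 - x)`. -/
noncomputable def PP (m : ℕ) (x : ℝ) : ℝ := 1 - ∑ k ∈ Finset.Icc 1 m, cc k * x ^ k

/-- The mean of `PP m (t^2)` on `[0,1]` (the mean over the sphere). -/
noncomputable def al (m : ℕ) : ℝ := 1 - ∑ k ∈ Finset.Icc 1 m, cc k / (2 * k + 1)

/-- The mean of `PP m (cos^2)` on the circle. -/
noncomputable def be (m : ℕ) : ℝ :=
  1 - ∑ k ∈ Finset.Icc 1 m, cc k * ((Nat.centralBinom k : ℝ) / 4 ^ k)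

/-- Arcs of length 1. -/
def IsArc (γ : ℝ → E3) : Prop :=
  ContinuousOn γ (Set.Icc 0 1) ∧ eVariationOn γ (Set.Icc 0 1) = 1

/-- The volume of the convex hull of an arc. -/
noncomputable def hullVolume (γ : ℝ → E3) : ENNReal :=
  volume (convexHull ℝ (γ '' Set.Icc (0 : ℝ) 1))

end Pool.Agent.HVL
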