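import Mathlib
import Pool.Agent.HVL.Defs

namespace Pool.Agent.HVL

open MeasureTheory

/-- `growthSet` is the continuous image of the compact set `[0,1] × D`. -/
theorem growthSet_compact {n : ℕ} {D : Set (Fin n → ℝ)} (hD : IsCompact D) (y0 : Fin n → ℝ) :
    IsCompact (growthSet D y0) := by
  have h : growthSet D y0 = (fun q : ℝ × (Fin n → ℝ) => (q.1, (1 - q.1) • q.2 + q.1 • y0)) ''
      (Set.Icc (0 : ℝ) 1 ×ˢ D) := by
    ext ⟨t, y⟩
    constructor
    · rintro ⟨ht, z, hz, hy⟩
      exact ⟨(t, z), ⟨ht, hz⟩, Prod.ext rfl hy.symm⟩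
    · rintro ⟨⟨s, z⟩, ⟨hs, hz⟩, h⟩
      have h1 : s = t := congrArg Prod.fst h
      have h2 : (1 - s) • z + s • y0 = y := congrArg Prod.snd h
      subst h1
      exact ⟨hs, z, hz, h2.symm⟩
  rw [h]
  refine (isCompact_Icc.prod hD).image ?_
  fun_prop

private theorem Grow_fibre {n : ℕ} (D : Set (Fin n → ℝ)) (y0 : Fin n → ℝ) (t : ℝ) :
    volume (Prod.mk t ⁻¹' growthSet D y0) =
      (Set.Icc (0 : ℝ) 1).indicator (fun t => ENNReal.ofReal |(1 - t) ^ n|) t * volume D := by
  by_cases ht : t ∈ Set.Icc (0 : ℝ) 1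
  · rw [Set.indicator_of_mem ht]
    have h : Prod.mk t ⁻¹' growthSet D y0 = AffineMap.homothety y0 (1 - t) '' D := by
      ext y
      have e : ∀ z : Fin n → ℝ, AffineMap.homothety y0 (1 - t) z = (1 - t) • z + t • y0 := by
        intro z
        rw [AffineMap.homothety_apply, vsub_eq_sub, vadd_eq_add]
        module
      constructor
      · rintro ⟨_, z, hz, hy⟩
        exact ⟨z, hz, by rw [e]; exact hy.symm⟩
      · rintro ⟨z, hz, hy⟩
        exact ⟨ht, z, hz, by rw [e] at hy; exact hy.symm⟩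
    rw [h, Measure.addHaar_image_homothety]
    simp
  · rw [Set.indicator_of_notMem ht, zero_mul]
    have h : Prod.mk t ⁻¹' growthSet D y0 = ∅ := by
      ext y
      constructor
      · rintro ⟨h1, _⟩
        exact absurd h1 ht
      · intro h
        exact absurd h (Set.notMem_empty _)
    rw [h, measure_empty]

private theorem Grow_int (n : ℕ) :
    ∫⁻ t, (Set.Icc (0 : ℝ) 1).indicator (fun t => ENNReal.ofReal |(1 - t) ^ n|) t =
      ENNReal.ofReal (1 / ((n : ℝ) + 1)) := by
  rw [lintegral_indicator measurableSet_Icc]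
  have hc : Continuous fun t : ℝ => |(1 - t) ^ n| := by fun_prop
  rw [← ofReal_integral_eq_lintegral_ofReal]
  · congr 1
    have h1 : ∫ t in Set.Icc (0 : ℝ) 1, |(1 - t) ^ n| = ∫ t in (0 : ℝ)..1, (1 - t) ^ n := by
      rw [intervalIntegral.integral_of_le zero_le_one, ← integral_Icc_eq_integral_Ioc]
      refine setIntegral_congr_fun measurableSet_Icc (fun t ht => ?_)
      exact abs_of_nonneg (pow_nonneg (sub_nonneg.2 ht.2) n)
    rw [h1, intervalIntegral.integral_comp_sub_left (fun x : ℝ => x ^ n) 1, sub_self, sub_zero,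
      integral_pow]
    simp
  · exact hc.integrableOn_Icc
  · exact Filter.Eventually.of_forall fun t => abs_nonneg _

/-- Volume: by Fubini (`Measure.prod_apply`), the fibre over `t ∈ [0,1]` is the image of `D` under
`z ↦ (1-t) • z + t • y0`, of volume `(1-t)^n * volume D` (`Measure.addHaar_smul`, translation invariance;
at `t = 1` the single point `y0`; for `n = 0` everything is `volume D`), and `∫_0^1 (1-t)^n = 1/(n+1)`. -/
theorem growthSet_volume {n : ℕ} {D : Set (Fin n → ℝ)} (hD : IsCompact D) (y0 : Fin n → ℝ) :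
    volume (growthSet D y0) = ENNReal.ofReal (1 / ((n : ℝ) + 1)) * volume D := by
  rw [Measure.volume_eq_prod, Measure.prod_apply (growthSet_compact hD y0).measurableSet]
  simp only [Grow_fibre]
  rw [lintegral_mul_const' _ _ hD.measure_ne_top, Grow_int]

/-- For fixed `y` the set of `t` with `(t,y) ∈ growthSet D y0` is convex (an interval): if
`y = (1-t) z + t y0 = (1-s) w + s y0` then for the convex combination `u = a t + b s`
`y = a y + b y = (a (1-t) z + b (1-s) w) + u y0` and `a (1-t) + b (1-s) = 1 - u`; if `1 - u ≠ 0` use convexity of `D`,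
if `u = 1` use any point of `D` (then `a (1-t) z + b (1-s) w = 0` as both coefficients vanish). -/
theorem growthSet_section_convex {n : ℕ} {D : Set (Fin n → ℝ)} (hD : Convex ℝ D) (y0 y : Fin n → ℝ) :
    Convex ℝ {t : ℝ | (t, y) ∈ growthSet D y0} := by
  rintro t ⟨ht, z, hz, hy⟩ s ⟨hs, w, hw, hy'⟩ a b ha hb hab
  simp only at ht hs hy hy'
  have hu : a • t + b • s ∈ Set.Icc (0 : ℝ) 1 := (convex_Icc (0 : ℝ) 1) ht hs ha hb hab
  refine ⟨hu, ?_⟩
  simp only [smul_eq_mul] at hu ⊢
  have hsum : a * (1 - t) + b * (1 - s) = 1 - (a * t + b * s) := by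
    have : a + b = 1 := hab
    linear_combination this
  have hyy : y = (a * (1 - t)) • z + (b * (1 - s)) • w + (a * t + b * s) • y0 := by
    calc y = a • y + b • y := by rw [← add_smul, hab, one_smul]
      _ = a • ((1 - t) • z + t • y0) + b • ((1 - s) • w + s • y0) := by
          conv_lhs => rw [show a • y = a • ((1 - t) • z + t • y0) from by rw [← hy],
            show b • y = b • ((1 - s) • w + s • y0) from by rw [← hy']]
      _ = (a * (1 - t)) • z + (b * (1 - s)) • w + (a * t + b * s) • y0 := by module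
  have h1 : 0 ≤ a * (1 - t) := mul_nonneg ha (sub_nonneg.2 ht.2)
  have h2 : 0 ≤ b * (1 - s) := mul_nonneg hb (sub_nonneg.2 hs.2)
  rcases eq_or_ne (1 - (a * t + b * s)) 0 with h0 | h0
  · have h3 : a * (1 - t) = 0 := by linarith
    have h4 : b * (1 - s) = 0 := by linarith
    refine ⟨z, hz, ?_⟩
    rw [hyy, h3, h4, h0]
    simp
  · have hpos : 0 < 1 - (a * t + b * s) := lt_of_le_of_ne (sub_nonneg.2 hu.2) (Ne.symm h0)
    refine ⟨(a * (1 - t) / (1 - (a * t + b * s))) • z + (b * (1 - s) / (1 - (a * t + b * s))) • w,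
      hD hz hw (div_nonneg h1 hpos.le) (div_nonneg h2 hpos.le) ?_, ?_⟩
    · rw [← add_div, hsum, div_self h0]
    · rw [smul_add, smul_smul, smul_smul, mul_div_cancel₀ _ h0, mul_div_cancel₀ _ h0]
      exact hyy

theorem growthSet_zero {n : ℕ} {D : Set (Fin n → ℝ)} (y0 y : Fin n → ℝ) (hy : y ∈ D) :
    ((0 : ℝ), y) ∈ growthSet D y0 :=
  ⟨Set.left_mem_Icc.2 zero_le_one, y, hy, by simp⟩

theorem growthSet_mem {n : ℕ} {D : Set (Fin n → ℝ)} (hD : Convex ℝ D) {y0 y : Fin n → ℝ} (h0 : y0 ∈ D)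
    {t : ℝ} (h : (t, y) ∈ growthSet D y0) : y ∈ D := by
  obtain ⟨ht, z, hz, hy⟩ := h
  simp only at ht hy
  rw [hy]
  exact hD hz h0 (sub_nonneg.2 ht.2) ht.1 (by ring)

end Pool.Agent.HVL
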