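import Mathlib
import Pool.Agent.HVL.Grow

namespace Pool.Agent.HVL

open MeasureTheory

/-- a nonempty compact convex subset of the line is an interval -/
theorem cone_compact_convex_Icc {A : Set ℝ} (hA : Convex ℝ A) (hAc : IsCompact A)
    (hne : A.Nonempty) : A = Set.Icc (sInf A) (sSup A) := by
  refine Set.Subset.antisymm ?_ ?_
  · intro x hx
    exact ⟨csInf_le hAc.bddBelow hx, le_csSup hAc.bddAbove hx⟩
  · exact hA.ordConnected.out (hAc.sInf_mem hne) (hAc.sSup_mem hne)

/-- ONE-POINT GROWTH.  `K` compact convex in `ℝ × ℝ^n`, `p ∈ K`, `q = p + c e` (`e` = first coordinate).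
Proof.  `C = convexHull (insert q K)` = union of the segments `[k,q]`, `k ∈ K` (`convexHull_insert`), compact.
`D = Prod.snd '' K` (compact convex), `y0 = p.2 ∈ D`, `E = growthSet D y0`.
Fibres over `y`: `C_y = {s | (s,y) ∈ C}`, `K_y`, `E_y = {t | (t,y) ∈ E}`.
Claim `C_y ⊆ K_y + c E_y`: a point of `C` is `(1-l) k + l q = k' + (l c, 0)` with `k' = (1-l) k + l p ∈ K`
and `y = (1-l) k.2 + l y0`, so `l ∈ E_y`.
If `y ∉ D` then `C_y` is empty (as `(1-l) k.2 + l y0 ∈ D`).  If `y ∈ D`, `K_y` is a nonempty compact interval `[a,b]`,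
`E_y` a compact interval `[0,l]` (convex, compact, contains 0, all elements `≥ 0`), so `volume (K_y + c E_y) ≤ (b-a) + c l`.
Integrate over `y` (`Measure.prod_apply_symm` for `C`, `K`, `E`): `volume C ≤ volume K + c * volume E` and
`volume E = volume D / (n+1)` (`growthSet_volume`). -/
theorem cone_growth {n : ℕ} {K : Set (ℝ × (Fin n → ℝ))} (hK : Convex ℝ K) (hKc : IsCompact K)
    {p : ℝ × (Fin n → ℝ)} (hp : p ∈ K) {c : ℝ} (hc : 0 ≤ c) :
    volume (convexHull ℝ (insert (p.1 + c, p.2) K)) ≤
      volume K + ENNReal.ofReal (c / ((n : ℝ) + 1)) * volume (Prod.snd '' K) := by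
  have hKne : K.Nonempty := ⟨p, hp⟩
  set q : ℝ × (Fin n → ℝ) := (p.1 + c, p.2) with hq
  set C : Set (ℝ × (Fin n → ℝ)) := convexHull ℝ (insert q K) with hC
  set D : Set (Fin n → ℝ) := Prod.snd '' K with hDdef
  have hD : Convex ℝ D := hK.linear_image (LinearMap.snd ℝ ℝ (Fin n → ℝ))
  have hDc : IsCompact D := hKc.image continuous_snd
  have hpD : p.2 ∈ D := ⟨p, hp, rfl⟩
  set E := growthSet D p.2 with hE
  have hEc : IsCompact E := growthSet_compact hDc p.2
  -- points of `C`
  have hCmem : ∀ x ∈ C, ∃ u v : ℝ, 0 ≤ u ∧ 0 ≤ v ∧ u + v = 1 ∧ ∃ k ∈ K, u • q + v • k = x := by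
    intro x hx
    rw [hC, convexHull_insert hKne, hK.convexHull_eq, mem_convexJoin] at hx
    obtain ⟨a, ha, k, hk, u, v, hu, hv, huv, hx⟩ := hx
    rw [Set.mem_singleton_iff] at ha
    subst ha
    exact ⟨u, v, hu, hv, huv, k, hk, hx⟩
  have hCc : IsCompact C := by
    have h1 : C = (fun z : ℝ × (ℝ × (Fin n → ℝ)) => z.1 • q + (1 - z.1) • z.2) ''
        (Set.Icc (0 : ℝ) 1 ×ˢ K) := by
      refine Set.Subset.antisymm ?_ ?_
      · intro x hx
        obtain ⟨u, v, hu, hv, huv, k, hk, hx⟩ := hCmem x hx
        refine ⟨(u, k), ⟨⟨hu, by linarith⟩, hk⟩, ?_⟩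
        have hv' : 1 - u = v := by linarith
        change u • q + (1 - u) • k = x
        rw [hv', hx]
      · rintro x ⟨⟨u, k⟩, ⟨hu, hk⟩, rfl⟩
        have h2 : Convex ℝ C := convex_convexHull ℝ _
        have hqC : q ∈ C := subset_convexHull ℝ _ (Set.mem_insert _ _)
        have hkC : k ∈ C := subset_convexHull ℝ _ (Set.mem_insert_of_mem _ hk)
        exact h2 hqC hkC hu.1 (by linarith [hu.2]) (by ring)
    rw [h1]
    refine (isCompact_Icc.prod hKc).image ?_
    fun_prop
  have hCfib : ∀ s y, (s, y) ∈ C → ∃ k ∈ K, ∃ l : ℝ, k.2 = y ∧ (l, y) ∈ E ∧ s = k.1 + c * l := by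
    intro s y h
    obtain ⟨u, v, hu, hv, huv, k, hk, hx⟩ := hCmem _ h
    refine ⟨u • p + v • k, hK hp hk hu hv huv, u, ?_, ?_, ?_⟩
    · have := congrArg Prod.snd hx
      simpa [hq] using this
    · refine ⟨⟨hu, by linarith⟩, k.2, ⟨k, hk, rfl⟩, ?_⟩
      have h2 := congrArg Prod.snd hx
      have hv' : 1 - u = v := by linarith
      change y = (1 - u) • k.2 + u • p.2
      rw [hv', add_comm]
      simpa [hq] using h2.symm
    · have h1 := congrArg Prod.fst hx
      simp only [hq, Prod.fst_add, Prod.smul_fst, smul_eq_mul] at h1 ⊢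
      linarith
  -- fibre inequality
  have hfib : ∀ y : Fin n → ℝ, volume ((fun s : ℝ => (s, y)) ⁻¹' C) ≤
      volume ((fun s : ℝ => (s, y)) ⁻¹' K) +
        ENNReal.ofReal c * volume ((fun s : ℝ => (s, y)) ⁻¹' E) := by
    intro y
    by_cases hy : y ∈ D
    · have hcont : Continuous fun s : ℝ => (s, y) := by fun_prop
      -- the fibre of K
      set A : Set ℝ := (fun s : ℝ => (s, y)) ⁻¹' K with hA
      have hAconv : Convex ℝ A := by
        intro s hs t ht a b ha hb hab
        have h1 := hK hs ht ha hb hab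
        have h2 : a • (s, y) + b • (t, y) = (a • s + b • t, y) := by
          refine Prod.ext rfl ?_
          change a • y + b • y = y
          rw [← add_smul, hab, one_smul]
        rw [h2] at h1
        exact h1
      have hAcl : IsClosed A := hKc.isClosed.preimage hcont
      have hAc : IsCompact A := by
        refine IsCompact.of_isClosed_subset (hKc.image continuous_fst) hAcl ?_
        intro s hs
        exact ⟨(s, y), hs, rfl⟩
      have hAne : A.Nonempty := by
        obtain ⟨k, hk, hky⟩ := hy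
        refine ⟨k.1, ?_⟩
        change (k.1, y) ∈ K
        rw [← hky]
        exact hk
      set B : Set ℝ := (fun s : ℝ => (s, y)) ⁻¹' E with hB
      have hBconv : Convex ℝ B := growthSet_section_convex hD p.2 y
      have hBcl : IsClosed B := hEc.isClosed.preimage hcont
      have hBc : IsCompact B := by
        refine IsCompact.of_isClosed_subset (hEc.image continuous_fst) hBcl ?_
        intro s hs
        exact ⟨(s, y), hs, rfl⟩
      have h0B : (0 : ℝ) ∈ B := growthSet_zero p.2 y hy
      have hBne : B.Nonempty := ⟨0, h0B⟩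
      have hBinf : sInf B = 0 := by
        refine le_antisymm (csInf_le hBc.bddBelow h0B) ?_
        refine le_csInf hBne ?_
        intro t ht
        exact ht.1.1
      have hAI := cone_compact_convex_Icc hAconv hAc hAne
      have hBI := cone_compact_convex_Icc hBconv hBc hBne
      have hsub : (fun s : ℝ => (s, y)) ⁻¹' C ⊆ Set.Icc (sInf A) (sSup A + c * sSup B) := by
        intro s hs
        obtain ⟨k, hk, l, hky, hl, rfl⟩ := hCfib s y hs
        have hkA : k.1 ∈ A := by
          change (k.1, y) ∈ K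
          rw [← hky]
          exact hk
        have hlB : l ∈ B := hl
        have hl0 : 0 ≤ l := hl.1.1
        refine ⟨?_, ?_⟩
        · have := csInf_le hAc.bddBelow hkA
          have := mul_nonneg hc hl0
          linarith
        · have h1 := le_csSup hAc.bddAbove hkA
          have h2 := mul_le_mul_of_nonneg_left (le_csSup hBc.bddAbove hlB) hc
          linarith
      have hAvol : volume A = ENNReal.ofReal (sSup A - sInf A) := by
        conv_lhs => rw [hAI]
        exact Real.volume_Icc
      have hBvol : volume B = ENNReal.ofReal (sSup B) := by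
        conv_lhs => rw [hBI]
        rw [Real.volume_Icc, hBinf, sub_zero]
      refine le_trans (measure_mono hsub) ?_
      rw [Real.volume_Icc, hAvol, hBvol, ← ENNReal.ofReal_mul hc, ← ENNReal.ofReal_add]
      · refine ENNReal.ofReal_le_ofReal ?_
        linarith
      · have := csInf_le hAc.bddBelow (hAc.sSup_mem hAne)
        linarith
      · exact mul_nonneg hc (le_csSup hBc.bddAbove h0B)
    · have hempty : (fun s : ℝ => (s, y)) ⁻¹' C = ∅ := by
        refine Set.eq_empty_of_forall_notMem ?_
        intro s hs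
        obtain ⟨k, hk, l, hky, -, -⟩ := hCfib s y hs
        exact hy ⟨k, hk, hky⟩
      rw [hempty, measure_empty]
      exact zero_le
  -- integration
  have hCm : MeasurableSet C := hCc.isClosed.measurableSet
  have hKm : MeasurableSet K := hKc.isClosed.measurableSet
  have hEm : MeasurableSet E := hEc.isClosed.measurableSet
  have hvC : volume C = ∫⁻ y, volume ((fun s : ℝ => (s, y)) ⁻¹' C) := by
    rw [Measure.volume_eq_prod, Measure.prod_apply_symm hCm]
  have hvK : volume K = ∫⁻ y, volume ((fun s : ℝ => (s, y)) ⁻¹' K) := by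
    rw [Measure.volume_eq_prod, Measure.prod_apply_symm hKm]
  have hvE : volume E = ∫⁻ y, volume ((fun s : ℝ => (s, y)) ⁻¹' E) := by
    rw [Measure.volume_eq_prod, Measure.prod_apply_symm hEm]
  have hmK : Measurable fun y => volume ((fun s : ℝ => (s, y)) ⁻¹' K) :=
    measurable_measure_prodMk_right hKm
  have hmE : Measurable fun y => volume ((fun s : ℝ => (s, y)) ⁻¹' E) :=
    measurable_measure_prodMk_right hEm
  calc volume C = ∫⁻ y, volume ((fun s : ℝ => (s, y)) ⁻¹' C) := hvC
    _ ≤ ∫⁻ y, (volume ((fun s : ℝ => (s, y)) ⁻¹' K) +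
          ENNReal.ofReal c * volume ((fun s : ℝ => (s, y)) ⁻¹' E)) := lintegral_mono hfib
    _ = volume K + ENNReal.ofReal c * volume E := by
        rw [lintegral_add_left hmK, lintegral_const_mul _ hmE, ← hvK, ← hvE]
    _ = volume K + ENNReal.ofReal (c / ((n : ℝ) + 1)) * volume D := by
        rw [hE, growthSet_volume hDc, ← mul_assoc, ← ENNReal.ofReal_mul hc, mul_one_div]

end Pool.Agent.HVL
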