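import Mathlib
import Pool.Agent.HVL.Defs

namespace Pool.Agent.HVL

theorem abs_det_insertNth (n : ℕ) (i : Fin (n + 1)) (x : Fin (n + 1) → ℝ)
    (w : Fin n → (Fin (n + 1) → ℝ)) :
    |Matrix.det (Matrix.of (Fin.insertNth i x w : Fin (n + 1) → (Fin (n + 1) → ℝ)))| =
      |Matrix.det (Matrix.of (Fin.cons x w : Fin (n + 1) → (Fin (n + 1) → ℝ)))| := by
  have h : (Matrix.of (Fin.insertNth i x w : Fin (n + 1) → (Fin (n + 1) → ℝ))) =
      (Matrix.of (Fin.cons x w : Fin (n + 1) → (Fin (n + 1) → ℝ))).submatrix
        (Fin.cycleRange i) id := by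
    have h2 : (Fin.cons x w : Fin (n + 1) → (Fin (n + 1) → ℝ)) ∘ i.cycleRange = i.insertNth x w := by
      simp
    rw [← h2]
    rfl
  rw [h, Matrix.det_permute, abs_mul]
  have h3 : |(((Equiv.Perm.sign (Fin.cycleRange i) : ℤˣ) : ℤ) : ℝ)| = 1 := by
    rcases Int.units_eq_one_or (Equiv.Perm.sign (Fin.cycleRange i)) with h | h <;> simp [h]
  rw [h3, one_mul]

/-- Among the functions `f : Fin (n+1) → Fin (N+1)` keep those with values `< N` (they give `detSum (n+1) N v`) and,
for each position `i`, those of the form `Fin.insertNth i (Fin.last N) (Fin.castSucc ∘ g)`, `g : Fin n → Fin N`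
(they give `∑ g, |det (Fin.cons (v N) (v ∘ g))|`, moving row `i` to the top changes the determinant by a sign).
These `n + 2` families are disjoint and each is injectively parametrised; all other terms are `≥ 0`. -/
theorem detSum_succ (n N : ℕ) (v : ℕ → (Fin (n + 1) → ℝ)) :
    detSum (n + 1) N v + (n + 1) * ∑ g : Fin n → Fin N,
      |Matrix.det (Matrix.of (Fin.cons (v N) (fun i => v (g i)) : Fin (n + 1) → (Fin (n + 1) → ℝ)))|
      ≤ detSum (n + 1) (N + 1) v := by
  classical
  let F : (Fin (n + 1) → Fin (N + 1)) → ℝ := fun f => |Matrix.det (Matrix.of fun i => v (f i))|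
  let Φ : ((Fin (n + 1) → Fin N) ⊕ (Fin (n + 1) × (Fin n → Fin N))) → (Fin (n + 1) → Fin (N + 1)) :=
    fun a => match a with
      | Sum.inl g => fun i => (g i).castSucc
      | Sum.inr p => Fin.insertNth p.1 (Fin.last N) (fun i => (p.2 i).castSucc)
  have hinj : Function.Injective Φ := by
    intro a b hab
    rcases a with g | ⟨i, g⟩ <;> rcases b with g' | ⟨i', g'⟩
    · congr 1
      funext j
      have := congrFun hab j
      exact Fin.castSucc_injective _ this
    · exfalso
      have := congrFun hab i'
      simp only [Φ, Fin.insertNth_apply_same] at this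
      exact absurd this (Fin.castSucc_lt_last _).ne
    · exfalso
      have := congrFun hab i
      simp only [Φ, Fin.insertNth_apply_same] at this
      exact absurd this.symm (Fin.castSucc_lt_last _).ne
    · have hii : i = i' := by
        by_contra hne
        obtain ⟨k, hk⟩ := Fin.exists_succAbove_eq hne
        have := congrFun hab i
        simp only [Φ, Fin.insertNth_apply_same] at this
        rw [← hk, Fin.insertNth_apply_succAbove] at this
        exact absurd this.symm (Fin.castSucc_lt_last _).ne
      subst hii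
      congr 1
      congr 1
      funext j
      have := congrFun hab (i.succAbove j)
      simp only [Φ, Fin.insertNth_apply_succAbove] at this
      exact Fin.castSucc_injective _ this
  have h1 : ∑ a, F (Φ a) ≤ ∑ f, F f := by
    rw [← Finset.sum_image (f := F) (s := Finset.univ) (g := Φ) (fun _ _ _ _ h => hinj h)]
    exact Finset.sum_le_univ_sum_of_nonneg (fun _ => abs_nonneg _)
  have h2 : ∑ a, F (Φ a) = detSum (n + 1) N v + (n + 1) * ∑ g : Fin n → Fin N,
      |Matrix.det (Matrix.of (Fin.cons (v N) (fun i => v (g i)) :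
        Fin (n + 1) → (Fin (n + 1) → ℝ)))| := by
    rw [Fintype.sum_sum_type, Fintype.sum_prod_type]
    congr 1
    have h3 : ∀ i : Fin (n + 1), ∑ g : Fin n → Fin N, F (Φ (Sum.inr (i, g))) =
        ∑ g : Fin n → Fin N, |Matrix.det (Matrix.of (Fin.cons (v N) (fun i => v (g i)) :
          Fin (n + 1) → (Fin (n + 1) → ℝ)))| := by
      intro i
      refine Finset.sum_congr rfl fun g _ => ?_
      rw [← abs_det_insertNth n i]
      simp only [F, Φ]
      congr 3
      funext j
      refine Fin.succAboveCases i ?_ (fun k => ?_) j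
      · simp
      · simp
    rw [Finset.sum_congr rfl (fun i _ => h3 i)]
    simp
  calc _ = ∑ a, F (Φ a) := h2.symm
    _ ≤ ∑ f, F f := h1
    _ = _ := rfl

/-- The determinant with first row `e_0 = (1,0,..,0)` is the determinant of the rows without column 0
(`Matrix.det_succ_row_zero`). -/
theorem det_cons_single (n : ℕ) (w : Fin n → (Fin (n + 1) → ℝ)) :
    Matrix.det (Matrix.of (Fin.cons (Pi.single 0 1) w : Fin (n + 1) → (Fin (n + 1) → ℝ))) =
      Matrix.det (Matrix.of fun (i : Fin n) (j : Fin n) => w i j.succ) := by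
  rw [Matrix.det_succ_row_zero]
  rw [Finset.sum_eq_single 0]
  · simp only [Fin.val_zero, pow_zero, one_mul, Matrix.of_apply, Fin.cons_zero, Pi.single_eq_same]
    congr 1
  · intro b _ hb
    simp [Matrix.of_apply, Fin.cons_zero, Pi.single_eq_of_ne hb]
  · intro h
    exact absurd (Finset.mem_univ _) h

/-- Linear maps scale `detSum` by `|det L|`  (for instance `Pi.basisFun`, `Basis.det_comp`). -/
theorem detSum_map (n N : ℕ) (v : ℕ → (Fin n → ℝ)) (L : (Fin n → ℝ) →ₗ[ℝ] (Fin n → ℝ)) :
    detSum n N (fun i => L (v i)) = |LinearMap.det L| * detSum n N v := by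
  unfold detSum
  rw [Finset.mul_sum]
  refine Finset.sum_congr rfl fun f _ => ?_
  have h : (Matrix.of fun i => L (v (f i))) =
      (Matrix.of fun i => v (f i)) * (LinearMap.toMatrix' L).transpose := by
    ext i j
    have h2 : L (v (f i)) = (LinearMap.toMatrix' L).mulVec (v (f i)) := by
      rw [LinearMap.toMatrix'_mulVec]
    simp only [Matrix.of_apply, Matrix.mul_apply, Matrix.transpose_apply]
    rw [h2]
    simp only [Matrix.mulVec, dotProduct]
    exact Finset.sum_congr rfl fun k _ => mul_comm _ _
  rw [h, Matrix.det_mul, Matrix.det_transpose, LinearMap.det_toMatrix', abs_mul, mul_comm]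

/-- A nonzero vector is mapped to `e_0` by some invertible linear map (for instance: complete it to a basis, or
`x ↦ x - (x i / v i) • (v - e_i)` followed by the swap of the coordinates `0` and `i`). -/
theorem exists_equiv_single (n : ℕ) (v : Fin (n + 1) → ℝ) (hv : v ≠ 0) :
    ∃ L : (Fin (n + 1) → ℝ) ≃ₗ[ℝ] (Fin (n + 1) → ℝ), L v = Pi.single 0 1 := by
  have hy : (Pi.single 0 1 : Fin (n + 1) → ℝ) ≠ 0 := by
    intro h
    have := congrFun h 0
    simp at this
  obtain ⟨A, hA⟩ := SeparatingDual.exists_continuousLinearEquiv_apply_eq (R := ℝ) hv hy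
  exact ⟨A.toLinearEquiv, hA⟩

end Pool.Agent.HVL
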