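import Mathlib
import Pool.Agent.HVL.Cone
import Pool.Agent.HVL.DetSum

namespace Pool.Agent.HVL

open MeasureTheory

private theorem Hull_detSum_nonneg (n N : ℕ) (v : ℕ → (Fin n → ℝ)) : 0 ≤ detSum n N v :=
  Finset.sum_nonneg fun _ _ => abs_nonneg _

/-- The linear map `x ↦ (x 0, tail x)`. -/
private noncomputable def HullE (n : ℕ) : (Fin (n + 1) → ℝ) →ₗ[ℝ] ℝ × (Fin n → ℝ) where
  toFun x := (x 0, fun j => x j.succ)
  map_add' _ _ := rfl
  map_smul' _ _ := rfl

private theorem HullE_volume (n : ℕ) (A : Set (Fin (n + 1) → ℝ)) :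
    volume ((HullE n) '' A) = volume A := by
  have h := volume_preserving_piFinSuccAbove (fun _ : Fin (n + 1) => ℝ) 0
  have he : (⇑(HullE n) : (Fin (n + 1) → ℝ) → ℝ × (Fin n → ℝ))
      = ⇑(MeasurableEquiv.piFinSuccAbove (fun _ : Fin (n + 1) => ℝ) 0) := by
    funext x
    refine Prod.ext rfl ?_
    funext j
    simp [HullE, MeasurableEquiv.piFinSuccAbove, Fin.insertNthEquiv]
    rfl
  rw [he]
  have h2 := h.measure_preimage_equiv
    ((MeasurableEquiv.piFinSuccAbove (fun _ : Fin (n + 1) => ℝ) 0) '' A)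
  rw [← h2, Set.preimage_image_eq _ (MeasurableEquiv.injective _)]

private theorem Hull_Iic_succ {α : Type*} (N : ℕ) (p : ℕ → α) :
    p '' Set.Iic (N + 1) = insert (p (N + 1)) (p '' Set.Iic N) := by
  have : (Set.Iic (N + 1) : Set ℕ) = insert (N + 1) (Set.Iic N) := by
    ext k; simp only [Set.mem_Iic, Set.mem_insert_iff]; omega
  rw [this, Set.image_insert_eq]

/-- The step with `v = e_0`. -/
private theorem Hull_step (n N : ℕ)
    (IHn : ∀ (r : ℕ → (Fin n → ℝ)), volume (convexHull ℝ (r '' Set.Iic N)) ≤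
      ENNReal.ofReal (detSum n N (fun i => r (i + 1) - r i) / (n.factorial : ℝ) ^ 2))
    (IHN : ∀ (p : ℕ → (Fin (n + 1) → ℝ)), volume (convexHull ℝ (p '' Set.Iic N)) ≤
      ENNReal.ofReal (detSum (n + 1) N (fun i => p (i + 1) - p i) / ((n + 1).factorial : ℝ) ^ 2))
    (p : ℕ → (Fin (n + 1) → ℝ)) (hp : p (N + 1) - p N = Pi.single 0 1) :
    volume (convexHull ℝ (p '' Set.Iic (N + 1))) ≤
      ENNReal.ofReal (detSum (n + 1) (N + 1) (fun i => p (i + 1) - p i) /
        ((n + 1).factorial : ℝ) ^ 2) := by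
  classical
  set K : Set (ℝ × (Fin n → ℝ)) := (HullE n) '' (convexHull ℝ (p '' Set.Iic N)) with hK
  have hKhull : K = convexHull ℝ ((fun i => HullE n (p i)) '' Set.Iic N) := by
    rw [hK, LinearMap.image_convexHull, Set.image_image]
  have hKconv : Convex ℝ K := by rw [hKhull]; exact convex_convexHull ℝ _
  have hKcomp : IsCompact K := by
    rw [hKhull]
    exact ((Set.finite_Iic N).image _).isCompact_convexHull ℝ
  have hpK : HullE n (p N) ∈ K :=
    Set.mem_image_of_mem _ (subset_convexHull ℝ _ ⟨N, Set.mem_Iic.2 le_rfl, rfl⟩)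
  have hq : HullE n (p (N + 1)) = ((HullE n (p N)).1 + 1, (HullE n (p N)).2) := by
    have h1 : p (N + 1) = p N + Pi.single 0 1 := by rw [← hp]; abel
    rw [h1, map_add]
    refine Prod.ext ?_ ?_
    · simp [HullE]
    · funext j
      simp [HullE]
  have hcone := cone_growth hKconv hKcomp hpK (zero_le_one)
  have hsub : (HullE n) '' (convexHull ℝ (p '' Set.Iic (N + 1))) ⊆
      convexHull ℝ (insert ((HullE n (p N)).1 + 1, (HullE n (p N)).2) K) := by
    rw [LinearMap.image_convexHull, Set.image_image, Hull_Iic_succ N (fun i => HullE n (p i)), ← hq]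
    refine convexHull_mono (Set.insert_subset_insert ?_)
    rw [hKhull]
    exact subset_convexHull ℝ _
  have hvol : volume (convexHull ℝ (p '' Set.Iic (N + 1))) ≤
      volume K + ENNReal.ofReal (1 / ((n : ℝ) + 1)) * volume (Prod.snd '' K) := by
    rw [← HullE_volume n (convexHull ℝ (p '' Set.Iic (N + 1)))]
    exact (measure_mono hsub).trans hcone
  have hK1 : volume K ≤ ENNReal.ofReal (detSum (n + 1) N (fun i => p (i + 1) - p i) /
      ((n + 1).factorial : ℝ) ^ 2) := by
    rw [hK, HullE_volume]; exact IHN p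
  set r : ℕ → (Fin n → ℝ) := fun i => (HullE n (p i)).2 with hr
  have hsnd : Prod.snd '' K = convexHull ℝ (r '' Set.Iic N) := by
    rw [hKhull]
    have := LinearMap.image_convexHull (LinearMap.snd ℝ ℝ (Fin n → ℝ))
      ((fun i => HullE n (p i)) '' Set.Iic N)
    rw [Set.image_image] at this
    exact this
  have hK2 : volume (Prod.snd '' K) ≤
      ENNReal.ofReal (detSum n N (fun i => r (i + 1) - r i) / (n.factorial : ℝ) ^ 2) := by
    rw [hsnd]; exact IHn r
  have hds := detSum_succ n N (fun i => p (i + 1) - p i)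
  have hd2 : detSum n N (fun i => r (i + 1) - r i) = ∑ g : Fin n → Fin N,
      |Matrix.det (Matrix.of (Fin.cons ((fun i => p (i + 1) - p i) N)
        (fun i => (fun i => p (i + 1) - p i) (g i)) : Fin (n + 1) → (Fin (n + 1) → ℝ)))| := by
    unfold detSum
    refine Finset.sum_congr rfl fun g _ => ?_
    have h3 : ((fun i => p (i + 1) - p i) N : Fin (n + 1) → ℝ) = Pi.single 0 1 := hp
    rw [h3, det_cons_single]
    rfl
  rw [← hd2] at hds
  set D1 := detSum (n + 1) N (fun i => p (i + 1) - p i)
  set D2 := detSum n N (fun i => r (i + 1) - r i) with hD2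
  set D3 := detSum (n + 1) (N + 1) (fun i => p (i + 1) - p i)
  have hD1n : 0 ≤ D1 := Hull_detSum_nonneg _ _ _
  have hD2n : 0 ≤ D2 := Hull_detSum_nonneg _ _ _
  have hfac : (((n + 1).factorial : ℕ) : ℝ) = ((n : ℝ) + 1) * (n.factorial : ℝ) := by
    rw [Nat.factorial_succ]; push_cast; ring
  have hnf : (0 : ℝ) < (n.factorial : ℝ) := by exact_mod_cast Nat.factorial_pos n
  have hn1 : (0 : ℝ) < (n : ℝ) + 1 := by positivity
  calc volume (convexHull ℝ (p '' Set.Iic (N + 1)))
      ≤ volume K + ENNReal.ofReal (1 / ((n : ℝ) + 1)) * volume (Prod.snd '' K) := hvol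
    _ ≤ ENNReal.ofReal (D1 / ((n + 1).factorial : ℝ) ^ 2) +
        ENNReal.ofReal (1 / ((n : ℝ) + 1)) * ENNReal.ofReal (D2 / (n.factorial : ℝ) ^ 2) := by
        gcongr
    _ = ENNReal.ofReal (D1 / ((n + 1).factorial : ℝ) ^ 2 +
        1 / ((n : ℝ) + 1) * (D2 / (n.factorial : ℝ) ^ 2)) := by
        rw [← ENNReal.ofReal_mul (by positivity), ← ENNReal.ofReal_add (by positivity) (by positivity)]
    _ ≤ ENNReal.ofReal (D3 / ((n + 1).factorial : ℝ) ^ 2) := by
        refine ENNReal.ofReal_le_ofReal ?_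
        have : D1 / ((n + 1).factorial : ℝ) ^ 2 + 1 / ((n : ℝ) + 1) * (D2 / (n.factorial : ℝ) ^ 2)
            = (D1 + (n + 1) * D2) / ((n + 1).factorial : ℝ) ^ 2 := by
          rw [hfac]; field_simp
        rw [this]
        exact div_le_div_of_nonneg_right hds (by positivity)

/-- HULL VOLUME BOUND in every dimension: the hull of the points `p 0, .., p N` has volume at most
`(1/(n!)^2) * detSum n N (edge vectors)`.
Proof: induction on `n`; `n = 0`: the whole space is one point of volume 1 and `detSum 0 N = 1`.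
Step `n → n+1`: induction on `N`.  `N = 0`: one point, volume 0.
Step `N → N+1`: `v = p (N+1) - p N`.  If `v = 0` then `p (N+1) = p N`, the hull does not change and `detSum` grows.
If `v ≠ 0`: choose `L` with `L v = e_0` (`exists_equiv_single`).  Both sides scale by `|det L|`
(`Measure.addHaar_image_linearMap`, `detSum_map`, `LinearMap.image_convexHull`), so assume `v = e_0`.  Transport to
`ℝ × (Fin n → ℝ)` by `MeasurableEquiv.piFinSuccAbove (fun _ => ℝ) 0` (measure preserving:
`volume_preserving_piFinSuccAbove`; it is linear) and apply `cone_growth` with `K` = hull of `p 0 .. p N`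
(compact: finite set), the point `p N`, `c = 1`: the growth is at most `1/(n+1)` times the volume of the projection of `K`,
which is the hull of the projected points, so `≤ (1/(n!)^2) detSum n N (projected edges)`
`= (1/(n!)^2) ∑ g |det (cons e_0 (v ∘ g))|` (`det_cons_single`), and `detSum_succ` finishes, since
`(n+1) / ((n+1)!)^2 = 1 / ((n+1) (n!)^2)`. -/
theorem hull_volume_le (n N : ℕ) (p : ℕ → (Fin n → ℝ)) :
    volume (convexHull ℝ (p '' Set.Iic N)) ≤
      ENNReal.ofReal (detSum n N (fun i => p (i + 1) - p i) / (n.factorial : ℝ) ^ 2) := by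
  classical
  induction n generalizing N with
  | zero =>
    have h1 : detSum 0 N (fun i => p (i + 1) - p i) = 1 := by
      simp [detSum]
    rw [h1]
    refine (measure_mono (Set.subset_univ _)).trans ?_
    simp [volume_pi]
  | succ n IHn =>
    induction N generalizing p with
    | zero =>
      have h0 : (p '' Set.Iic 0) = {p 0} := by
        have : (Set.Iic 0 : Set ℕ) = {0} := by ext k; simp
        rw [this, Set.image_singleton]
      rw [h0, convexHull_singleton, measure_singleton]
      exact bot_le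
    | succ N IHN =>
      by_cases hv : p (N + 1) - p N = 0
      · have h1 : p (N + 1) = p N := sub_eq_zero.1 hv
        have h2 : p '' Set.Iic (N + 1) = p '' Set.Iic N := by
          rw [Hull_Iic_succ, h1]
          exact Set.insert_eq_of_mem ⟨N, Set.mem_Iic.2 le_rfl, rfl⟩
        rw [h2]
        refine (IHN p).trans (ENNReal.ofReal_le_ofReal ?_)
        refine div_le_div_of_nonneg_right ?_ (by positivity)
        have hds := detSum_succ n N (fun i => p (i + 1) - p i)
        refine le_trans ?_ hds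
        have : 0 ≤ ((n : ℝ) + 1) * ∑ g : Fin n → Fin N,
            |Matrix.det (Matrix.of (Fin.cons ((fun i => p (i + 1) - p i) N)
              (fun i => (fun i => p (i + 1) - p i) (g i)) :
                Fin (n + 1) → (Fin (n + 1) → ℝ)))| :=
          mul_nonneg (by positivity) (Finset.sum_nonneg fun _ _ => abs_nonneg _)
        linarith
      · obtain ⟨L, hL⟩ := exists_equiv_single n _ hv
        have hq := Hull_step n N (fun r => IHn N r) IHN (fun i => L (p i))
          (by rw [← map_sub]; exact hL)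
        have himg : (fun i => L (p i)) '' Set.Iic (N + 1) = L '' (p '' Set.Iic (N + 1)) := by
          rw [Set.image_image]
        have hvol : volume (convexHull ℝ ((fun i => L (p i)) '' Set.Iic (N + 1))) =
            ENNReal.ofReal |LinearMap.det (L : (Fin (n + 1) → ℝ) →ₗ[ℝ] (Fin (n + 1) → ℝ))| *
              volume (convexHull ℝ (p '' Set.Iic (N + 1))) := by
          rw [himg]
          have h5 := LinearMap.image_convexHull
            (L : (Fin (n + 1) → ℝ) →ₗ[ℝ] (Fin (n + 1) → ℝ)) (p '' Set.Iic (N + 1))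
          have h6 := Measure.addHaar_image_linearMap (volume : Measure (Fin (n + 1) → ℝ))
            (L : (Fin (n + 1) → ℝ) →ₗ[ℝ] (Fin (n + 1) → ℝ)) (convexHull ℝ (p '' Set.Iic (N + 1)))
          rw [h5] at h6
          exact h6
        have hds : detSum (n + 1) (N + 1) (fun i => L (p (i + 1)) - L (p i)) =
            |LinearMap.det (L : (Fin (n + 1) → ℝ) →ₗ[ℝ] (Fin (n + 1) → ℝ))| *
              detSum (n + 1) (N + 1) (fun i => p (i + 1) - p i) := by
          rw [← detSum_map]
          congr 1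
          funext i
          rw [← map_sub]; rfl
        rw [hvol, hds] at hq
        have hdet : 0 < |LinearMap.det (L : (Fin (n + 1) → ℝ) →ₗ[ℝ] (Fin (n + 1) → ℝ))| :=
          abs_pos.2 (LinearEquiv.isUnit_det' L).ne_zero
        set c := |LinearMap.det (L : (Fin (n + 1) → ℝ) →ₗ[ℝ] (Fin (n + 1) → ℝ))| with hc
        rw [mul_div_assoc, ENNReal.ofReal_mul hdet.le] at hq
        exact (ENNReal.mul_le_mul_iff_right (ENNReal.ofReal_pos.2 hdet).ne'
          ENNReal.ofReal_ne_top).1 hq

private theorem Hull_detSum_three (N : ℕ) (v : ℕ → (Fin 3 → ℝ)) :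
    detSum 3 N v = ∑ i : Fin N, ∑ j : Fin N, ∑ k : Fin N,
      |v i 0 * (v j 1 * v k 2 - v j 2 * v k 1) - v i 1 * (v j 0 * v k 2 - v j 2 * v k 0)
        + v i 2 * (v j 0 * v k 1 - v j 1 * v k 0)| := by
  unfold detSum
  let e : (Fin 3 → Fin N) ≃ Fin N × Fin N × Fin N :=
    { toFun := fun f => (f 0, f 1, f 2)
      invFun := fun x => ![x.1, x.2.1, x.2.2]
      left_inv := by
        intro f; funext i; fin_cases i <;> rfl
      right_inv := by
        intro x; rfl }
  rw [← Equiv.sum_comp e.symm, Fintype.sum_prod_type]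
  refine Finset.sum_congr rfl fun i _ => ?_
  rw [Fintype.sum_prod_type]
  refine Finset.sum_congr rfl fun j _ => ?_
  refine Finset.sum_congr rfl fun k _ => ?_
  congr 1
  rw [Matrix.det_fin_three]
  have h0 : e.symm (i, j, k) 0 = i := rfl
  have h1 : e.symm (i, j, k) 1 = j := rfl
  have h2 : e.symm (i, j, k) 2 = k := rfl
  simp only [Matrix.of_apply, h0, h1, h2]
  ring

/-- The same in Euclidean 3-space, with `det3`. -/
theorem hull_volume_le3 (N : ℕ) (p : ℕ → E3) :
    volume (convexHull ℝ (p '' Set.Iic N)) ≤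
      ENNReal.ofReal ((∑ i : Fin N, ∑ j : Fin N, ∑ k : Fin N,
        |det3 (p (i + 1) - p i) (p (j + 1) - p j) (p (k + 1) - p k)|) / 36) := by
  have h := hull_volume_le 3 N (fun i => (WithLp.ofLp (p i) : Fin 3 → ℝ))
  have hv : volume (convexHull ℝ (p '' Set.Iic N)) =
      volume (convexHull ℝ ((fun i => (WithLp.ofLp (p i) : Fin 3 → ℝ)) '' Set.Iic N)) := by
    have h1 := LinearMap.image_convexHull
      ((WithLp.linearEquiv 2 ℝ (Fin 3 → ℝ)) : E3 →ₗ[ℝ] (Fin 3 → ℝ)) (p '' Set.Iic N)
    rw [Set.image_image] at h1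
    have h2 : (fun i => (WithLp.ofLp (p i) : Fin 3 → ℝ)) '' Set.Iic N =
        (fun x => ((WithLp.linearEquiv 2 ℝ (Fin 3 → ℝ)) : E3 →ₗ[ℝ] (Fin 3 → ℝ)) (p x)) ''
          Set.Iic N := rfl
    rw [h2, ← h1]
    have h3 := (EuclideanSpace.volume_preserving_symm_measurableEquiv_toLp (Fin 3)).measure_preimage_equiv
      (((MeasurableEquiv.toLp 2 (Fin 3 → ℝ)).symm) '' (convexHull ℝ (p '' Set.Iic N)))
    rw [Set.preimage_image_eq _ (MeasurableEquiv.injective _)] at h3
    exact h3
  rw [hv]
  refine h.trans (le_of_eq ?_)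
  rw [Hull_detSum_three]
  norm_num [Nat.factorial]
  rfl

end Pool.Agent.HVL
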