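import Mathlib
import Pool.Agent.HVL.Defs

namespace Pool.Agent.HVL

open Filter Topology

theorem cc_nonneg {k : ℕ} (hk : 1 ≤ k) : 0 ≤ cc k := by
  unfold cc
  have h1 : (1 : ℝ) ≤ k := by exact_mod_cast hk
  apply div_nonneg (by positivity)
  apply mul_nonneg (by linarith) (by positivity)

theorem cc_succ (k : ℕ) : ((k : ℝ) + 1) * cc (k + 1) = ((k : ℝ) - 1 / 2) * cc k := by
  unfold cc
  have h := Nat.succ_mul_centralBinom_succ k
  have h' : ((k : ℝ) + 1) * (Nat.centralBinom (k + 1) : ℝ) = 2 * (2 * (k : ℝ) + 1) * (Nat.centralBinom k : ℝ) := by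
    exact_mod_cast h
  have h2 : (2 * (k : ℝ) - 1) ≠ 0 := by
    intro h0
    have h3 : (2 * (k : ℝ)) = 1 := by linarith
    have h4 : (2 * k : ℕ) = 1 := by exact_mod_cast h3
    omega
  have h3 : (2 * (k : ℝ) + 1) ≠ 0 := by positivity
  have h4 : (2 * ((k + 1 : ℕ) : ℝ) - 1) = 2 * (k : ℝ) + 1 := by push_cast; ring
  rw [h4, pow_succ]
  have h5 : ((k : ℝ) + 1) * ((Nat.centralBinom (k + 1) : ℝ) / ((2 * (k : ℝ) + 1) * (4 ^ k * 4)))
      = (((k : ℝ) + 1) * (Nat.centralBinom (k + 1) : ℝ)) / ((2 * (k : ℝ) + 1) * (4 ^ k * 4)) := by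
    ring
  rw [h5, h']
  field_simp
  ring

theorem cc_one : cc 1 = 1 / 2 := by
  unfold cc
  norm_num [Nat.centralBinom]

/-- the derivative of `PP`. -/
noncomputable def dPP (m : ℕ) (x : ℝ) : ℝ := - ∑ k ∈ Finset.Icc 1 m, cc k * ((k : ℝ) * x ^ (k - 1))

theorem hasDerivAt_PP (m : ℕ) (x : ℝ) : HasDerivAt (PP m) (dPP m x) x := by
  have h : HasDerivAt (fun y : ℝ => ∑ k ∈ Finset.Icc 1 m, cc k * y ^ k)
      (∑ k ∈ Finset.Icc 1 m, cc k * ((k : ℝ) * x ^ (k - 1))) x := by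
    apply HasDerivAt.fun_sum
    intro k _
    exact (hasDerivAt_pow k x).const_mul (cc k)
  have h2 := h.const_sub 1
  exact h2

theorem PP_ode (m : ℕ) (hm : 1 ≤ m) (x : ℝ) :
    (1 - x) * dPP m x + PP m x / 2 = ((m : ℝ) - 1 / 2) * cc m * x ^ m := by
  induction m, hm using Nat.le_induction with
  | base =>
    simp [dPP, PP, cc_one]
    ring
  | succ n hn ih =>
    have e1 : dPP (n + 1) x = dPP n x - cc (n + 1) * (((n : ℝ) + 1) * x ^ n) := by
      unfold dPP
      rw [Finset.sum_Icc_succ_top (by omega)]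
      push_cast
      simp
      ring
    have e2 : PP (n + 1) x = PP n x - cc (n + 1) * x ^ (n + 1) := by
      unfold PP
      rw [Finset.sum_Icc_succ_top (by omega)]
      ring
    have h := cc_succ n
    rw [e1, e2]
    push_cast
    have : (1 - x) * (dPP n x - cc (n + 1) * (((n : ℝ) + 1) * x ^ n)) + (PP n x - cc (n + 1) * x ^ (n + 1)) / 2
        = ((1 - x) * dPP n x + PP n x / 2) - (1 - x) * (((n : ℝ) + 1) * cc (n + 1)) * x ^ n
          - cc (n + 1) * x ^ (n + 1) / 2 := by ring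
    rw [this, ih, h]
    have h' : ((n : ℝ) - 1 / 2) * cc n = ((n : ℝ) + 1) * cc (n + 1) := h.symm
    have : ((n : ℝ) - 1 / 2) * cc n * x ^ n - (1 - x) * (((n : ℝ) - 1 / 2) * cc n) * x ^ n
        - cc (n + 1) * x ^ (n + 1) / 2 = x * (((n : ℝ) - 1 / 2) * cc n) * x ^ n - cc (n + 1) * x ^ (n + 1) / 2 := by
      ring
    rw [this, h', pow_succ]
    ring

theorem PP_zero (m : ℕ) : PP m 0 = 1 := by
  unfold PP
  rw [Finset.sum_eq_zero]
  · ring
  · intro k hk
    rw [Finset.mem_Icc] at hk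
    rw [zero_pow (by omega)]
    ring

theorem sqrt_le_PP_lt (m : ℕ) (hm : 1 ≤ m) {x : ℝ} (h0 : 0 ≤ x) (h1 : x < 1) : Real.sqrt (1 - x) ≤ PP m x := by
  have hder : ∀ y : ℝ, y < 1 → HasDerivAt (fun z => PP m z / Real.sqrt (1 - z))
      ((dPP m y * Real.sqrt (1 - y) - PP m y * (-1 / (2 * Real.sqrt (1 - y)))) / (Real.sqrt (1 - y)) ^ 2) y := by
    intro y hy
    have hs : HasDerivAt (fun z : ℝ => Real.sqrt (1 - z)) (-1 / (2 * Real.sqrt (1 - y))) y := by
      have := (((hasDerivAt_id y).const_sub 1).sqrt (by simp; linarith))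
      simpa using this
    have hne : Real.sqrt (1 - y) ≠ 0 := (Real.sqrt_pos.mpr (by linarith)).ne'
    exact (hasDerivAt_PP m y).div hs hne
  have hmono : MonotoneOn (fun z => PP m z / Real.sqrt (1 - z)) (Set.Ico (0 : ℝ) 1) := by
    apply monotoneOn_of_deriv_nonneg (convex_Ico 0 1)
    · intro y hy
      exact (hder y hy.2).continuousAt.continuousWithinAt
    · intro y hy
      rw [interior_Ico] at hy
      exact (hder y hy.2).differentiableAt.differentiableWithinAt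
    · intro y hy
      rw [interior_Ico] at hy
      rw [(hder y hy.2).deriv]
      apply div_nonneg _ (by positivity)
      have hpos : 0 < Real.sqrt (1 - y) := Real.sqrt_pos.mpr (by linarith [hy.2])
      have hsq : Real.sqrt (1 - y) * Real.sqrt (1 - y) = 1 - y := Real.mul_self_sqrt (by linarith [hy.2])
      have e : dPP m y * Real.sqrt (1 - y) - PP m y * (-1 / (2 * Real.sqrt (1 - y)))
          = ((Real.sqrt (1 - y) * Real.sqrt (1 - y)) * dPP m y + PP m y / 2) / Real.sqrt (1 - y) := by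
        field_simp
        ring
      rw [e, hsq, PP_ode m hm]
      apply div_nonneg _ hpos.le
      have h1m : (1 : ℝ) ≤ m := by exact_mod_cast hm
      have := cc_nonneg hm
      have hy0 : 0 ≤ y := hy.1.le
      apply mul_nonneg (mul_nonneg (by linarith) this) (by positivity)
  have hx := hmono (Set.mem_Ico.mpr ⟨le_refl (0 : ℝ), by norm_num⟩) (Set.mem_Ico.mpr ⟨h0, h1⟩) h0
  simp only [sub_zero, Real.sqrt_one, PP_zero, div_one] at hx
  have hpos : 0 < Real.sqrt (1 - x) := Real.sqrt_pos.mpr (by linarith)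
  rw [le_div_iff₀ hpos] at hx
  linarith

/-- `sqrt (1-x) ≤ PP m x` on `[0,1]`.  Proof: `(1-x) PP' + PP/2 = (m - 1/2) cc m x^m ≥ 0` for `m ≥ 1` (coefficientwise:
`(k+1) cc (k+1) = (k - 1/2) cc k` for `k ≥ 1`, `cc 1 = 1/2`), so `PP m x / sqrt (1-x)` is nondecreasing on `[0,1)` and equal
to 1 at 0; the case `x = 1` by continuity.  `m = 0`: trivial. -/
theorem sqrt_le_PP (m : ℕ) {x : ℝ} (h0 : 0 ≤ x) (h1 : x ≤ 1) : Real.sqrt (1 - x) ≤ PP m x := by
  rcases Nat.eq_zero_or_pos m with hm | hm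
  · subst hm
    have : PP 0 x = 1 := by simp [PP]
    rw [this]
    calc Real.sqrt (1 - x) ≤ Real.sqrt 1 := Real.sqrt_le_sqrt (by linarith)
      _ = 1 := Real.sqrt_one
  rcases lt_or_eq_of_le h1 with h | h
  · exact sqrt_le_PP_lt m hm h0 h
  · subst h
    simp only [sub_self, Real.sqrt_zero]
    have hc : ContinuousWithinAt (PP m) (Set.Iio 1) 1 := (hasDerivAt_PP m 1).continuousAt.continuousWithinAt
    apply ge_of_tendsto hc
    have : Set.Ioo (0 : ℝ) 1 ∈ 𝓝[<] (1 : ℝ) := Ioo_mem_nhdsLT (by norm_num)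
    filter_upwards [this] with y hy
    exact (Real.sqrt_nonneg _).trans (sqrt_le_PP_lt m hm hy.1.le hy.2)

theorem PP_le_one (m : ℕ) {x : ℝ} (h0 : 0 ≤ x) : PP m x ≤ 1 := by
  unfold PP
  have : 0 ≤ ∑ k ∈ Finset.Icc 1 m, cc k * x ^ k := by
    apply Finset.sum_nonneg
    intro k hk
    rw [Finset.mem_Icc] at hk
    exact mul_nonneg (cc_nonneg hk.1) (by positivity)
  linarith

end Pool.Agent.HVL
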