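import Mathlib
import Pool.Agent.HVL.SqrtA

namespace Pool.Agent.HVL

open Filter Topology

private theorem ccB_succ (k : ℕ) : ((k : ℝ) + 1) * cc (k + 1) = ((k : ℝ) - 1 / 2) * cc k := by
  have h := Nat.succ_mul_centralBinom_succ k
  have h' : ((k : ℝ) + 1) * (Nat.centralBinom (k + 1) : ℝ) = 2 * (2 * k + 1) * Nat.centralBinom k := by
    exact_mod_cast h
  have h1 : (2 * (k : ℝ) - 1) ≠ 0 := by
    intro h0
    have h2 : ((2 * k : ℕ) : ℝ) = ((1 : ℕ) : ℝ) := by push_cast; linarith
    have := Nat.cast_injective h2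
    omega
  have h2 : (2 * (k : ℝ) + 1) ≠ 0 := by
    have : (0:ℝ) ≤ k := Nat.cast_nonneg k
    intro h0; linarith
  have h4 : (4 : ℝ) ^ k ≠ 0 := by positivity
  have e1 : ((k : ℝ) + 1) * cc (k + 1) = (Nat.centralBinom k : ℝ) / (2 * 4 ^ k) := by
    unfold cc
    push_cast
    rw [pow_succ, ← mul_div_assoc, h', show (2 * ((k : ℝ) + 1) - 1) = 2 * k + 1 by ring]
    rw [div_eq_div_iff (by positivity) (by positivity)]
    ring
  have e2 : ((k : ℝ) - 1 / 2) * cc k = (Nat.centralBinom k : ℝ) / (2 * 4 ^ k) := by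
    unfold cc
    rw [← mul_div_assoc, div_eq_div_iff (mul_ne_zero h1 h4) (by positivity)]
    ring
  rw [e1, e2]

private theorem half_cc (k : ℕ) : ((k : ℝ) - 1 / 2) * cc k = (Nat.centralBinom k : ℝ) / (2 * 4 ^ k) := by
  have h1 : (2 * (k : ℝ) - 1) ≠ 0 := by
    intro h0
    have h2 : ((2 * k : ℕ) : ℝ) = ((1 : ℕ) : ℝ) := by push_cast; linarith
    have := Nat.cast_injective h2
    omega
  have h4 : (4 : ℝ) ^ k ≠ 0 := by positivity
  unfold cc
  rw [← mul_div_assoc, div_eq_div_iff (mul_ne_zero h1 h4) (by positivity)]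
  ring

private theorem cb_le (k : ℕ) : (Nat.centralBinom k : ℝ) ≤ 4 ^ k := by
  have h : Nat.centralBinom k ≤ 4 ^ k := by
    rw [Nat.centralBinom_eq_two_mul_choose]
    calc (2 * k).choose k ≤ 2 ^ (2 * k) := Nat.choose_le_two_pow _ _
      _ = 4 ^ k := by rw [pow_mul]; norm_num
  exact_mod_cast h

private theorem half_cc_le (k : ℕ) : ((k : ℝ) - 1 / 2) * cc k ≤ 1 / 2 := by
  rw [half_cc, div_le_div_iff₀ (by positivity) (by norm_num)]
  have := cb_le k
  linarith

private theorem half_cc_nonneg (k : ℕ) : 0 ≤ ((k : ℝ) - 1 / 2) * cc k := by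
  rw [half_cc]; positivity

/-- derivative of `PP m` -/
private noncomputable def PP' (m : ℕ) (x : ℝ) : ℝ :=
  - ∑ k ∈ Finset.Icc 1 m, cc k * ((k : ℝ) * x ^ (k - 1))

private theorem hasDerivAt_PPB (m : ℕ) (x : ℝ) : HasDerivAt (PP m) (PP' m x) x := by
  have h1 : HasDerivAt (fun y : ℝ => ∑ k ∈ Finset.Icc 1 m, cc k * y ^ k)
      (∑ k ∈ Finset.Icc 1 m, cc k * ((k : ℝ) * x ^ (k - 1))) x := by
    refine HasDerivAt.fun_sum fun k _ => ?_
    exact (hasDerivAt_pow k x).const_mul (cc k)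
  have h2 := h1.const_sub 1
  exact h2

private theorem ode (m : ℕ) (x : ℝ) :
    (1 - x) * PP' m x + PP m x / 2 = ((m : ℝ) - 1 / 2) * cc m * x ^ m := by
  induction m with
  | zero =>
    simp [PP', PP, cc]
  | succ m ih =>
    have h1 : PP' (m + 1) x = PP' m x - cc (m + 1) * (((m : ℝ) + 1) * x ^ m) := by
      unfold PP'
      rw [Finset.sum_Icc_succ_top (by omega)]
      push_cast
      ring
    have h2 : PP (m + 1) x = PP m x - cc (m + 1) * x ^ (m + 1) := by
      unfold PP
      rw [Finset.sum_Icc_succ_top (by omega)]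
      ring
    have h3 := ccB_succ m
    rw [h1, h2]
    push_cast
    have : ((m : ℝ) + 1) * cc (m + 1) * x ^ m = ((m : ℝ) - 1 / 2) * cc m * x ^ m := by rw [h3]
    rw [pow_succ]
    linear_combination ih - this

private theorem PPB_zero (m : ℕ) : PP m 0 = 1 := by
  unfold PP
  rw [Finset.sum_eq_zero]
  · ring
  · intro k hk
    rw [Finset.mem_Icc] at hk
    rw [zero_pow (by omega)]
    ring

private theorem PP_err (m : ℕ) {x : ℝ} (h0 : 0 ≤ x) (h1 : x < 1) :
    PP m x ≤ Real.sqrt (1 - x) + x ^ m * (Real.sqrt (1 - x) * (1 / 2 * (1 / ((1 - x) * Real.sqrt (1 - x))))) := by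
  -- the quotient
  set q : ℝ → ℝ := fun y => PP m y / Real.sqrt (1 - y) with hq
  have hpos : ∀ y, y < 1 → 0 < Real.sqrt (1 - y) := fun y hy => Real.sqrt_pos.mpr (by linarith)
  have hder : ∀ y, y < 1 → HasDerivAt q
      ((PP' m y * Real.sqrt (1 - y) - PP m y * (-1 / (2 * Real.sqrt (1 - y)))) / Real.sqrt (1 - y) ^ 2) y := by
    intro y hy
    have ha : HasDerivAt (fun y : ℝ => 1 - y) (-1) y := by
      simpa using (hasDerivAt_id y).const_sub 1
    have hb : HasDerivAt (fun y : ℝ => Real.sqrt (1 - y)) (-1 / (2 * Real.sqrt (1 - y))) y :=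
      ha.sqrt (by linarith)
    exact (hasDerivAt_PPB m y).fun_div hb (hpos y hy).ne'
  have hval : ∀ y, y < 1 →
      (PP' m y * Real.sqrt (1 - y) - PP m y * (-1 / (2 * Real.sqrt (1 - y)))) / Real.sqrt (1 - y) ^ 2
        = ((m : ℝ) - 1 / 2) * cc m * y ^ m / ((1 - y) * Real.sqrt (1 - y)) := by
    intro y hy
    have hp := hpos y hy
    have hs : Real.sqrt (1 - y) ^ 2 = 1 - y := Real.sq_sqrt (by linarith)
    have h1y : 0 < 1 - y := by linarith
    rw [← ode m y]
    rw [hs, div_eq_div_iff h1y.ne' (mul_pos h1y hp).ne']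
    have e : PP' m y * Real.sqrt (1 - y) - PP m y * (-1 / (2 * Real.sqrt (1 - y)))
        = (PP' m y * (1 - y) + PP m y / 2) / Real.sqrt (1 - y) := by
      rw [eq_div_iff hp.ne']
      have : (PP' m y * Real.sqrt (1 - y) - PP m y * (-1 / (2 * Real.sqrt (1 - y)))) * Real.sqrt (1 - y)
        = PP' m y * Real.sqrt (1 - y) ^ 2 + PP m y * (Real.sqrt (1 - y) / (2 * Real.sqrt (1 - y))) := by ring
      rw [this, hs]
      have : Real.sqrt (1 - y) / (2 * Real.sqrt (1 - y)) = 1 / 2 := by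
        field_simp
      rw [this]
      ring
    rw [e, div_mul_eq_mul_div, div_eq_iff hp.ne']
    ring
  -- mean value inequality on [0, x]
  have hmv : q x - q 0 ≤ x ^ m * (1 / 2 * (1 / ((1 - x) * Real.sqrt (1 - x)))) * (x - 0) := by
    refine Convex.image_sub_le_mul_sub_of_deriv_le (convex_Icc (0 : ℝ) x) ?_ ?_ ?_ 0
      (Set.left_mem_Icc.mpr h0) x (Set.right_mem_Icc.mpr h0) h0
    · intro y hy
      exact (hder y (by linarith [hy.2])).continuousAt.continuousWithinAt
    · intro y hy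
      rw [interior_Icc] at hy
      exact (hder y (by linarith [hy.2])).differentiableAt.differentiableWithinAt
    · intro y hy
      rw [interior_Icc] at hy
      have hy1 : y < 1 := by linarith [hy.2]
      rw [(hder y hy1).deriv, hval y hy1]
      have e1 : y ^ m ≤ x ^ m := pow_le_pow_left₀ hy.1.le hy.2.le m
      have e2 : Real.sqrt (1 - x) ≤ Real.sqrt (1 - y) := Real.sqrt_le_sqrt (by linarith [hy.2])
      have e3 : (1 - x) * Real.sqrt (1 - x) ≤ (1 - y) * Real.sqrt (1 - y) :=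
        mul_le_mul (by linarith [hy.2]) e2 (Real.sqrt_nonneg _) (by linarith)
      have e4 : 0 < (1 - x) * Real.sqrt (1 - x) := mul_pos (by linarith) (hpos x h1)
      have e5 : 1 / ((1 - y) * Real.sqrt (1 - y)) ≤ 1 / ((1 - x) * Real.sqrt (1 - x)) :=
        one_div_le_one_div_of_le e4 e3
      have e6 : 0 ≤ 1 / ((1 - y) * Real.sqrt (1 - y)) := by
        have := mul_pos (show (0 : ℝ) < 1 - y by linarith) (hpos y hy1)
        positivity
      calc ((m : ℝ) - 1 / 2) * cc m * y ^ m / ((1 - y) * Real.sqrt (1 - y))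
          = (((m : ℝ) - 1 / 2) * cc m) * y ^ m * (1 / ((1 - y) * Real.sqrt (1 - y))) := by ring
        _ ≤ 1 / 2 * x ^ m * (1 / ((1 - x) * Real.sqrt (1 - x))) := by
            refine mul_le_mul ?_ e5 e6 (by positivity)
            exact mul_le_mul (half_cc_le m) e1 (pow_nonneg hy.1.le m) (by norm_num)
        _ = x ^ m * (1 / 2 * (1 / ((1 - x) * Real.sqrt (1 - x)))) := by ring
  have hq0 : q 0 = 1 := by simp [hq, PPB_zero]
  have hp := hpos x h1
  have hC : 0 ≤ x ^ m * (1 / 2 * (1 / ((1 - x) * Real.sqrt (1 - x)))) := by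
    have : 0 < (1 - x) * Real.sqrt (1 - x) := mul_pos (by linarith) hp
    positivity
  have hqx : q x ≤ 1 + x ^ m * (1 / 2 * (1 / ((1 - x) * Real.sqrt (1 - x)))) := by
    rw [hq0] at hmv
    nlinarith
  have : PP m x = q x * Real.sqrt (1 - x) := by
    simp only [hq]
    rw [div_mul_cancel₀ _ hp.ne']
  rw [this]
  calc q x * Real.sqrt (1 - x)
      ≤ (1 + x ^ m * (1 / 2 * (1 / ((1 - x) * Real.sqrt (1 - x))))) * Real.sqrt (1 - x) :=
        mul_le_mul_of_nonneg_right hqx hp.le
    _ = _ := by ring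

/-- For `0 ≤ x < 1` the Taylor polynomials converge to `sqrt (1-x)`: the error `PP m x - sqrt(1-x)` is
`sqrt(1-x) ∫_0^x (m-1/2) cc m s^m (1-s)^(-3/2) ds ≤ (m - 1/2) cc m x^m / (1-x) * ..` and `(m-1/2) cc m ≤ 1/2`
(or by the binomial series in Mathlib, or by the ODE argument for the power series). -/
theorem PP_tendsto {x : ℝ} (h0 : 0 ≤ x) (h1 : x < 1) :
    Tendsto (fun m => PP m x) atTop (𝓝 (Real.sqrt (1 - x))) := by
  have hlim : Tendsto (fun m : ℕ => Real.sqrt (1 - x) +
      x ^ m * (Real.sqrt (1 - x) * (1 / 2 * (1 / ((1 - x) * Real.sqrt (1 - x)))))) atTop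
      (𝓝 (Real.sqrt (1 - x) + 0 * (Real.sqrt (1 - x) * (1 / 2 * (1 / ((1 - x) * Real.sqrt (1 - x))))))) :=
    ((tendsto_pow_atTop_nhds_zero_of_lt_one h0 h1).mul_const _).const_add _
  rw [zero_mul, add_zero] at hlim
  exact tendsto_of_tendsto_of_tendsto_of_le_of_le tendsto_const_nhds hlim
    (fun m => sqrt_le_PP m h0 h1.le) (fun m => PP_err m h0 h1)

private theorem continuous_PP (m : ℕ) : Continuous (PP m) := by
  unfold PP
  fun_prop

private theorem al_eq (m : ℕ) : ∫ t in (-1 : ℝ)..1, PP m (t ^ 2) = 2 * al m := by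
  unfold PP al
  rw [intervalIntegral.integral_sub (by simp) (by
    apply Continuous.intervalIntegrable
    fun_prop)]
  rw [intervalIntegral.integral_finsetSum (by
    intro k _
    apply Continuous.intervalIntegrable
    fun_prop)]
  have : ∀ k : ℕ, ∫ t in (-1 : ℝ)..1, cc k * (t ^ 2) ^ k = 2 * (cc k / (2 * k + 1)) := by
    intro k
    rw [intervalIntegral.integral_const_mul]
    have h : ∀ t : ℝ, (t ^ 2) ^ k = t ^ (2 * k) := fun t => by rw [← pow_mul]
    simp only [h]
    rw [integral_pow]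
    have h2 : ((-1 : ℝ)) ^ (2 * k + 1) = -1 := by
      rw [pow_succ, pow_mul]; simp
    rw [h2]
    push_cast
    ring
  simp only [this]
  rw [← Finset.mul_sum]
  simp
  ring

private theorem PP_bound (m : ℕ) {x : ℝ} (h0 : 0 ≤ x) (h1 : x ≤ 1) : ‖PP m x‖ ≤ 1 := by
  have h2 := sqrt_le_PP m h0 h1
  have h3 := Real.sqrt_nonneg (1 - x)
  rw [Real.norm_eq_abs, abs_of_nonneg (h3.trans h2)]
  exact PP_le_one m h0

/-- `al m = ∫_0^1 PP m (t^2) dt ≥ 0`. -/
theorem al_nonneg (m : ℕ) : 0 ≤ al m := by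
  have h := al_eq m
  have h2 : 0 ≤ ∫ t in (-1 : ℝ)..1, PP m (t ^ 2) := by
    refine intervalIntegral.integral_nonneg (by norm_num) ?_
    intro t ht
    refine (Real.sqrt_nonneg _).trans (sqrt_le_PP m (sq_nonneg t) ?_)
    exact (sq_le_one_iff_abs_le_one t).mpr (abs_le.mpr ⟨ht.1, ht.2⟩)
  linarith

/-- `al m = ∫_0^1 PP m (t^2) dt → ∫_0^1 sqrt (1-t^2) dt = π/4` by dominated convergence
(`0 ≤ PP m ≤ 1` on `[0,1]`; `integral_sqrt_one_sub_sq`). -/
theorem al_tendsto : Tendsto al atTop (𝓝 (Real.pi / 4)) := by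
  have h : Tendsto (fun m => ∫ t in (-1 : ℝ)..1, PP m (t ^ 2)) atTop
      (𝓝 (∫ t in (-1 : ℝ)..1, Real.sqrt (1 - t ^ 2))) := by
    refine intervalIntegral.tendsto_integral_filter_of_dominated_convergence (fun _ => (1 : ℝ)) ?_ ?_ ?_ ?_
    · refine Eventually.of_forall fun m => ?_
      exact ((continuous_PP m).comp (continuous_pow 2)).aestronglyMeasurable
    · refine Eventually.of_forall fun m => Eventually.of_forall fun t ht => ?_
      rw [Set.uIoc_of_le (by norm_num)] at ht
      exact PP_bound m (sq_nonneg t) ((sq_le_one_iff_abs_le_one t).mpr (abs_le.mpr ⟨ht.1.le, ht.2⟩))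
    · simp
    · have hae : ∀ᵐ t : ℝ, t ≠ 1 := by
        rw [MeasureTheory.ae_iff]; simp
      filter_upwards [hae] with t ht1 ht
      rw [Set.uIoc_of_le (by norm_num)] at ht
      refine PP_tendsto (sq_nonneg t) ?_
      exact (sq_lt_one_iff_abs_lt_one t).mpr (abs_lt.mpr ⟨ht.1, lt_of_le_of_ne ht.2 ht1⟩)
  rw [integral_sqrt_one_sub_sq] at h
  have h2 := h.div_const 2
  have e : (fun m => (∫ t in (-1 : ℝ)..1, PP m (t ^ 2)) / 2) = al := by
    funext m
    rw [al_eq]; ring
  rw [e] at h2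
  convert h2 using 2
  ring

private theorem prod_cb (k : ℕ) :
    ∏ i ∈ Finset.range k, (2 * (i : ℝ) + 1) / (2 * i + 2) = (Nat.centralBinom k : ℝ) / 4 ^ k := by
  induction k with
  | zero => simp
  | succ k ih =>
    rw [Finset.prod_range_succ, ih]
    have h := Nat.succ_mul_centralBinom_succ k
    have h' : ((k : ℝ) + 1) * (Nat.centralBinom (k + 1) : ℝ) = 2 * (2 * k + 1) * Nat.centralBinom k := by
      exact_mod_cast h
    have h1 : (2 * (k : ℝ) + 2) ≠ 0 := by positivity
    rw [div_mul_div_comm, div_eq_div_iff (by positivity) (by positivity), pow_succ]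
    linear_combination (-2) * (4 : ℝ) ^ k * h'

private theorem be_eq (m : ℕ) : ∫ t in (0 : ℝ)..Real.pi, PP m (Real.sin t ^ 2) = Real.pi * be m := by
  unfold PP be
  rw [intervalIntegral.integral_sub (by simp) (by
    apply Continuous.intervalIntegrable
    fun_prop)]
  rw [intervalIntegral.integral_finsetSum (by
    intro k _
    apply Continuous.intervalIntegrable
    fun_prop)]
  have : ∀ k : ℕ, ∫ t in (0 : ℝ)..Real.pi, cc k * (Real.sin t ^ 2) ^ k =
      Real.pi * (cc k * ((Nat.centralBinom k : ℝ) / 4 ^ k)) := by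
    intro k
    rw [intervalIntegral.integral_const_mul]
    have h : ∀ t : ℝ, (Real.sin t ^ 2) ^ k = Real.sin t ^ (2 * k) := fun t => by rw [← pow_mul]
    simp only [h]
    rw [integral_sin_pow_even, prod_cb]
    ring
  simp only [this]
  rw [← Finset.mul_sum]
  simp
  ring

private theorem integral_abs_cos : ∫ t in (0 : ℝ)..Real.pi, |Real.cos t| = 2 := by
  have hc : Continuous fun t : ℝ => |Real.cos t| := Real.continuous_cos.abs
  rw [← intervalIntegral.integral_add_adjacent_intervals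
    (hc.intervalIntegrable 0 (Real.pi / 2)) (hc.intervalIntegrable (Real.pi / 2) Real.pi)]
  have h1 : ∫ t in (0 : ℝ)..(Real.pi / 2), |Real.cos t| = ∫ t in (0 : ℝ)..(Real.pi / 2), Real.cos t := by
    refine intervalIntegral.integral_congr fun t ht => ?_
    rw [Set.uIcc_of_le (by positivity)] at ht
    exact abs_of_nonneg (Real.cos_nonneg_of_neg_pi_div_two_le_of_le (by linarith [ht.1, Real.pi_pos]) ht.2)
  have h2 : ∫ t in (Real.pi / 2)..Real.pi, |Real.cos t| = ∫ t in (Real.pi / 2)..Real.pi, -Real.cos t := by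
    refine intervalIntegral.integral_congr fun t ht => ?_
    rw [Set.uIcc_of_le (by linarith [Real.pi_pos])] at ht
    exact abs_of_nonpos (Real.cos_nonpos_of_pi_div_two_le_of_le ht.1 (by linarith [ht.2, Real.pi_pos]))
  rw [h1, h2, intervalIntegral.integral_neg, integral_cos, integral_cos]
  simp
  norm_num

/-- `be m = (1/π) ∫_0^π PP m (cos^2 t) dt → (1/π) ∫_0^π |sin t| dt = 2/π` (the mean of `cos^{2k}` over `[0,π]` is
`C(2k,k)/4^k`; dominated convergence). -/
theorem be_tendsto : Tendsto be atTop (𝓝 (2 / Real.pi)) := by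
  have h : Tendsto (fun m => ∫ t in (0 : ℝ)..Real.pi, PP m (Real.sin t ^ 2)) atTop
      (𝓝 (∫ t in (0 : ℝ)..Real.pi, |Real.cos t|)) := by
    refine intervalIntegral.tendsto_integral_filter_of_dominated_convergence (fun _ => (1 : ℝ)) ?_ ?_ ?_ ?_
    · refine Eventually.of_forall fun m => ?_
      exact ((continuous_PP m).comp (Real.continuous_sin.pow 2)).aestronglyMeasurable
    · refine Eventually.of_forall fun m => Eventually.of_forall fun t ht => ?_
      exact PP_bound m (sq_nonneg _) (Real.sin_sq_le_one t)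
    · simp
    · have hae : ∀ᵐ t : ℝ, t ≠ Real.pi / 2 := by
        rw [MeasureTheory.ae_iff]; simp
      filter_upwards [hae] with t ht1 ht
      rw [Set.uIoc_of_le Real.pi_pos.le] at ht
      have hcos : Real.cos t ≠ 0 := by
        intro h0
        apply ht1
        refine Real.injOn_cos ⟨ht.1.le, ht.2⟩ ⟨by positivity, by linarith [Real.pi_pos]⟩ ?_
        rw [h0, Real.cos_pi_div_two]
      have hlt : Real.sin t ^ 2 < 1 := by
        have h3 := Real.sin_sq_add_cos_sq t
        have h4 : 0 < Real.cos t ^ 2 := by positivity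
        linarith
      have h5 := PP_tendsto (sq_nonneg (Real.sin t)) hlt
      have h6 : Real.sqrt (1 - Real.sin t ^ 2) = |Real.cos t| := by
        rw [← Real.cos_sq', Real.sqrt_sq_eq_abs]
      rw [h6] at h5
      exact h5
  rw [integral_abs_cos] at h
  have h2 := h.div_const Real.pi
  have e : (fun m => (∫ t in (0 : ℝ)..Real.pi, PP m (Real.sin t ^ 2)) / Real.pi) = be := by
    funext m
    rw [be_eq, mul_div_cancel_left₀ _ Real.pi_ne_zero]
  rw [e] at h2
  exact h2

end Pool.Agent.HVL
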