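import Mathlib
import Pool.Agent.HVL.Sqrt

namespace Pool.Agent.HVL

/-- `(C(2k,k)/4^k) (∑ a_i)^2 ≤ ∑_{i,j} a_i a_j cos(t_i - t_j)^{2k}`: `cos^{2k} u = 4^{-k} ∑_l C(2k,l) cos((2k-2l) u)` and
`∑ a_i a_j cos(q (t_i - t_j)) = (∑ a_i cos q t_i)^2 + (∑ a_i sin q t_i)^2 ≥ 0`; keep the term `l = k`. -/
theorem fischer2 {ι : Type*} [Fintype ι] (k : ℕ) (a t : ι → ℝ) :
    ((Nat.centralBinom k : ℝ) / 4 ^ k) * (∑ i, a i) ^ 2 ≤
      ∑ i, ∑ j, a i * a j * (Real.cos (t i - t j)) ^ (2 * k) := by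
  classical
  let z : ι → ℂ := fun i => ⟨Real.cos (t i), Real.sin (t i)⟩
  let zb : ι → ℂ := fun i => ⟨Real.cos (t i), -Real.sin (t i)⟩
  have hzb : ∀ i, (starRingEnd ℂ) (z i) = zb i := by
    intro i
    apply Complex.ext <;> simp [z, zb]
  have hzb' : ∀ i, (starRingEnd ℂ) (zb i) = z i := by
    intro i
    apply Complex.ext <;> simp [z, zb]
  have hz1 : ∀ i, z i * zb i = 1 := by
    intro i
    apply Complex.ext
    · simp only [z, zb, Complex.mul_re, Complex.one_re]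
      have := Real.cos_sq_add_sin_sq (t i)
      nlinarith [this]
    · simp only [z, zb, Complex.mul_im, Complex.one_im]
      ring
  have hcos : ∀ i j, ((Real.cos (t i - t j) : ℝ) : ℂ) = (z i * zb j + zb i * z j) / 2 := by
    intro i j
    rw [Real.cos_sub, eq_div_iff (by norm_num : (2 : ℂ) ≠ 0)]
    apply Complex.ext
    · simp only [z, zb, Complex.mul_re, Complex.add_re, Complex.ofReal_re, Complex.ofReal_im,
        Complex.re_ofNat, Complex.im_ofNat]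
      ring
    · simp only [z, zb, Complex.mul_im, Complex.add_im, Complex.ofReal_re, Complex.ofReal_im,
        Complex.re_ofNat, Complex.im_ofNat]
      ring
  let F : ℕ → ℂ := fun l => ∑ i, (a i : ℂ) * (z i ^ l * zb i ^ (2 * k - l))
  have key : ((∑ i, ∑ j, a i * a j * (Real.cos (t i - t j)) ^ (2 * k) : ℝ) : ℂ) =
      ∑ l ∈ Finset.range (2 * k + 1), (((Nat.choose (2 * k) l : ℝ) / 4 ^ k * Complex.normSq (F l) : ℝ) : ℂ) := by
    have h1 : ∀ i j, ((a i * a j * (Real.cos (t i - t j)) ^ (2 * k) : ℝ) : ℂ) =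
        ∑ l ∈ Finset.range (2 * k + 1), (Nat.choose (2 * k) l : ℂ) / 4 ^ k *
          (((a i : ℂ) * (z i ^ l * zb i ^ (2 * k - l))) * ((a j : ℂ) * (zb j ^ l * z j ^ (2 * k - l)))) := by
      intro i j
      push_cast
      have h2 := hcos i j
      push_cast at h2
      rw [h2, div_pow, add_pow, pow_mul (2 : ℂ) 2 k, Finset.sum_div, Finset.mul_sum]
      refine Finset.sum_congr rfl fun l _ => ?_
      rw [mul_pow, mul_pow]
      have : (2 : ℂ) ^ 2 = 4 := by norm_num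
      rw [this]
      ring
    push_cast
    have h3 : ∀ i j, (a i : ℂ) * (a j : ℂ) * (Complex.cos ((t i : ℂ) - (t j : ℂ))) ^ (2 * k) =
        ∑ l ∈ Finset.range (2 * k + 1), (Nat.choose (2 * k) l : ℂ) / 4 ^ k *
          (((a i : ℂ) * (z i ^ l * zb i ^ (2 * k - l))) * ((a j : ℂ) * (zb j ^ l * z j ^ (2 * k - l)))) := by
      intro i j
      rw [← h1 i j]
      push_cast
      rfl
    simp only [h3]
    have h4 : ∀ i, ∑ j, ∑ l ∈ Finset.range (2 * k + 1), (Nat.choose (2 * k) l : ℂ) / 4 ^ k *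
          (((a i : ℂ) * (z i ^ l * zb i ^ (2 * k - l))) * ((a j : ℂ) * (zb j ^ l * z j ^ (2 * k - l)))) =
          ∑ l ∈ Finset.range (2 * k + 1), ∑ j, (Nat.choose (2 * k) l : ℂ) / 4 ^ k *
          (((a i : ℂ) * (z i ^ l * zb i ^ (2 * k - l))) * ((a j : ℂ) * (zb j ^ l * z j ^ (2 * k - l)))) :=
      fun i => Finset.sum_comm
    simp only [h4]
    rw [Finset.sum_comm]
    refine Finset.sum_congr rfl fun l _ => ?_
    have h5 : (starRingEnd ℂ) (F l) = ∑ j, (a j : ℂ) * (zb j ^ l * z j ^ (2 * k - l)) := by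
      simp only [F, map_sum, map_mul, map_pow, hzb, hzb', Complex.conj_ofReal]
    have h6 : (Complex.normSq (F l) : ℂ) = F l * (starRingEnd ℂ) (F l) := by
      rw [Complex.mul_conj]
    rw [h6, h5]
    simp only [F]
    rw [Finset.sum_mul_sum, Finset.mul_sum]
    refine Finset.sum_congr rfl fun i _ => ?_
    rw [Finset.mul_sum]
  have key' : ∑ i, ∑ j, a i * a j * (Real.cos (t i - t j)) ^ (2 * k) =
      ∑ l ∈ Finset.range (2 * k + 1), ((Nat.choose (2 * k) l : ℝ) / 4 ^ k * Complex.normSq (F l)) := by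
    have : ((∑ i, ∑ j, a i * a j * (Real.cos (t i - t j)) ^ (2 * k) : ℝ) : ℂ) =
        ((∑ l ∈ Finset.range (2 * k + 1), ((Nat.choose (2 * k) l : ℝ) / 4 ^ k * Complex.normSq (F l)) : ℝ) : ℂ) := by
      rw [key, Complex.ofReal_sum]
    exact_mod_cast this
  rw [key']
  have hk : k ∈ Finset.range (2 * k + 1) := Finset.mem_range.mpr (by omega)
  have hF : F k = ((∑ i, a i : ℝ) : ℂ) := by
    simp only [F]
    push_cast
    refine Finset.sum_congr rfl fun i _ => ?_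
    have : 2 * k - k = k := by omega
    rw [this, ← mul_pow, hz1, one_pow, mul_one]
  have hterm : ((Nat.centralBinom k : ℝ) / 4 ^ k) * (∑ i, a i) ^ 2 =
      (Nat.choose (2 * k) k : ℝ) / 4 ^ k * Complex.normSq (F k) := by
    rw [hF, Complex.normSq_ofReal, Nat.centralBinom_eq_two_mul_choose]
    ring
  rw [hterm]
  exact Finset.single_le_sum (f := fun l => (Nat.choose (2 * k) l : ℝ) / 4 ^ k * Complex.normSq (F l))
    (fun l _ => mul_nonneg (by positivity) (Complex.normSq_nonneg _)) hk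

/-- Planar isoperimetric inequality for zonogons: `∑_{i,j} |w_i ∧ w_j| ≤ (2/π) (∑ |w_i|)^2`.
Proof: `w_i = r_i (cos t_i, sin t_i)`, `|w_i ∧ w_j| = r_i r_j |sin(t_i-t_j)| = r_i r_j sqrt(1 - cos^2) ≤ r_i r_j PP m (cos^2)`
and `∑ r_i r_j PP m (cos^2 (t_i-t_j)) ≤ be m (∑ r_i)^2` by `fischer2` (the term `k ≥ 1` of `PP` has the coefficient
`- cc k ≤ 0`, the constant 1 gives `(∑ r_i)^2`); `m → ∞` (`be_tendsto`). -/
theorem planar_ineq {ι : Type*} [Fintype ι] (x y : ι → ℝ) :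
    ∑ i, ∑ j, |x i * y j - y i * x j| ≤
      (2 / Real.pi) * (∑ i, Real.sqrt (x i ^ 2 + y i ^ 2)) ^ 2 := by
  let r : ι → ℝ := fun i => Real.sqrt (x i ^ 2 + y i ^ 2)
  let t : ι → ℝ := fun i => Complex.arg ⟨x i, y i⟩
  have hr : ∀ i, 0 ≤ r i := fun i => Real.sqrt_nonneg _
  have hnorm : ∀ i, ‖(⟨x i, y i⟩ : ℂ)‖ = r i := by
    intro i
    rw [Complex.norm_eq_sqrt_sq_add_sq]
  have hx : ∀ i, r i * Real.cos (t i) = x i := by
    intro i
    have h := Complex.norm_mul_cos_arg (⟨x i, y i⟩ : ℂ)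
    rw [hnorm] at h
    exact h
  have hy : ∀ i, r i * Real.sin (t i) = y i := by
    intro i
    have h := Complex.norm_mul_sin_arg (⟨x i, y i⟩ : ℂ)
    rw [hnorm] at h
    exact h
  have hbound : ∀ m : ℕ, ∑ i, ∑ j, |x i * y j - y i * x j| ≤ be m * (∑ i, r i) ^ 2 := by
    intro m
    have h1 : ∀ i j, |x i * y j - y i * x j| ≤ r i * r j * PP m ((Real.cos (t i - t j)) ^ 2) := by
      intro i j
      have e1 : x i * y j - y i * x j = r i * r j * Real.sin (t j - t i) := by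
        rw [Real.sin_sub, ← hx i, ← hx j, ← hy i, ← hy j]
        ring
      have e2 : |Real.sin (t j - t i)| = Real.sqrt (1 - (Real.cos (t i - t j)) ^ 2) := by
        have : 1 - (Real.cos (t i - t j)) ^ 2 = (Real.sin (t j - t i)) ^ 2 := by
          have h := Real.sin_sq_add_cos_sq (t j - t i)
          have h2 : Real.cos (t i - t j) = Real.cos (t j - t i) := by
            rw [← Real.cos_neg]; congr 1; ring
          rw [h2]
          linarith
        rw [this, Real.sqrt_sq_eq_abs]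
      rw [e1, abs_mul, abs_of_nonneg (mul_nonneg (hr i) (hr j)), e2]
      refine mul_le_mul_of_nonneg_left ?_ (mul_nonneg (hr i) (hr j))
      exact sqrt_le_PP m (sq_nonneg _) (Real.cos_sq_le_one _)
    have h2 : ∑ i, ∑ j, |x i * y j - y i * x j| ≤
        ∑ i, ∑ j, r i * r j * PP m ((Real.cos (t i - t j)) ^ 2) :=
      Finset.sum_le_sum fun i _ => Finset.sum_le_sum fun j _ => h1 i j
    refine h2.trans ?_
    have h3 : ∑ i, ∑ j, r i * r j * PP m ((Real.cos (t i - t j)) ^ 2) =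
        (∑ i, r i) ^ 2 - ∑ k ∈ Finset.Icc 1 m, cc k *
          (∑ i, ∑ j, r i * r j * (Real.cos (t i - t j)) ^ (2 * k)) := by
      have e1 : ∀ i j, r i * r j * PP m ((Real.cos (t i - t j)) ^ 2) =
          r i * r j - ∑ k ∈ Finset.Icc 1 m, cc k * (r i * r j * (Real.cos (t i - t j)) ^ (2 * k)) := by
        intro i j
        unfold PP
        rw [mul_sub, mul_one, Finset.mul_sum]
        congr 1
        refine Finset.sum_congr rfl fun k _ => ?_
        rw [← pow_mul]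
        ring
      simp only [e1, Finset.sum_sub_distrib]
      have e2 : ∑ i, ∑ j, r i * r j = (∑ i, r i) ^ 2 := by
        rw [sq, Finset.sum_mul_sum]
      rw [e2]
      congr 1
      have e3 : ∀ i, ∑ j, ∑ k ∈ Finset.Icc 1 m, cc k * (r i * r j * (Real.cos (t i - t j)) ^ (2 * k)) =
          ∑ k ∈ Finset.Icc 1 m, ∑ j, cc k * (r i * r j * (Real.cos (t i - t j)) ^ (2 * k)) :=
        fun i => Finset.sum_comm
      simp only [e3]
      rw [Finset.sum_comm]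
      refine Finset.sum_congr rfl fun k _ => ?_
      rw [Finset.mul_sum]
      refine Finset.sum_congr rfl fun i _ => ?_
      rw [Finset.mul_sum]
    rw [h3]
    have h4 : be m * (∑ i, r i) ^ 2 = (∑ i, r i) ^ 2 - ∑ k ∈ Finset.Icc 1 m, cc k *
        (((Nat.centralBinom k : ℝ) / 4 ^ k) * (∑ i, r i) ^ 2) := by
      unfold be
      rw [sub_mul, one_mul, Finset.sum_mul]
      congr 1
      refine Finset.sum_congr rfl fun k _ => ?_
      ring
    rw [h4]
    refine sub_le_sub_left ?_ _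
    refine Finset.sum_le_sum fun k hk => ?_
    refine mul_le_mul_of_nonneg_left (fischer2 k r t) (cc_nonneg (Finset.mem_Icc.mp hk).1)
  have hlim : Filter.Tendsto (fun m => be m * (∑ i, r i) ^ 2) Filter.atTop
      (nhds ((2 / Real.pi) * (∑ i, r i) ^ 2)) := be_tendsto.mul_const _
  exact ge_of_tendsto' hlim hbound

private lemma exists_unit_orth (p q s : ℝ) :
    ∃ b0 b1 b2 : ℝ, b0 ^ 2 + b1 ^ 2 + b2 ^ 2 = 1 ∧ p * b0 + q * b1 + s * b2 = 0 := by
  by_cases hpq : p ^ 2 + q ^ 2 = 0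
  · have hp : p = 0 := by nlinarith [sq_nonneg p, sq_nonneg q]
    exact ⟨1, 0, 0, by norm_num, by rw [hp]; ring⟩
  · have hpos : 0 < p ^ 2 + q ^ 2 := lt_of_le_of_ne (by positivity) (Ne.symm hpq)
    have hs : Real.sqrt (p ^ 2 + q ^ 2) ≠ 0 := (Real.sqrt_pos.mpr hpos).ne'
    refine ⟨-q / Real.sqrt (p ^ 2 + q ^ 2), p / Real.sqrt (p ^ 2 + q ^ 2), 0, ?_, ?_⟩
    · have h2 := Real.sq_sqrt hpos.le
      rw [div_pow, div_pow, h2]
      field_simp
      ring
    · field_simp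
      ring

/-- The same in the plane orthogonal to the unit vector `u`: choose an orthonormal basis `b, c` of that plane;
`|det3 u x y| = |⟪b,x⟫ ⟪c,y⟫ - ⟪c,x⟫ ⟪b,y⟫|` and `‖x‖^2 - ⟪u,x⟫^2 = ⟪b,x⟫^2 + ⟪c,x⟫^2`. -/
theorem planar_det {ι : Type*} [Fintype ι] (u : E3) (hu : ‖u‖ = 1) (x : ι → E3) :
    ∑ i, ∑ j, |det3 u (x i) (x j)| ≤
      (2 / Real.pi) * (∑ i, Real.sqrt (‖x i‖ ^ 2 - (inner ℝ u (x i)) ^ 2)) ^ 2 := by
  have hn : ∀ v : E3, ‖v‖ ^ 2 = v 0 ^ 2 + v 1 ^ 2 + v 2 ^ 2 := by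
    intro v
    rw [EuclideanSpace.norm_sq_eq, Fin.sum_univ_three]
    simp only [Real.norm_eq_abs, sq_abs]
  have hi : ∀ v w : E3, inner ℝ v w = v 0 * w 0 + v 1 * w 1 + v 2 * w 2 := by
    intro v w
    rw [PiLp.inner_apply, Fin.sum_univ_three]
    simp only [RCLike.inner_apply, conj_trivial]
    ring
  have hu2 : u 0 ^ 2 + u 1 ^ 2 + u 2 ^ 2 = 1 := by
    rw [← hn u, hu]; norm_num
  obtain ⟨b0, b1, b2, hb, hub⟩ := exists_unit_orth (u 0) (u 1) (u 2)
  -- `c = u × b`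
  set c0 : ℝ := u 1 * b2 - u 2 * b1 with hc0
  set c1 : ℝ := u 2 * b0 - u 0 * b2 with hc1
  set c2 : ℝ := u 0 * b1 - u 1 * b0 with hc2
  have hcr0 : b1 * c2 - b2 * c1 = u 0 := by
    rw [hc1, hc2]
    linear_combination (u 0) * hb - b0 * hub
  have hcr1 : b2 * c0 - b0 * c2 = u 1 := by
    rw [hc0, hc2]
    linear_combination (u 1) * hb - b1 * hub
  have hcr2 : b0 * c1 - b1 * c0 = u 2 := by
    rw [hc0, hc1]
    linear_combination (u 2) * hb - b2 * hub
  have key := planar_ineq (fun i => b0 * x i 0 + b1 * x i 1 + b2 * x i 2)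
    (fun i => c0 * x i 0 + c1 * x i 1 + c2 * x i 2)
  have e1 : ∀ i j, (b0 * x i 0 + b1 * x i 1 + b2 * x i 2) * (c0 * x j 0 + c1 * x j 1 + c2 * x j 2) -
      (c0 * x i 0 + c1 * x i 1 + c2 * x i 2) * (b0 * x j 0 + b1 * x j 1 + b2 * x j 2) =
      det3 u (x i) (x j) := by
    intro i j
    unfold det3
    rw [← hcr0, ← hcr1, ← hcr2]
    ring
  have e2 : ∀ i, (b0 * x i 0 + b1 * x i 1 + b2 * x i 2) ^ 2 + (c0 * x i 0 + c1 * x i 1 + c2 * x i 2) ^ 2 =
      ‖x i‖ ^ 2 - (inner ℝ u (x i)) ^ 2 := by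
    intro i
    rw [hn, hi, hc0, hc1, hc2]
    have g : ((u 1 * b2 - u 2 * b1) * x i 0 + (u 2 * b0 - u 0 * b2) * x i 1 +
        (u 0 * b1 - u 1 * b0) * x i 2) ^ 2 =
        (u 0 ^ 2 + u 1 ^ 2 + u 2 ^ 2) * (b0 ^ 2 + b1 ^ 2 + b2 ^ 2) * (x i 0 ^ 2 + x i 1 ^ 2 + x i 2 ^ 2)
        + 2 * (u 0 * b0 + u 1 * b1 + u 2 * b2) * (b0 * x i 0 + b1 * x i 1 + b2 * x i 2) *
          (u 0 * x i 0 + u 1 * x i 1 + u 2 * x i 2)
        - (u 0 ^ 2 + u 1 ^ 2 + u 2 ^ 2) * (b0 * x i 0 + b1 * x i 1 + b2 * x i 2) ^ 2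
        - (b0 ^ 2 + b1 ^ 2 + b2 ^ 2) * (u 0 * x i 0 + u 1 * x i 1 + u 2 * x i 2) ^ 2
        - (x i 0 ^ 2 + x i 1 ^ 2 + x i 2 ^ 2) * (u 0 * b0 + u 1 * b1 + u 2 * b2) ^ 2 := by ring
    rw [g, hu2, hb, hub]
    ring
  simp only [e1, e2] at key
  exact key

end Pool.Agent.HVL
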