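import Mathlib
import Pool.Agent.HVL.Defs

namespace Pool.Agent.HVL

/-- `∑_{i+j=k} C(2i,i) C(2j,j) = 4^k`.  Proof: with `a_i = C(2i,i)`, `i a_i = (4i-2) a_(i-1)`
(`Nat.succ_mul_centralBinom_succ`), `S_k = ∑_{i+j=k} a_i a_j`:
`k S_k = 2 ∑ i a_i a_(k-i) = 2 ∑_j (4j+2) a_j a_(k-1-j) = 4 (k-1) S_(k-1) + 4 S_(k-1) = 4 k S_(k-1)`
(by the symmetry `i ↔ j`, `2 ∑ j a_j a_(k-1-j) = (k-1) S_(k-1)`). -/
theorem sum_central2 (k : ℕ) :
    ∑ x ∈ Finset.HasAntidiagonal.antidiagonal k, (Nat.centralBinom x.1 : ℝ) * Nat.centralBinom x.2 = 4 ^ k := by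
  induction k with
  | zero => simp
  | succ k ih =>
    have hsym : ∀ n : ℕ, ∑ x ∈ Finset.HasAntidiagonal.antidiagonal n,
        (x.1 : ℝ) * ((Nat.centralBinom x.1 : ℝ) * Nat.centralBinom x.2) =
        ∑ x ∈ Finset.HasAntidiagonal.antidiagonal n,
        (x.2 : ℝ) * ((Nat.centralBinom x.1 : ℝ) * Nat.centralBinom x.2) := by
      intro n
      rw [← Finset.Nat.sum_antidiagonal_swap]
      refine Finset.sum_congr rfl fun x _ => ?_
      simp only [Prod.fst_swap, Prod.snd_swap]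
      ring
    have htot : ∀ n : ℕ, (n : ℝ) * ∑ x ∈ Finset.HasAntidiagonal.antidiagonal n,
        ((Nat.centralBinom x.1 : ℝ) * Nat.centralBinom x.2) =
        2 * ∑ x ∈ Finset.HasAntidiagonal.antidiagonal n,
        (x.1 : ℝ) * ((Nat.centralBinom x.1 : ℝ) * Nat.centralBinom x.2) := by
      intro n
      have h1 : (n : ℝ) * ∑ x ∈ Finset.HasAntidiagonal.antidiagonal n,
          ((Nat.centralBinom x.1 : ℝ) * Nat.centralBinom x.2) =
          ∑ x ∈ Finset.HasAntidiagonal.antidiagonal n,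
          (x.1 : ℝ) * ((Nat.centralBinom x.1 : ℝ) * Nat.centralBinom x.2) +
          ∑ x ∈ Finset.HasAntidiagonal.antidiagonal n,
          (x.2 : ℝ) * ((Nat.centralBinom x.1 : ℝ) * Nat.centralBinom x.2) := by
        rw [Finset.mul_sum, ← Finset.sum_add_distrib]
        refine Finset.sum_congr rfl fun x hx => ?_
        rw [Finset.HasAntidiagonal.mem_antidiagonal] at hx
        rw [← hx]
        push_cast
        ring
      rw [h1, ← hsym n]
      ring
    have hrec : ∀ i : ℕ, ((i : ℝ) + 1) * (Nat.centralBinom (i + 1) : ℝ) =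
        2 * (2 * i + 1) * Nat.centralBinom i := by
      intro i
      have := Nat.succ_mul_centralBinom_succ i
      exact_mod_cast this
    have h2 := htot (k + 1)
    rw [Finset.Nat.sum_antidiagonal_succ (f := fun x => (x.1 : ℝ) * ((Nat.centralBinom x.1 : ℝ) * Nat.centralBinom x.2))] at h2
    have h3 : ∑ p ∈ Finset.HasAntidiagonal.antidiagonal k,
        (((p.1 + 1 : ℕ) : ℝ) * ((Nat.centralBinom (p.1 + 1) : ℝ) * Nat.centralBinom p.2)) =
        2 * ((2 * ∑ x ∈ Finset.HasAntidiagonal.antidiagonal k,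
        (x.1 : ℝ) * ((Nat.centralBinom x.1 : ℝ) * Nat.centralBinom x.2)) +
        ∑ x ∈ Finset.HasAntidiagonal.antidiagonal k,
        ((Nat.centralBinom x.1 : ℝ) * Nat.centralBinom x.2)) := by
      rw [Finset.mul_sum, ← Finset.sum_add_distrib, Finset.mul_sum]
      refine Finset.sum_congr rfl fun x _ => ?_
      have := hrec x.1
      push_cast
      calc ((x.1 : ℝ) + 1) * ((Nat.centralBinom (x.1 + 1) : ℝ) * Nat.centralBinom x.2)
          = (((x.1 : ℝ) + 1) * (Nat.centralBinom (x.1 + 1) : ℝ)) * Nat.centralBinom x.2 := by ring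
        _ = _ := by rw [this]; ring
    have h4 := htot k
    simp only [Nat.cast_zero, zero_mul, zero_add] at h2
    rw [h3, ← h4, ih] at h2
    have hk : ((k : ℝ) + 1) ≠ 0 := by positivity
    apply mul_left_cancel₀ hk
    push_cast at h2
    rw [h2]
    ring

/-- `∑_{i+j=k} 4^i C(2j,j) = (2k+1) C(2k,k)`, by induction: `T_k = 4 T_(k-1) + C(2k,k)` and
`2k C(2k,k) = 4 (2k-1) C(2k-2,k-1)`. -/
theorem sum_central3 (k : ℕ) :
    ∑ x ∈ Finset.HasAntidiagonal.antidiagonal k, (4 : ℝ) ^ x.1 * Nat.centralBinom x.2 =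
      (2 * k + 1) * Nat.centralBinom k := by
  induction k with
  | zero => simp
  | succ k ih =>
    rw [Finset.Nat.sum_antidiagonal_succ (f := fun x => (4 : ℝ) ^ x.1 * Nat.centralBinom x.2)]
    have h1 : ∑ p ∈ Finset.HasAntidiagonal.antidiagonal k,
        (4 : ℝ) ^ (p.1 + 1) * (Nat.centralBinom p.2 : ℝ) =
        4 * ∑ x ∈ Finset.HasAntidiagonal.antidiagonal k, (4 : ℝ) ^ x.1 * Nat.centralBinom x.2 := by
      rw [Finset.mul_sum]
      refine Finset.sum_congr rfl fun x _ => ?_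
      ring
    rw [h1, ih]
    have h2 : ((k : ℝ) + 1) * (Nat.centralBinom (k + 1) : ℝ) =
        2 * (2 * k + 1) * Nat.centralBinom k := by
      have := Nat.succ_mul_centralBinom_succ k
      exact_mod_cast this
    push_cast
    linear_combination (-2) * h2

/-- `∑_{b1+b2+b3=k} ∏ C(2b,b) = (2k+1) C(2k,k)`. -/
theorem sum_central_pi (k : ℕ) :
    ∑ B ∈ Finset.piAntidiag (Finset.univ : Finset (Fin 3)) k,
      ∏ c, (Nat.centralBinom (B c) : ℝ) = (2 * k + 1) * Nat.centralBinom k := by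
  rw [← sum_central3 k]
  have h1 : ∀ x ∈ Finset.HasAntidiagonal.antidiagonal k, (4 : ℝ) ^ x.1 * Nat.centralBinom x.2 =
      ∑ y ∈ Finset.HasAntidiagonal.antidiagonal x.1,
        (Nat.centralBinom y.1 : ℝ) * Nat.centralBinom y.2 * Nat.centralBinom x.2 := by
    intro x _
    rw [← sum_central2 x.1, Finset.sum_mul]
  rw [Finset.sum_congr rfl h1, Finset.sum_sigma']
  refine Finset.sum_nbij' (fun B => ⟨(B 0 + B 1, B 2), (B 0, B 1)⟩)
    (fun q => ![q.2.1, q.2.2, q.1.2]) ?_ ?_ ?_ ?_ ?_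
  · intro B hB
    rw [Finset.mem_piAntidiag] at hB
    have h := hB.1
    rw [Fin.sum_univ_three] at h
    simp only [Finset.mem_sigma, Finset.HasAntidiagonal.mem_antidiagonal]
    exact ⟨h, trivial⟩
  · intro q hq
    simp only [Finset.mem_sigma, Finset.HasAntidiagonal.mem_antidiagonal] at hq
    rw [Finset.mem_piAntidiag]
    refine ⟨?_, fun i _ => Finset.mem_univ i⟩
    rw [Fin.sum_univ_three]
    show q.2.1 + q.2.2 + q.1.2 = k
    omega
  · intro B hB
    funext i
    fin_cases i <;> simp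
  · intro q hq
    simp only [Finset.mem_sigma, Finset.HasAntidiagonal.mem_antidiagonal] at hq
    obtain ⟨⟨q1, q2⟩, ⟨q3, q4⟩⟩ := q
    simp only at hq
    obtain ⟨h1, h2⟩ := hq
    subst h2
    rfl
  · intro B hB
    rw [Fin.prod_univ_three]

/-- `(k!/B!)^2 / ((2k)!/(2B)!) C(2k,k) = ∏ C(2b,b)`. -/
theorem mult_sq (k : ℕ) (B : Fin 3 → ℕ) (hB : ∑ c, B c = k) :
    (Nat.multinomial Finset.univ B : ℝ) ^ 2 * Nat.centralBinom k =
      (Nat.multinomial Finset.univ (fun c => 2 * B c) : ℝ) * ∏ c, (Nat.centralBinom (B c) : ℝ) := by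
  have e1 : (∏ c : Fin 3, ((B c).factorial : ℝ)) * (Nat.multinomial Finset.univ B : ℝ) =
      (k.factorial : ℝ) := by
    have := Nat.multinomial_spec Finset.univ B
    rw [hB] at this
    exact_mod_cast this
  have e2 : (∏ c : Fin 3, ((2 * B c).factorial : ℝ)) *
      (Nat.multinomial Finset.univ (fun c => 2 * B c) : ℝ) = ((2 * k).factorial : ℝ) := by
    have := Nat.multinomial_spec Finset.univ (fun c : Fin 3 => 2 * B c)
    rw [← Finset.mul_sum, hB] at this
    exact_mod_cast this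
  have e3 : ∀ b : ℕ, (Nat.centralBinom b : ℝ) * ((b.factorial : ℝ) * (b.factorial : ℝ)) =
      ((2 * b).factorial : ℝ) := by
    intro b
    have h := Nat.choose_mul_factorial_mul_factorial (show b ≤ 2 * b by omega)
    have hb : 2 * b - b = b := by omega
    rw [hb] at h
    rw [Nat.centralBinom_eq_two_mul_choose]
    rw [← mul_assoc]
    exact_mod_cast h
  have e4 : (∏ c : Fin 3, ((2 * B c).factorial : ℝ)) =
      (∏ c : Fin 3, (Nat.centralBinom (B c) : ℝ)) *
        ((∏ c : Fin 3, ((B c).factorial : ℝ)) * (∏ c : Fin 3, ((B c).factorial : ℝ))) := by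
    rw [← Finset.prod_mul_distrib, ← Finset.prod_mul_distrib]
    exact Finset.prod_congr rfl fun c _ => (e3 (B c)).symm
  have hp : (∏ c : Fin 3, ((B c).factorial : ℝ)) ≠ 0 := by
    exact Finset.prod_ne_zero_iff.2 fun c _ => by exact_mod_cast (Nat.factorial_ne_zero _)
  have e5 := e3 k
  rw [← e2, e4, ← e1] at e5
  have hpp : (∏ c : Fin 3, ((B c).factorial : ℝ)) * (∏ c : Fin 3, ((B c).factorial : ℝ)) ≠ 0 :=
    mul_ne_zero hp hp
  apply mul_left_cancel₀ hpp
  linear_combination e5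

/-- FISCHER INEQUALITY in dimension 3: for unit vectors `x i = (x1,x2,x3)` and real `a i`
`(∑ a_i)^2 ≤ (2k+1) ∑_{i,j} a_i a_j (x_i . x_j)^{2k}`.
Proof.  Multinomial theorem: `(x.y)^{2k} = ∑_{|A|=2k} M_A x^A y^A`, `M_A = (2k)!/A!`, `A` = triples, and for a unit vector
`1 = (|x|^2)^k = ∑_{|B|=k} (k!/B!) x^{2B} = ∑_{|B|=k} M_{2B} g_B x^{2B}`, `g_B = (k!/B!) / M_{2B}`.
With `X_A = ∑_i a_i x_i^A`: `∑_i a_i = ∑_B M_{2B} g_B X_{2B}`, Cauchy-Schwarz:
`(∑ a_i)^2 ≤ (∑_B M_{2B} g_B^2) (∑_B M_{2B} X_{2B}^2) ≤ (∑_B M_{2B} g_B^2) (∑_A M_A X_A^2)`,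
`∑_A M_A X_A^2 = ∑_{i,j} a_i a_j (x_i.x_j)^{2k}` and
`∑_B M_{2B} g_B^2 = ∑_B (k!/B!)^2 (2B)!/(2k)! = (1/C(2k,k)) ∑_{b1+b2+b3=k} C(2b1,b1) C(2b2,b2) C(2b3,b3) = 2k+1`
by `sum_central2`, `sum_central3`. -/
theorem fischer3 {ι : Type*} [Fintype ι] (k : ℕ) (a : ι → ℝ) (x : ι → E3) (hx : ∀ i, ‖x i‖ = 1) :
    (∑ i, a i) ^ 2 ≤ (2 * k + 1) * ∑ i, ∑ j, a i * a j * (inner ℝ (x i) (x j)) ^ (2 * k) := by
  classical
  set X : (Fin 3 → ℕ) → ℝ := fun A => ∑ i, a i * ∏ c, (x i c) ^ (A c) with hX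
  -- the right side
  have hR : ∑ i, ∑ j, a i * a j * (inner ℝ (x i) (x j)) ^ (2 * k) =
      ∑ A ∈ Finset.piAntidiag (Finset.univ : Finset (Fin 3)) (2 * k),
        (Nat.multinomial Finset.univ A : ℝ) * (X A) ^ 2 := by
    have h1 : ∀ i j, a i * a j * (inner ℝ (x i) (x j)) ^ (2 * k) =
        ∑ A ∈ Finset.piAntidiag (Finset.univ : Finset (Fin 3)) (2 * k),
          (Nat.multinomial Finset.univ A : ℝ) * ((a i * ∏ c, (x i c) ^ (A c)) *
            (a j * ∏ c, (x j c) ^ (A c))) := by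
      intro i j
      have hin : (inner ℝ (x i) (x j) : ℝ) = ∑ c, x i c * x j c := by
        simp only [PiLp.inner_apply, RCLike.inner_apply, conj_trivial]
        exact Finset.sum_congr rfl fun c _ => mul_comm _ _
      rw [hin, Finset.sum_pow_eq_sum_piAntidiag, Finset.mul_sum]
      refine Finset.sum_congr rfl fun A _ => ?_
      simp only [mul_pow, Finset.prod_mul_distrib]
      ring
    calc ∑ i, ∑ j, a i * a j * (inner ℝ (x i) (x j)) ^ (2 * k)
        = ∑ i, ∑ j, ∑ A ∈ Finset.piAntidiag (Finset.univ : Finset (Fin 3)) (2 * k),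
          (Nat.multinomial Finset.univ A : ℝ) * ((a i * ∏ c, (x i c) ^ (A c)) *
            (a j * ∏ c, (x j c) ^ (A c))) :=
          Finset.sum_congr rfl fun i _ => Finset.sum_congr rfl fun j _ => h1 i j
      _ = ∑ A ∈ Finset.piAntidiag (Finset.univ : Finset (Fin 3)) (2 * k), ∑ i, ∑ j,
          (Nat.multinomial Finset.univ A : ℝ) * ((a i * ∏ c, (x i c) ^ (A c)) *
            (a j * ∏ c, (x j c) ^ (A c))) := by
          rw [Finset.sum_comm (s := Finset.piAntidiag (Finset.univ : Finset (Fin 3)) (2 * k))]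
          refine Finset.sum_congr rfl fun i _ => ?_
          rw [Finset.sum_comm]
      _ = _ := by
          refine Finset.sum_congr rfl fun A _ => ?_
          have h2 : (X A) ^ 2 = ∑ i, ∑ j, (a i * ∏ c, (x i c) ^ (A c)) *
              (a j * ∏ c, (x j c) ^ (A c)) := by
            simp only [hX]
            rw [sq, Finset.sum_mul_sum]
          rw [h2, Finset.mul_sum]
          exact Finset.sum_congr rfl fun i _ => (Finset.mul_sum _ _ _).symm
  -- the left side
  have hL : ∑ i, a i = ∑ B ∈ Finset.piAntidiag (Finset.univ : Finset (Fin 3)) k,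
      (Nat.multinomial Finset.univ B : ℝ) * X (fun c => 2 * B c) := by
    have h1 : ∀ i, a i = ∑ B ∈ Finset.piAntidiag (Finset.univ : Finset (Fin 3)) k,
        (Nat.multinomial Finset.univ B : ℝ) * (a i * ∏ c, (x i c) ^ (2 * B c)) := by
      intro i
      have hn : ∑ c, (x i c) ^ 2 = 1 := by
        have h := EuclideanSpace.norm_sq_eq (x i)
        rw [hx i] at h
        simp only [Real.norm_eq_abs, sq_abs] at h
        linarith
      have h2 : (∑ c, (x i c) ^ 2) ^ k = 1 := by rw [hn, one_pow]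
      rw [Finset.sum_pow_eq_sum_piAntidiag] at h2
      calc a i = a i * 1 := (mul_one _).symm
        _ = a i * ∑ B ∈ Finset.piAntidiag (Finset.univ : Finset (Fin 3)) k,
            (Nat.multinomial Finset.univ B : ℝ) * ∏ c, ((x i c) ^ 2) ^ (B c) := by rw [h2]
        _ = _ := by
            rw [Finset.mul_sum]
            refine Finset.sum_congr rfl fun B _ => ?_
            simp only [← pow_mul]
            ring
    calc ∑ i, a i = ∑ i, ∑ B ∈ Finset.piAntidiag (Finset.univ : Finset (Fin 3)) k,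
        (Nat.multinomial Finset.univ B : ℝ) * (a i * ∏ c, (x i c) ^ (2 * B c)) :=
          Finset.sum_congr rfl fun i _ => h1 i
      _ = ∑ B ∈ Finset.piAntidiag (Finset.univ : Finset (Fin 3)) k, ∑ i,
        (Nat.multinomial Finset.univ B : ℝ) * (a i * ∏ c, (x i c) ^ (2 * B c)) :=
          Finset.sum_comm
      _ = _ := by
          refine Finset.sum_congr rfl fun B _ => ?_
          rw [hX]
          simp only [Finset.mul_sum]
  -- positivity of the multinomials
  have hMpos : ∀ A : Fin 3 → ℕ, 0 < (Nat.multinomial Finset.univ A : ℝ) := fun A => by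
    exact_mod_cast Nat.multinomial_pos Finset.univ A
  have hC : 0 < (Nat.centralBinom k : ℝ) := by exact_mod_cast Nat.centralBinom_pos k
  -- Cauchy-Schwarz
  have hCS : (∑ B ∈ Finset.piAntidiag (Finset.univ : Finset (Fin 3)) k,
      (Nat.multinomial Finset.univ B : ℝ) * X (fun c => 2 * B c)) ^ 2 ≤
      (∑ B ∈ Finset.piAntidiag (Finset.univ : Finset (Fin 3)) k,
        (Nat.multinomial Finset.univ B : ℝ) ^ 2 /
          (Nat.multinomial Finset.univ (fun c => 2 * B c) : ℝ)) *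
      (∑ B ∈ Finset.piAntidiag (Finset.univ : Finset (Fin 3)) k,
        (Nat.multinomial Finset.univ (fun c => 2 * B c) : ℝ) * (X (fun c => 2 * B c)) ^ 2) := by
    refine Finset.sum_sq_le_sum_mul_sum_of_sq_le_mul _ ?_ ?_ ?_
    · intro B _
      exact div_nonneg (sq_nonneg _) (hMpos _).le
    · intro B _
      exact mul_nonneg (hMpos _).le (sq_nonneg _)
    · intro B _
      have := (hMpos (fun c => 2 * B c)).ne'
      apply le_of_eq
      field_simp
  have hg : (∑ B ∈ Finset.piAntidiag (Finset.univ : Finset (Fin 3)) k,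
        (Nat.multinomial Finset.univ B : ℝ) ^ 2 /
          (Nat.multinomial Finset.univ (fun c => 2 * B c) : ℝ)) = 2 * k + 1 := by
    have h1 : ∀ B ∈ Finset.piAntidiag (Finset.univ : Finset (Fin 3)) k,
        (Nat.multinomial Finset.univ B : ℝ) ^ 2 /
          (Nat.multinomial Finset.univ (fun c => 2 * B c) : ℝ) =
        (∏ c, (Nat.centralBinom (B c) : ℝ)) / Nat.centralBinom k := by
      intro B hB
      rw [Finset.mem_piAntidiag] at hB
      rw [div_eq_div_iff (hMpos _).ne' hC.ne', mult_sq k B hB.1]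
      ring
    rw [Finset.sum_congr rfl h1, ← Finset.sum_div, sum_central_pi, mul_div_assoc,
      div_self hC.ne', mul_one]
  have hsub : (∑ B ∈ Finset.piAntidiag (Finset.univ : Finset (Fin 3)) k,
        (Nat.multinomial Finset.univ (fun c => 2 * B c) : ℝ) * (X (fun c => 2 * B c)) ^ 2) ≤
      ∑ A ∈ Finset.piAntidiag (Finset.univ : Finset (Fin 3)) (2 * k),
        (Nat.multinomial Finset.univ A : ℝ) * (X A) ^ 2 := by
    have hinj : Set.InjOn (fun (B : Fin 3 → ℕ) => (fun c => 2 * B c : Fin 3 → ℕ))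
        (Finset.piAntidiag (Finset.univ : Finset (Fin 3)) k : Set (Fin 3 → ℕ)) := by
      intro B _ B' _ h
      funext c
      have := congrFun h c
      simp only at this
      omega
    rw [← Finset.sum_image (f := fun A => (Nat.multinomial Finset.univ A : ℝ) * (X A) ^ 2) hinj]
    refine Finset.sum_le_sum_of_subset_of_nonneg ?_ ?_
    · intro A hA
      rw [Finset.mem_image] at hA
      obtain ⟨B, hB, rfl⟩ := hA
      rw [Finset.mem_piAntidiag] at hB ⊢
      refine ⟨?_, fun i _ => Finset.mem_univ i⟩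
      rw [← Finset.mul_sum, hB.1]
    · intro A _ _
      exact mul_nonneg (hMpos _).le (sq_nonneg _)
  rw [hL, hR]
  refine hCS.trans ?_
  rw [hg]
  exact mul_le_mul_of_nonneg_left hsub (by positivity)

end Pool.Agent.HVL
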