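import Mathlib
import Pool.Agent.HVL.Fischer
import Pool.Agent.HVL.Sqrt

namespace Pool.Agent.HVL

open Filter Topology

private lemma Sphere_inner_sq_le {x y : E3} (hx : ‖x‖ = 1) (hy : ‖y‖ = 1) :
    (inner ℝ x y) ^ 2 ≤ 1 := by
  have h := abs_real_inner_le_norm x y
  rw [hx, hy, one_mul] at h
  rw [← sq_abs]
  have h0 := abs_nonneg (inner ℝ x y)
  nlinarith

/-- The kernel `al m - PP m (⟪x,y⟫^2)`. -/
private noncomputable def Tk (m : ℕ) (x y : E3) : ℝ := al m - PP m ((inner ℝ x y) ^ 2)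

private lemma Tk_eq (m : ℕ) (x y : E3) :
    Tk m x y = ∑ k ∈ Finset.Icc 1 m, cc k * ((inner ℝ x y) ^ (2 * k) - 1 / (2 * k + 1)) := by
  unfold Tk al PP
  have h : ∀ k ∈ Finset.Icc 1 m, cc k * ((inner ℝ x y) ^ (2 * k) - 1 / (2 * (k : ℝ) + 1)) =
      cc k * ((inner ℝ x y) ^ 2) ^ k - cc k / (2 * (k : ℝ) + 1) := by
    intro k _
    rw [← pow_mul]
    ring
  rw [Finset.sum_congr rfl h, Finset.sum_sub_distrib]
  ring

private lemma Tk_symm (m : ℕ) (x y : E3) : Tk m x y = Tk m y x := by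
  unfold Tk
  rw [real_inner_comm]

private lemma Tk_self_le (m : ℕ) {x : E3} (hx : ‖x‖ = 1) : Tk m x x ≤ al m := by
  unfold Tk
  rw [real_inner_self_eq_norm_sq, hx]
  have h := sqrt_le_PP m (x := 1) zero_le_one le_rfl
  rw [sub_self, Real.sqrt_zero] at h
  have h1 : ((1 : ℝ) ^ 2) ^ 2 = 1 := by norm_num
  rw [h1]
  linarith

private lemma Tk_psd {ι : Type*} [Fintype ι] (m : ℕ) (u : ι → E3) (hu : ∀ i, ‖u i‖ = 1)
    (a : ι → ℝ) : 0 ≤ ∑ i, ∑ j, a i * a j * Tk m (u i) (u j) := by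
  have h1 : ∑ i, ∑ j, a i * a j * Tk m (u i) (u j) =
      ∑ k ∈ Finset.Icc 1 m, cc k * ((∑ i, ∑ j, a i * a j * (inner ℝ (u i) (u j)) ^ (2 * k)) -
        (∑ i, a i) ^ 2 / (2 * k + 1)) := by
    have h2 : ∀ k ∈ Finset.Icc 1 m,
        cc k * ((∑ i, ∑ j, a i * a j * (inner ℝ (u i) (u j)) ^ (2 * k)) -
          (∑ i, a i) ^ 2 / (2 * (k : ℝ) + 1)) =
        ∑ i, ∑ j, a i * a j * (cc k * ((inner ℝ (u i) (u j)) ^ (2 * k) - 1 / (2 * (k : ℝ) + 1))) := by
      intro k _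
      have h3 : (∑ i, a i) ^ 2 / (2 * (k : ℝ) + 1) =
          ∑ i, ∑ j, a i * a j * (1 / (2 * (k : ℝ) + 1)) := by
        rw [sq, Finset.sum_mul_sum, Finset.sum_div]
        refine Finset.sum_congr rfl fun i _ => ?_
        rw [Finset.sum_div]
        refine Finset.sum_congr rfl fun j _ => ?_
        ring
      rw [h3, ← Finset.sum_sub_distrib, Finset.mul_sum]
      refine Finset.sum_congr rfl fun i _ => ?_
      rw [← Finset.sum_sub_distrib, Finset.mul_sum]
      refine Finset.sum_congr rfl fun j _ => ?_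
      ring
    rw [Finset.sum_congr rfl h2]
    have h6 : ∀ i j, a i * a j * Tk m (u i) (u j) = ∑ k ∈ Finset.Icc 1 m,
        a i * a j * (cc k * ((inner ℝ (u i) (u j)) ^ (2 * k) - 1 / (2 * (k : ℝ) + 1))) := by
      intro i j
      rw [Tk_eq, Finset.mul_sum]
    simp_rw [h6]
    calc ∑ i, ∑ j, ∑ k ∈ Finset.Icc 1 m,
          a i * a j * (cc k * ((inner ℝ (u i) (u j)) ^ (2 * k) - 1 / (2 * (k : ℝ) + 1)))
        = ∑ i, ∑ k ∈ Finset.Icc 1 m, ∑ j,
          a i * a j * (cc k * ((inner ℝ (u i) (u j)) ^ (2 * k) - 1 / (2 * (k : ℝ) + 1))) :=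
          Finset.sum_congr rfl fun i _ => Finset.sum_comm
      _ = _ := Finset.sum_comm
  rw [h1]
  refine Finset.sum_nonneg fun k hk => ?_
  have hk1 : 1 ≤ k := (Finset.mem_Icc.1 hk).1
  refine mul_nonneg (cc_nonneg hk1) ?_
  have h4 := fischer3 k a u hu
  have h5 : (0 : ℝ) < 2 * k + 1 := by positivity
  rw [sub_nonneg, div_le_iff₀ h5]
  linarith

/-- For unit vectors `u_i` and weights `w_i ≥ 0`, `M = ∑ w_i`:
`∑_i w_i (∑_j w_j sqrt(1 - ⟪u_i,u_j⟫^2))^2 ≤ (al m)^2 M^3` for every `m`.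
Proof.  `s_ij = PP m (⟪u_i,u_j⟫^2) ≥ sqrt(1 - ⟪⟫^2) ≥ 0` (`sqrt_le_PP`).  `T_ij = al m - s_ij
= ∑_{k=1}^m cc k (⟪u_i,u_j⟫^{2k} - 1/(2k+1))` is symmetric and positive semidefinite: `∑ a_i a_j T_ij ≥ 0` for all real `a`
(`fischer3`, `cc_nonneg`), and `T_ii = al m - PP m 1 ≤ al m` (`PP m 1 ≥ 0` by `sqrt_le_PP`).
`h_i = ∑_j w_j T_ij`, `E = ∑ w_i h_i ≥ 0`; Cauchy-Schwarz for the semidefinite form (discriminant of
`q(s) = form (w + s e_i) ≥ 0`): `h_i^2 ≤ T_ii E ≤ al m * E`.  `∑_j w_j s_ij = al m * M - h_i`, so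
`∑ w_i (al M - h_i)^2 = al^2 M^3 - 2 al M E + ∑ w_i h_i^2 ≤ al^2 M^3 - 2 al M E + M al E ≤ al^2 M^3`. -/
theorem sphere_m {ι : Type*} [Fintype ι] [DecidableEq ι] (m : ℕ) (u : ι → E3) (hu : ∀ i, ‖u i‖ = 1)
    (w : ι → ℝ) (hw : ∀ i, 0 ≤ w i) :
    ∑ i, w i * (∑ j, w j * Real.sqrt (1 - (inner ℝ (u i) (u j)) ^ 2)) ^ 2 ≤ al m ^ 2 * (∑ i, w i) ^ 3 := by
  set M := ∑ i, w i with hM
  have hM0 : 0 ≤ M := Finset.sum_nonneg fun i _ => hw i
  set h : ι → ℝ := fun i => ∑ j, w j * Tk m (u i) (u j) with hh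
  set E : ℝ := ∑ i, ∑ j, w i * w j * Tk m (u i) (u j) with hE
  have hE0 : 0 ≤ E := Tk_psd m u hu w
  have hal := al_nonneg m
  have hEh : E = ∑ i, w i * h i := by
    rw [hE]
    refine Finset.sum_congr rfl fun i _ => ?_
    rw [hh, Finset.mul_sum]
    refine Finset.sum_congr rfl fun j _ => ?_
    ring
  have hq : ∀ i, ∀ s : ℝ, 0 ≤ Tk m (u i) (u i) * (s * s) + (2 * h i) * s + E := by
    intro i s
    have h1 := Tk_psd m u hu (fun j => w j + s * (if j = i then 1 else 0))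
    have h2 : ∑ k, ∑ j, (w k + s * (if k = i then 1 else 0)) * (w j + s * (if j = i then 1 else 0)) *
        Tk m (u k) (u j) = Tk m (u i) (u i) * (s * s) + (2 * h i) * s + E := by
      have e1 : ∀ k j, (w k + s * (if k = i then 1 else 0)) * (w j + s * (if j = i then 1 else 0)) *
          Tk m (u k) (u j) = w k * w j * Tk m (u k) (u j) +
            (s * (w k * Tk m (u k) (u j)) * (if j = i then 1 else 0)) +
            ((if k = i then 1 else 0) * (s * (w j * Tk m (u k) (u j)))) +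
            ((if k = i then 1 else 0) * (s * s * (Tk m (u k) (u j) * (if j = i then 1 else 0)))) := by
        intro k j
        ring
      simp_rw [e1, Finset.sum_add_distrib]
      have e2 : ∑ k, ∑ j, s * (w k * Tk m (u k) (u j)) * (if j = i then (1 : ℝ) else 0) = h i * s := by
        simp only [mul_ite, mul_one, mul_zero, Finset.sum_ite_eq', Finset.mem_univ, if_true]
        rw [← Finset.mul_sum, mul_comm]
        congr 1
        rw [hh]
        refine Finset.sum_congr rfl fun k _ => ?_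
        rw [Tk_symm]
      have e3 : ∑ k, ∑ j, (if k = i then (1 : ℝ) else 0) * (s * (w j * Tk m (u k) (u j))) =
          h i * s := by
        simp_rw [← Finset.mul_sum]
        simp only [ite_mul, one_mul, zero_mul, Finset.sum_ite_eq', Finset.mem_univ, if_true]
        rw [mul_comm]
      have e4 : ∑ k, ∑ j, (if k = i then (1 : ℝ) else 0) *
          (s * s * (Tk m (u k) (u j) * (if j = i then 1 else 0))) = Tk m (u i) (u i) * (s * s) := by
        simp only [mul_ite, mul_one, mul_zero, Finset.sum_ite_eq', Finset.mem_univ, if_true, ite_mul,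
          one_mul, zero_mul]
        ring
      rw [e2, e3, e4]
      ring
    rw [h2] at h1
    exact h1
  have hsq : ∀ i, h i ^ 2 ≤ al m * E := by
    intro i
    have h1 := discrim_le_zero (hq i)
    unfold discrim at h1
    have h2 := Tk_self_le m (hu i)
    have h3 : Tk m (u i) (u i) * E ≤ al m * E := mul_le_mul_of_nonneg_right h2 hE0
    nlinarith
  have hs : ∀ i, ∑ j, w j * Real.sqrt (1 - (inner ℝ (u i) (u j)) ^ 2) ≤ al m * M - h i := by
    intro i
    have h1 : al m * M - h i = ∑ j, w j * PP m ((inner ℝ (u i) (u j)) ^ 2) := by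
      rw [hM, hh, Finset.mul_sum, ← Finset.sum_sub_distrib]
      refine Finset.sum_congr rfl fun j _ => ?_
      unfold Tk
      ring
    rw [h1]
    refine Finset.sum_le_sum fun j _ => ?_
    exact mul_le_mul_of_nonneg_left
      (sqrt_le_PP m (sq_nonneg _) (Sphere_inner_sq_le (hu i) (hu j))) (hw j)
  have hs0 : ∀ i, 0 ≤ ∑ j, w j * Real.sqrt (1 - (inner ℝ (u i) (u j)) ^ 2) := by
    intro i
    exact Finset.sum_nonneg fun j _ => mul_nonneg (hw j) (Real.sqrt_nonneg _)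
  calc ∑ i, w i * (∑ j, w j * Real.sqrt (1 - (inner ℝ (u i) (u j)) ^ 2)) ^ 2
      ≤ ∑ i, w i * (al m * M - h i) ^ 2 := by
        refine Finset.sum_le_sum fun i _ => ?_
        exact mul_le_mul_of_nonneg_left (pow_le_pow_left₀ (hs0 i) (hs i) 2) (hw i)
    _ = al m ^ 2 * M ^ 2 * M - 2 * (al m * M) * E + ∑ i, w i * h i ^ 2 := by
        have e : ∀ i, w i * (al m * M - h i) ^ 2 =
            al m ^ 2 * M ^ 2 * w i - 2 * (al m * M) * (w i * h i) + w i * h i ^ 2 := by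
          intro i
          ring
        simp_rw [e, Finset.sum_add_distrib, Finset.sum_sub_distrib, ← Finset.mul_sum]
        rw [← hM, ← hEh]
    _ ≤ al m ^ 2 * M ^ 2 * M - 2 * (al m * M) * E + M * (al m * E) := by
        have : ∑ i, w i * h i ^ 2 ≤ M * (al m * E) := by
          rw [hM, Finset.sum_mul]
          refine Finset.sum_le_sum fun i _ => ?_
          exact mul_le_mul_of_nonneg_left (hsq i) (hw i)
        linarith
    _ ≤ al m ^ 2 * M ^ 3 := by
        have h1 : 0 ≤ al m * M * E := by positivity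
        nlinarith

/-- The limit `m → ∞`. -/
theorem sphere_ineq {ι : Type*} [Fintype ι] (u : ι → E3) (hu : ∀ i, ‖u i‖ = 1)
    (w : ι → ℝ) (hw : ∀ i, 0 ≤ w i) :
    ∑ i, w i * (∑ j, w j * Real.sqrt (1 - (inner ℝ (u i) (u j)) ^ 2)) ^ 2 ≤
      (Real.pi / 4) ^ 2 * (∑ i, w i) ^ 3 := by
  classical
  have h1 : Tendsto (fun m => al m ^ 2 * (∑ i, w i) ^ 3) atTop
      (𝓝 ((Real.pi / 4) ^ 2 * (∑ i, w i) ^ 3)) := (al_tendsto.pow 2).mul_const _
  exact ge_of_tendsto' h1 fun m => sphere_m m u hu w hw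

end Pool.Agent.HVL
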