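import Mathlib
import Pool.Agent.HVL.Planar
import Pool.Agent.HVL.Sphere

namespace Pool.Agent.HVL

theorem det3_smul_left (c : ℝ) (x y z : E3) : det3 (c • x) y z = c * det3 x y z := by
  unfold det3
  simp only [PiLp.smul_apply, smul_eq_mul]
  ring

/-- `∑_{i,j,k} |det(v_i,v_j,v_k)| ≤ (π/8) (∑ ‖v_i‖)^3`.
Proof.  Let `u_i = v_i/‖v_i‖` (any unit vector if `v_i = 0`), `m_i = ‖v_i‖`.  For fixed `i`
`∑_{j,k} |det(v_i,v_j,v_k)| = m_i ∑_{j,k} |det(u_i,v_j,v_k)| ≤ m_i (2/π) (∑_j sqrt(‖v_j‖^2 - ⟪u_i,v_j⟫^2))^2`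
`= m_i (2/π) (∑_j m_j sqrt(1 - ⟪u_i,u_j⟫^2))^2` (`planar_det`), and sum over `i` with `sphere_ineq`:
`(2/π) (π/4)^2 = π/8`. -/
theorem triple_ineq {ι : Type*} [Fintype ι] (v : ι → E3) :
    ∑ i, ∑ j, ∑ k, |det3 (v i) (v j) (v k)| ≤ (Real.pi / 8) * (∑ i, ‖v i‖) ^ 3 := by
  classical
  obtain ⟨e, he⟩ : ∃ e : E3, ‖e‖ = 1 := ⟨EuclideanSpace.single 0 1, by simp⟩
  obtain ⟨u, hu, hv⟩ : ∃ u : ι → E3, (∀ i, ‖u i‖ = 1) ∧ ∀ i, v i = ‖v i‖ • u i := by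
    refine ⟨fun i => if v i = 0 then e else (‖v i‖)⁻¹ • v i, fun i => ?_, fun i => ?_⟩
    · by_cases h : v i = 0
      · simp only [h, if_true, he]
      · simp only [h, if_false, norm_smul, norm_inv, norm_norm]
        exact inv_mul_cancel₀ (norm_ne_zero_iff.mpr h)
    · by_cases h : v i = 0
      · simp only [h, if_true, norm_zero, zero_smul]
      · simp only [h, if_false]
        rw [smul_smul, mul_inv_cancel₀ (norm_ne_zero_iff.mpr h), one_smul]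
  have h1 : ∀ i, ∑ j, ∑ k, |det3 (v i) (v j) (v k)| ≤
      (2 / Real.pi) * (‖v i‖ * (∑ j, ‖v j‖ * Real.sqrt (1 - (inner ℝ (u i) (u j)) ^ 2)) ^ 2) := by
    intro i
    have h2 : ∑ j, ∑ k, |det3 (v i) (v j) (v k)| = ‖v i‖ * ∑ j, ∑ k, |det3 (u i) (v j) (v k)| := by
      rw [Finset.mul_sum]
      refine Finset.sum_congr rfl fun j _ => ?_
      rw [Finset.mul_sum]
      refine Finset.sum_congr rfl fun k _ => ?_
      have h3 : det3 (v i) (v j) (v k) = ‖v i‖ * det3 (u i) (v j) (v k) := by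
        rw [← det3_smul_left, ← hv i]
      rw [h3, abs_mul, abs_of_nonneg (norm_nonneg _)]
    have h4 := planar_det (u i) (hu i) v
    have h5 : ∀ j, Real.sqrt (‖v j‖ ^ 2 - (inner ℝ (u i) (v j)) ^ 2) =
        ‖v j‖ * Real.sqrt (1 - (inner ℝ (u i) (u j)) ^ 2) := by
      intro j
      have h6 : inner ℝ (u i) (v j) = ‖v j‖ * inner ℝ (u i) (u j) := by
        conv_lhs => rw [hv j]
        rw [real_inner_smul_right]
      rw [h6]
      have h7 : ‖v j‖ ^ 2 - (‖v j‖ * inner ℝ (u i) (u j)) ^ 2 =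
          ‖v j‖ ^ 2 * (1 - (inner ℝ (u i) (u j)) ^ 2) := by ring
      rw [h7, Real.sqrt_mul (sq_nonneg _), Real.sqrt_sq (norm_nonneg _)]
    rw [h2]
    simp only [h5] at h4
    calc ‖v i‖ * ∑ j, ∑ k, |det3 (u i) (v j) (v k)|
        ≤ ‖v i‖ * ((2 / Real.pi) *
          (∑ j, ‖v j‖ * Real.sqrt (1 - (inner ℝ (u i) (u j)) ^ 2)) ^ 2) :=
          mul_le_mul_of_nonneg_left h4 (norm_nonneg _)
      _ = _ := by ring
  have h8 := sphere_ineq u hu (fun i => ‖v i‖) (fun i => norm_nonneg _)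
  have hpi : (0 : ℝ) < Real.pi := Real.pi_pos
  calc ∑ i, ∑ j, ∑ k, |det3 (v i) (v j) (v k)|
      ≤ ∑ i, (2 / Real.pi) *
          (‖v i‖ * (∑ j, ‖v j‖ * Real.sqrt (1 - (inner ℝ (u i) (u j)) ^ 2)) ^ 2) :=
        Finset.sum_le_sum fun i _ => h1 i
    _ = (2 / Real.pi) *
          ∑ i, ‖v i‖ * (∑ j, ‖v j‖ * Real.sqrt (1 - (inner ℝ (u i) (u j)) ^ 2)) ^ 2 := by
        rw [Finset.mul_sum]
    _ ≤ (2 / Real.pi) * ((Real.pi / 4) ^ 2 * (∑ i, ‖v i‖) ^ 3) :=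
        mul_le_mul_of_nonneg_left h8 (by positivity)
    _ = (Real.pi / 8) * (∑ i, ‖v i‖) ^ 3 := by
        field_simp
        ring

end Pool.Agent.HVL
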