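import Mathlib
import Pool.Agent.HVL.Hull
import Pool.Agent.HVL.Triple

namespace Pool.Agent.HVL

open MeasureTheory Filter Topology

/-- Polygons: `hull_volume_le3` and `triple_ineq`. -/
theorem polygon_le (N : ℕ) (p : ℕ → E3) (L : ℝ)
    (hL : ∑ i ∈ Finset.range N, ‖p (i + 1) - p i‖ ≤ L) :
    volume (convexHull ℝ (p '' Set.Iic N)) ≤ ENNReal.ofReal (Real.pi / 288 * L ^ 3) := by
  refine (hull_volume_le3 N p).trans (ENNReal.ofReal_le_ofReal ?_)
  have h1 := triple_ineq (fun i : Fin N => p (i + 1) - p i)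
  have h2 : ∑ i : Fin N, ‖p (i + 1) - p i‖ = ∑ i ∈ Finset.range N, ‖p (i + 1) - p i‖ :=
    Fin.sum_univ_eq_sum_range (fun i => ‖p (i + 1) - p i‖) N
  have h3 : (0 : ℝ) ≤ ∑ i ∈ Finset.range N, ‖p (i + 1) - p i‖ :=
    Finset.sum_nonneg fun _ _ => norm_nonneg _
  have h4 : (∑ i : Fin N, ‖p (i + 1) - p i‖) ^ 3 ≤ L ^ 3 := by
    rw [h2]
    exact pow_le_pow_left₀ h3 hL 3
  have h5 : (Real.pi / 8) * (∑ i : Fin N, ‖p (i + 1) - p i‖) ^ 3 ≤ (Real.pi / 8) * L ^ 3 :=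
    mul_le_mul_of_nonneg_left h4 (by positivity)
  have h6 := h1.trans h5
  have h7 : Real.pi / 288 * L ^ 3 = (Real.pi / 8) * L ^ 3 / 36 := by ring
  rw [h7]
  exact div_le_div_of_nonneg_right h6 (by norm_num)

/-- The hull of a continuous curve is, up to measure zero, the increasing union of the hulls of the points
`γ (i/2^m)`, `0 ≤ i ≤ 2^m`: that union `C` is convex (directed), its closure contains the hull of `γ '' [0,1]`
(density of the dyadic points, continuity, the closure of a convex set is convex), `closure C ⊆ C ∪ frontier C`,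
`volume (frontier C) = 0` (`Convex.addHaar_frontier`), `volume C = ⨆ m, ..` (monotone union of sets). -/
theorem hullVolume_le_iSup (γ : ℝ → E3) (hγ : ContinuousOn γ (Set.Icc 0 1)) :
    hullVolume γ ≤ ⨆ m : ℕ,
      volume (convexHull ℝ ((fun i : ℕ => γ ((i : ℝ) / 2 ^ m)) '' Set.Iic (2 ^ m))) := by
  set s : ℕ → Set E3 := fun m =>
    convexHull ℝ ((fun i : ℕ => γ ((i : ℝ) / 2 ^ m)) '' Set.Iic (2 ^ m)) with hs
  have hmono : Monotone s := by
    apply monotone_nat_of_le_succ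
    intro m
    apply convexHull_mono
    rintro _ ⟨i, hi, rfl⟩
    refine ⟨2 * i, ?_, ?_⟩
    · have : i ≤ 2 ^ m := hi
      show 2 * i ≤ 2 ^ (m + 1)
      rw [pow_succ]
      omega
    · show γ (((2 * i : ℕ) : ℝ) / 2 ^ (m + 1)) = γ ((i : ℝ) / 2 ^ m)
      congr 1
      push_cast
      rw [pow_succ]
      field_simp
  have hC : Convex ℝ (⋃ m, s m) :=
    (hmono.directed_le).convex_iUnion fun {m} => convex_convexHull ℝ _
  have hsub : convexHull ℝ (γ '' Set.Icc (0 : ℝ) 1) ⊆ closure (⋃ m, s m) := by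
    apply convexHull_min _ hC.closure
    rintro _ ⟨t, ht, rfl⟩
    -- the dyadic approximations
    have hpow : ∀ m : ℕ, (0 : ℝ) < 2 ^ m := fun m => by positivity
    have hu0 : ∀ m : ℕ, (0 : ℝ) ≤ t * 2 ^ m := fun m => mul_nonneg ht.1 (hpow m).le
    have hle : ∀ m : ℕ, (⌊t * 2 ^ m⌋₊ : ℝ) / 2 ^ m ≤ t := by
      intro m
      rw [div_le_iff₀ (hpow m)]
      exact Nat.floor_le (hu0 m)
    have hge : ∀ m : ℕ, t - (1 / 2) ^ m ≤ (⌊t * 2 ^ m⌋₊ : ℝ) / 2 ^ m := by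
      intro m
      rw [le_div_iff₀ (hpow m), sub_mul]
      have h1 := Nat.lt_floor_add_one (t * 2 ^ m)
      have h2 : ((1 : ℝ) / 2) ^ m * 2 ^ m = 1 := by
        rw [← mul_pow]; norm_num
      rw [h2]
      linarith
    have hlim : Tendsto (fun m : ℕ => (⌊t * 2 ^ m⌋₊ : ℝ) / 2 ^ m) atTop (𝓝 t) := by
      have e1 : Tendsto (fun m : ℕ => t - ((1 : ℝ) / 2) ^ m) atTop (𝓝 (t - 0)) :=
        tendsto_const_nhds.sub
          (tendsto_pow_atTop_nhds_zero_of_lt_one (by norm_num) (by norm_num))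
      rw [sub_zero] at e1
      exact tendsto_of_tendsto_of_tendsto_of_le_of_le e1 tendsto_const_nhds hge hle
    have hin : ∀ m : ℕ, (⌊t * 2 ^ m⌋₊ : ℝ) / 2 ^ m ∈ Set.Icc (0 : ℝ) 1 := fun m =>
      ⟨div_nonneg (Nat.cast_nonneg _) (hpow m).le, (hle m).trans ht.2⟩
    have hlim2 : Tendsto (fun m : ℕ => γ ((⌊t * 2 ^ m⌋₊ : ℝ) / 2 ^ m)) atTop (𝓝 (γ t)) := by
      have := (hγ t ht)
      exact this.tendsto.comp (tendsto_nhdsWithin_iff.2 ⟨hlim, Eventually.of_forall hin⟩)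
    refine mem_closure_of_tendsto hlim2 (Eventually.of_forall fun m => ?_)
    refine Set.mem_iUnion.2 ⟨m, subset_convexHull ℝ _ ⟨⌊t * 2 ^ m⌋₊, ?_, rfl⟩⟩
    show ⌊t * 2 ^ m⌋₊ ≤ 2 ^ m
    have h1 : t * 2 ^ m ≤ ((2 ^ m : ℕ) : ℝ) := by
      push_cast
      have := mul_le_mul_of_nonneg_right ht.2 (hpow m).le
      linarith
    exact_mod_cast Nat.floor_le_of_le h1
  calc hullVolume γ = volume (convexHull ℝ (γ '' Set.Icc (0 : ℝ) 1)) := rfl
    _ ≤ volume (closure (⋃ m, s m)) := measure_mono hsub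
    _ ≤ volume (⋃ m, s m) + volume (frontier (⋃ m, s m)) := by
        rw [closure_eq_self_union_frontier]
        exact measure_union_le _ _
    _ = volume (⋃ m, s m) := by
        rw [hC.addHaar_frontier volume, add_zero]
    _ = ⨆ m, volume (s m) := hmono.measure_iUnion

/-- `∑ ‖γ((i+1)/N) - γ(i/N)‖ ≤ eVariationOn` (`eVariationOn.sum_le`), here in real form. -/
theorem sum_norm_le (γ : ℝ → E3) (h : eVariationOn γ (Set.Icc 0 1) ≤ 1) (N : ℕ) (hN : 0 < N) :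
    ∑ i ∈ Finset.range N, ‖γ (((i + 1 : ℕ) : ℝ) / N) - γ ((i : ℝ) / N)‖ ≤ 1 := by
  have hN' : (0 : ℝ) < N := by exact_mod_cast hN
  have h1 := eVariationOn.sum_le_of_monotoneOn_Iic (f := γ) (s := Set.Icc (0 : ℝ) 1) (n := N)
    (u := fun i : ℕ => (i : ℝ) / N)
    (fun i _ j _ hij => div_le_div_of_nonneg_right (by exact_mod_cast hij) hN'.le)
    (fun i hi => ⟨div_nonneg (Nat.cast_nonneg _) hN'.le, by
      rw [div_le_one hN']; exact_mod_cast hi⟩)
  have h2 : ∑ i ∈ Finset.range N, edist (γ (((i + 1 : ℕ) : ℝ) / N)) (γ ((i : ℝ) / N)) =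
      ENNReal.ofReal (∑ i ∈ Finset.range N, ‖γ (((i + 1 : ℕ) : ℝ) / N) - γ ((i : ℝ) / N)‖) := by
    rw [ENNReal.ofReal_sum_of_nonneg fun _ _ => norm_nonneg _]
    refine Finset.sum_congr rfl fun i _ => ?_
    rw [edist_dist, dist_eq_norm]
  have h3 := (h2 ▸ h1).trans h
  exact ENNReal.ofReal_le_one.1 h3

theorem hullVolume_le (γ : ℝ → E3) (hγ : ContinuousOn γ (Set.Icc 0 1))
    (h : eVariationOn γ (Set.Icc 0 1) ≤ 1) : hullVolume γ ≤ ENNReal.ofReal (Real.pi / 288) := by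
  refine (hullVolume_le_iSup γ hγ).trans (iSup_le fun m => ?_)
  have h1 := sum_norm_le γ h (2 ^ m) (by positivity)
  push_cast at h1
  have h2 := polygon_le (2 ^ m) (fun i : ℕ => γ ((i : ℝ) / 2 ^ m)) 1 (by
    push_cast
    exact h1)
  rw [one_pow, mul_one] at h2
  exact h2

end Pool.Agent.HVL
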