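import Mathlib
import Pool.Agent.HVL.Defs

namespace Pool.Agent.HVL

open MeasureTheory

open scoped BoundedContinuousFunction Topology Pointwise

private theorem volume_closure_convex {s : Set E3} (hs : Convex ℝ s) :
    volume (closure s) = volume s := by
  refine le_antisymm ?_ (measure_mono subset_closure)
  calc volume (closure s) ≤ volume (s ∪ frontier s) :=
        measure_mono (by rw [closure_eq_self_union_frontier])
    _ ≤ volume s + volume (frontier s) := measure_union_le _ _
    _ = volume s := by rw [hs.addHaar_frontier volume]; simp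

private noncomputable def vol (g : Set.Icc (0 : ℝ) 1 →ᵇ E3) : ENNReal :=
  volume (convexHull ℝ (Set.range g))

private theorem usc_vol : UpperSemicontinuous vol := by
  intro g c hc
  have hb : Bornology.IsBounded (convexHull ℝ (Set.range g)) :=
    isBounded_convexHull.2 (isCompact_range g.continuous).isBounded
  have ht : Filter.Tendsto (fun r => volume (Metric.cthickening r (convexHull ℝ (Set.range g))))
      (𝓝 0) (𝓝 (volume (closure (convexHull ℝ (Set.range g))))) :=
    tendsto_measure_cthickening ⟨1, one_pos, hb.cthickening.measure_lt_top.ne⟩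
  rw [volume_closure_convex (convex_convexHull ℝ _)] at ht
  have h1 : ∀ᶠ r in 𝓝 (0 : ℝ),
      volume (Metric.cthickening r (convexHull ℝ (Set.range g))) < c :=
    ht.eventually (Iio_mem_nhds hc)
  obtain ⟨ε, hε, h⟩ := Metric.eventually_nhds_iff.1 h1
  have h2 : volume (Metric.cthickening (ε / 2) (convexHull ℝ (Set.range g))) < c := by
    apply h
    rw [Real.dist_eq, sub_zero, abs_of_pos (half_pos hε)]
    linarith
  filter_upwards [Metric.ball_mem_nhds g (half_pos hε)] with f hf
  refine lt_of_le_of_lt (measure_mono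
    (convexHull_min ?_ ((convex_convexHull ℝ _).cthickening _))) h2
  rintro _ ⟨x, rfl⟩
  exact Metric.mem_cthickening_of_dist_le _ (g x) _ _ (subset_convexHull ℝ _ ⟨x, rfl⟩)
    ((BoundedContinuousFunction.dist_coe_le_dist x).trans (le_of_lt hf))

private def lipSet : Set (Set.Icc (0 : ℝ) 1 →ᵇ E3) :=
  {g | (∀ x y, dist (g x) (g y) ≤ dist x y) ∧ g ⟨0, by simp⟩ = 0}

private theorem isCompact_lipSet : IsCompact lipSet := by
  refine BoundedContinuousFunction.arzela_ascoli₂ (Metric.closedBall (0 : E3) 1)
    (isCompact_closedBall 0 1) lipSet ?_ ?_ ?_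
  · refine IsClosed.inter ?_ ?_
    · change IsClosed {g : Set.Icc (0 : ℝ) 1 →ᵇ E3 | ∀ x y, dist (g x) (g y) ≤ dist x y}
      rw [Set.ofPred_forall]
      refine isClosed_iInter fun x => ?_
      rw [Set.ofPred_forall]
      refine isClosed_iInter fun y => ?_
      exact isClosed_le ((continuous_eval_const x).dist (continuous_eval_const y))
        continuous_const
    · exact isClosed_eq (continuous_eval_const _) continuous_const
  · intro f x hf
    rw [Metric.mem_closedBall]
    calc dist (f x) 0 = dist (f x) (f ⟨0, by simp⟩) := by rw [hf.2]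
      _ ≤ dist x ⟨0, by simp⟩ := hf.1 _ _
      _ = |(x : ℝ) - 0| := rfl
      _ ≤ 1 := by rw [sub_zero, abs_of_nonneg x.2.1]; exact x.2.2
  · refine (LipschitzWith.uniformEquicontinuous _ 1 fun g => ?_).equicontinuous
    exact LipschitzWith.of_dist_le_mul fun x y => by
      simpa using g.2.1 x y

/-- COMPACTNESS: the volume of the hull attains its maximum on the 1-Lipschitz maps (on `[0,1]`).
Proof.  Restrict to `g 0 = 0` (translate).  The set `A` of the 1-Lipschitz `g : C([0,1], E3)` (or bounded continuous functions)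
with `g 0 = 0` is compact (`BoundedContinuousFunction.arzela_ascoli₂`; closed, values in the closed unit ball,
equicontinuous) and nonempty; the volume is upper semicontinuous: if `g_n → g` uniformly then for every `ε > 0` eventually
`g_n [0,1] ⊆ cthickening ε (hull of g [0,1])`, which is convex, so `volume (hull g_n) ≤ volume (cthickening ε (hull g))`,
and `volume (cthickening ε K) → volume K` (`tendsto_measure_cthickening_of_isCompact`).  Extend the maximiser to `ℝ` by
`Set.IccExtend` (still 1-Lipschitz). -/
theorem exists_max_lipschitz : ∃ g : ℝ → E3, LipschitzWith 1 g ∧ ∀ f : ℝ → E3, LipschitzWith 1 f →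
    volume (convexHull ℝ (f '' Set.Icc (0 : ℝ) 1)) ≤ volume (convexHull ℝ (g '' Set.Icc (0 : ℝ) 1)) := by
  have hne : (lipSet).Nonempty := ⟨0, by
    refine ⟨fun x y => ?_, rfl⟩
    simp [dist_nonneg]⟩
  obtain ⟨g0, hg0, hmax⟩ := UpperSemicontinuousOn.exists_isMaxOn hne isCompact_lipSet
    (usc_vol.upperSemicontinuousOn lipSet)
  refine ⟨fun t => g0 (Set.projIcc 0 1 zero_le_one t), ?_, ?_⟩
  · have h1 : LipschitzWith 1 (g0 : Set.Icc (0 : ℝ) 1 → E3) :=
      LipschitzWith.of_dist_le_mul fun x y => by simpa using hg0.1 x y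
    have h2 := h1.comp (LipschitzWith.projIcc (a := (0 : ℝ)) (b := 1) zero_le_one)
    rw [mul_one] at h2
    exact h2
  · intro f hf
    have hrange : (fun t => g0 (Set.projIcc 0 1 zero_le_one t)) '' Set.Icc (0 : ℝ) 1 =
        Set.range g0 := by
      ext z
      constructor
      · rintro ⟨t, _, rfl⟩
        exact ⟨_, rfl⟩
      · rintro ⟨t, rfl⟩
        exact ⟨t, t.2, by simp⟩
    rw [hrange]
    let f' : Set.Icc (0 : ℝ) 1 →ᵇ E3 :=
      BoundedContinuousFunction.mkOfCompact ⟨fun x => f x - f 0, by
        have := hf.continuous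
        fun_prop⟩
    have hf' : f' ∈ lipSet := by
      refine ⟨fun x y => ?_, ?_⟩
      · have := hf.dist_le_mul (x : ℝ) (y : ℝ)
        change dist (f x - f 0) (f y - f 0) ≤ dist x y
        rw [dist_sub_right, Subtype.dist_eq]
        simpa using this
      · change f 0 - f 0 = 0
        simp
    have hle : vol f' ≤ vol g0 := hmax hf'
    have hEq : f '' Set.Icc (0 : ℝ) 1 = f 0 +ᵥ Set.range f' := by
      ext z
      constructor
      · rintro ⟨t, ht, rfl⟩
        refine ⟨f' ⟨t, ht⟩, ⟨_, rfl⟩, ?_⟩
        change f 0 + (f t - f 0) = f t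
        abel
      · rintro ⟨_, ⟨t, rfl⟩, rfl⟩
        refine ⟨t, t.2, ?_⟩
        change f t = f 0 + (f t - f 0)
        abel
    rw [hEq, convexHull_vadd, measure_vadd]
    exact hle

end Pool.Agent.HVL
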