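import Mathlib
import Pool.Agent.HVL.Grow

namespace Pool.Agent.HVL

open MeasureTheory

/-- Every point of the circle of radius `r` has an angle `2 π t`, `0 ≤ t ≤ 1`. -/
private theorem Helix_angle {r : ℝ} (hr : 0 < r) {x y : ℝ} (h : x ^ 2 + y ^ 2 = r ^ 2) :
    ∃ t ∈ Set.Icc (0 : ℝ) 1, x = r * Real.cos (2 * Real.pi * t) ∧
      y = r * Real.sin (2 * Real.pi * t) := by
  set z : ℂ := ⟨x, y⟩ with hz
  have hn : ‖z‖ = r := by
    rw [Complex.norm_def, Complex.normSq_apply]
    have : z.re * z.re + z.im * z.im = r ^ 2 := by rw [← h, hz]; ring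
    rw [this, Real.sqrt_sq hr.le]
  have hc : x = r * Real.cos z.arg := by
    have := Complex.norm_mul_cos_arg z
    rw [hn] at this
    exact this.symm
  have hs : y = r * Real.sin z.arg := by
    have := Complex.norm_mul_sin_arg z
    rw [hn] at this
    exact this.symm
  have hpi := Real.pi_pos
  have h1 := Complex.neg_pi_lt_arg z
  have h2 := Complex.arg_le_pi z
  by_cases h0 : 0 ≤ z.arg
  · refine ⟨z.arg / (2 * Real.pi), ⟨by positivity, ?_⟩, ?_, ?_⟩
    · rw [div_le_one (by positivity)]
      linarith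
    · rw [mul_div_cancel₀ _ (by positivity)]
      exact hc
    · rw [mul_div_cancel₀ _ (by positivity)]
      exact hs
  · push Not at h0
    refine ⟨(z.arg + 2 * Real.pi) / (2 * Real.pi), ⟨?_, ?_⟩, ?_, ?_⟩
    · exact div_nonneg (by linarith) (by positivity)
    · rw [div_le_one (by positivity)]
      linarith
    · rw [mul_div_cancel₀ _ (by positivity), Real.cos_add_two_pi]
      exact hc
    · rw [mul_div_cancel₀ _ (by positivity), Real.sin_add_two_pi]
      exact hs

/-- Every point of the closed disc of radius `r` is a convex combination `(1-m) z' + m y0` of a point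
`z' = (r cos t, r sin t)`, `0 ≤ t ≤ 2π`, of the circle and `y0 = (r,0)`: for `z ≠ y0` the ray from `y0` through `z` leaves
the disc at `z' = y0 + s (z - y0)`, `s = 2⟪y0, y0 - z⟫/|z-y0|^2 ≥ 1`, `m = 1 - 1/s`. -/
theorem disc_point {r : ℝ} (hr : 0 < r) {a b : ℝ} (h : a ^ 2 + b ^ 2 ≤ r ^ 2) :
    ∃ t ∈ Set.Icc (0 : ℝ) 1, ∃ m ∈ Set.Icc (0 : ℝ) 1,
      a = (1 - m) * (r * Real.cos (2 * Real.pi * t)) + m * r ∧
      b = (1 - m) * (r * Real.sin (2 * Real.pi * t)) := by
  by_cases h0 : (a - r) ^ 2 + b ^ 2 = 0
  · have ha : a = r := by nlinarith [sq_nonneg (a - r), sq_nonneg b]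
    have hb : b = 0 := by nlinarith [sq_nonneg (a - r), sq_nonneg b]
    refine ⟨0, ⟨le_rfl, zero_le_one⟩, 0, ⟨le_rfl, zero_le_one⟩, ?_, ?_⟩
    · simp [ha]
    · simp [hb]
  · have hD : 0 < (a - r) ^ 2 + b ^ 2 := lt_of_le_of_ne (by positivity) (Ne.symm h0)
    set Dd : ℝ := (a - r) ^ 2 + b ^ 2 with hDd
    set s : ℝ := 2 * r * (r - a) / Dd with hs
    have hsD : s * Dd = 2 * r * (r - a) := by rw [hs, div_mul_cancel₀ _ hD.ne']
    have hs1 : 1 ≤ s := by
      rw [hs, le_div_iff₀ hD, hDd]
      nlinarith
    have hs0 : 0 < s := lt_of_lt_of_le one_pos hs1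
    have hcirc : (r + s * (a - r)) ^ 2 + (s * b) ^ 2 = r ^ 2 := by
      have : (r + s * (a - r)) ^ 2 + (s * b) ^ 2 = r ^ 2 + s * (2 * r * (a - r) + s * Dd) := by
        rw [hDd]; ring
      rw [this, hsD]
      ring
    obtain ⟨t, ht, hx, hy⟩ := Helix_angle hr hcirc
    refine ⟨t, ht, 1 - 1 / s, ⟨?_, ?_⟩, ?_, ?_⟩
    · have : 1 / s ≤ 1 := by rw [div_le_one hs0]; exact hs1
      linarith
    · have : 0 < 1 / s := by positivity
      linarith
    · rw [← hx]
      field_simp
      ring
    · rw [← hy]
      field_simp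
      ring

private theorem Helix_disc (r : ℝ) (hr : 0 < r) :
    volume {z : Fin 2 → ℝ | z 0 ^ 2 + z 1 ^ 2 ≤ r ^ 2} = ENNReal.ofReal (Real.pi * r ^ 2) := by
  have h1 := Complex.volume_preserving_equiv_pi.measure_preimage_equiv
    {z : Fin 2 → ℝ | z 0 ^ 2 + z 1 ^ 2 ≤ r ^ 2}
  rw [← h1]
  have h2 : (Complex.measurableEquivPi ⁻¹' {z : Fin 2 → ℝ | z 0 ^ 2 + z 1 ^ 2 ≤ r ^ 2}) =
      Metric.closedBall (0 : ℂ) r := by
    ext z
    simp only [Set.mem_preimage, Complex.measurableEquivPi_apply, Set.mem_ofPred_eq,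
      Matrix.cons_val_zero, Matrix.cons_val_one, Metric.mem_closedBall, dist_zero_right]
    rw [← sq_le_sq₀ (norm_nonneg z) hr.le, Complex.sq_norm, Complex.normSq_apply]
    constructor
    · intro h; nlinarith
    · intro h; nlinarith
  rw [h2, Complex.volume_closedBall, mul_comm, ENNReal.ofReal_mul Real.pi_pos.le,
    ENNReal.ofReal_pow hr.le]
  congr 1
  rw [← NNReal.coe_real_pi, ENNReal.ofReal_coe_nnreal]

/-- Volume of the hull of one turn of the helix in `ℝ × ℝ^2` (height first).
Let `D` be the closed disc of radius `r` in `Fin 2 → ℝ` (`volume D = π r^2`), `y0 = ![r,0]`, `E = growthSet D y0`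
(`volume E = π r^2/3`, `growthSet_volume`), `C` the hull.  For every `y`: `h * volume E_y ≤ volume C_y` (fibres over `y`):
for `l ∈ E_y`, `y = (1-l) z + l y0`, `z ∈ D`; by `disc_point` `y = (1-l') z' + l' y0`, `l' ≥ l`, `z'` on the circle at the
parameter `t`; then `C_y` contains the segment from `(1-l') h t` (point of `[γ(t),γ(0)]`) to `(1-l') h t + l' h` (point of
`[γ(t),γ(1)]`), of length `l' h ≥ l h`; `E_y ⊆ [0, sup E_y]`.  Integrate over `y` (`Measure.prod_apply_symm`; the hull of a
compact set in finite dimension is compact, so measurable). -/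
theorem helix_volume (r h : ℝ) (hr : 0 < r) (hh : 0 < h) :
    ENNReal.ofReal (Real.pi / 3 * r ^ 2 * h) ≤ volume (convexHull ℝ
      ((fun t : ℝ => (h * t, ![r * Real.cos (2 * Real.pi * t), r * Real.sin (2 * Real.pi * t)]) : ℝ → ℝ × (Fin 2 → ℝ)) ''
        Set.Icc (0 : ℝ) 1)) := by
  set γ : ℝ → ℝ × (Fin 2 → ℝ) := fun t : ℝ =>
    (h * t, ![r * Real.cos (2 * Real.pi * t), r * Real.sin (2 * Real.pi * t)]) with hγ
  set C : Set (ℝ × (Fin 2 → ℝ)) := convexHull ℝ (γ '' Set.Icc (0 : ℝ) 1) with hC
  have hCc : Convex ℝ C := convex_convexHull ℝ _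
  have hmem : ∀ t ∈ Set.Icc (0 : ℝ) 1, γ t ∈ C := fun t ht =>
    subset_convexHull ℝ _ ⟨t, ht, rfl⟩
  -- measurable version
  have hHaar : (volume : Measure (ℝ × (Fin 2 → ℝ))).IsAddHaarMeasure :=
    MeasureTheory.Measure.prod.instIsAddHaarMeasure _ _
  have hvol : volume (closure C) = volume C := by
    refine le_antisymm ?_ (measure_mono subset_closure)
    calc volume (closure C) ≤ volume (C ∪ frontier C) := by
          refine measure_mono ?_
          intro x hx
          by_cases hxC : x ∈ C
          · exact Or.inl hxC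
          · refine Or.inr ⟨hx, fun hi => hxC (interior_subset hi)⟩
      _ ≤ volume C + volume (frontier C) := measure_union_le _ _
      _ = volume C := by rw [hCc.addHaar_frontier volume, add_zero]
  set D : Set (Fin 2 → ℝ) := {z | z 0 ^ 2 + z 1 ^ 2 ≤ r ^ 2} with hD
  have hDc : IsCompact D := by
    refine Metric.isCompact_of_isClosed_isBounded ?_ ?_
    · exact isClosed_le (by fun_prop) (by fun_prop)
    · refine (Metric.isBounded_closedBall (x := (0 : Fin 2 → ℝ)) (r := r)).subset ?_
      intro z hz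
      rw [hD, Set.mem_ofPred_eq] at hz
      rw [Metric.mem_closedBall, dist_zero_right, pi_norm_le_iff_of_nonneg hr.le]
      intro i
      rw [Real.norm_eq_abs]
      fin_cases i
      · exact abs_le_of_sq_le_sq (by simp; nlinarith [sq_nonneg (z 1)]) hr.le
      · exact abs_le_of_sq_le_sq (by simp; nlinarith [sq_nonneg (z 0)]) hr.le
  set y0 : Fin 2 → ℝ := ![r, 0] with hy0
  have hE := growthSet_volume hDc y0
  have hEm : MeasurableSet (growthSet D y0) := (growthSet_compact hDc y0).isClosed.measurableSet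
  -- the fibre inequality
  have hfib : ∀ y : Fin 2 → ℝ,
      ENNReal.ofReal h * volume ((fun l : ℝ => (l, y)) ⁻¹' (growthSet D y0)) ≤
        volume ((fun l : ℝ => (l, y)) ⁻¹' (closure C)) := by
    intro y
    by_cases htop : volume ((fun l : ℝ => (l, y)) ⁻¹' (closure C)) = ⊤
    · rw [htop]; exact le_top
    set V : ℝ := (volume ((fun l : ℝ => (l, y)) ⁻¹' (closure C))).toReal with hV
    have hVn : 0 ≤ V := ENNReal.toReal_nonneg
    have hVe : volume ((fun l : ℝ => (l, y)) ⁻¹' (closure C)) = ENNReal.ofReal V := by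
      rw [hV, ENNReal.ofReal_toReal htop]
    have hsub : (fun l : ℝ => (l, y)) ⁻¹' (growthSet D y0) ⊆ Set.Icc 0 (V / h) := by
      intro l hl
      obtain ⟨⟨hl0, hl1⟩, z, hz, hyz⟩ := hl
      refine ⟨hl0, ?_⟩
      obtain ⟨t, ht, m, hm, ha, hb⟩ := disc_point hr hz
      set l' : ℝ := l + (1 - l) * m with hl'
      have hl'0 : 0 ≤ l' := by
        have : 0 ≤ (1 - l) * m := mul_nonneg (by simpa using hl1) hm.1
        have h0 : 0 ≤ l := hl0
        linarith
      have hl'1 : l' ≤ 1 := by
        have h1 : l ≤ 1 := hl1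
        have : (1 - l) * m ≤ (1 - l) * 1 := mul_le_mul_of_nonneg_left hm.2 (by linarith)
        linarith
      have hll' : l ≤ l' := by
        have h1 : l ≤ 1 := hl1
        have : 0 ≤ (1 - l) * m := mul_nonneg (by linarith) hm.1
        linarith
      have hyeq : y = (1 - l') • ![r * Real.cos (2 * Real.pi * t), r * Real.sin (2 * Real.pi * t)]
          + l' • y0 := by
        have hyz' : y = (1 - l) • z + l • y0 := hyz
        rw [hyz']
        ext i
        fin_cases i
        · simp only [hy0, Pi.add_apply, Pi.smul_apply, smul_eq_mul, Fin.zero_eta,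
            Matrix.cons_val_zero, hl']
          rw [ha]
          ring
        · simp only [hy0, Pi.add_apply, Pi.smul_apply, smul_eq_mul, Fin.mk_one,
            Matrix.cons_val_one, Matrix.cons_val_fin_one, hl']
          rw [hb]
          ring
      have hseg : Set.Icc ((1 - l') * (h * t)) ((1 - l') * (h * t) + l' * h) ⊆
          (fun l : ℝ => (l, y)) ⁻¹' (closure C) := by
        intro x hx
        refine subset_closure ?_
        have hg0 : γ 0 = (0, y0) := by
          simp [hγ, hy0]
        have hg1 : γ 1 = (h, y0) := by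
          simp [hγ, hy0]
        have hgt := hmem t ht
        have h0 := hmem 0 ⟨le_rfl, zero_le_one⟩
        have h1 := hmem 1 ⟨zero_le_one, le_rfl⟩
        rw [hg0] at h0
        rw [hg1] at h1
        -- the point over `y0`
        by_cases hl'z : l' = 0
        · have hxe : x = h * t := by
            have h2 := hx.1
            have h3 := hx.2
            rw [hl'z] at h2 h3
            linarith
          have : ((x, y) : ℝ × (Fin 2 → ℝ)) = γ t := by
            rw [hxe, hyeq, hl'z]
            simp [hγ]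
          change (x, y) ∈ C
          rw [this]
          exact hgt
        · have hl'p : 0 < l' := lt_of_le_of_ne hl'0 (Ne.symm hl'z)
          set θ : ℝ := (x - (1 - l') * (h * t)) / (l' * h) with hθ
          have hlh : 0 < l' * h := mul_pos hl'p hh
          have hθ0 : 0 ≤ θ := div_nonneg (by linarith [hx.1]) hlh.le
          have hθ1 : θ ≤ 1 := by
            rw [hθ, div_le_one hlh]
            linarith [hx.2]
          have hθe : θ * (l' * h) = x - (1 - l') * (h * t) := by
            rw [hθ, div_mul_cancel₀ _ hlh.ne']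
          have hq : ((θ * h, y0) : ℝ × (Fin 2 → ℝ)) ∈ C := by
            have := hCc h0 h1 (sub_nonneg.mpr hθ1) hθ0 (by ring)
            have he : (1 - θ) • ((0 : ℝ), y0) + θ • (h, y0) = ((θ * h, y0) : ℝ × (Fin 2 → ℝ)) := by
              ext i
              · simp
              · simp
                ring
            rwa [he] at this
          have := hCc hgt hq (sub_nonneg.mpr hl'1) hl'0 (by ring)
          have he : (1 - l') • γ t + l' • ((θ * h, y0) : ℝ × (Fin 2 → ℝ)) = (x, y) := by
            rw [hyeq]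
            refine Prod.ext ?_ ?_
            · simp only [hγ, Prod.smul_mk, Prod.mk_add_mk, smul_eq_mul]
              linarith
            · simp only [hγ, Prod.smul_mk, Prod.mk_add_mk]
          rw [he] at this
          exact this
      have hle : ENNReal.ofReal (l' * h) ≤ ENNReal.ofReal V := by
        rw [← hVe]
        refine le_trans ?_ (measure_mono hseg)
        rw [Real.volume_Icc]
        refine ENNReal.ofReal_le_ofReal ?_
        linarith
      have hle' : l' * h ≤ V := (ENNReal.ofReal_le_ofReal_iff hVn).mp hle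
      change l ≤ V / h
      rw [le_div_iff₀ hh]
      have : l * h ≤ l' * h := mul_le_mul_of_nonneg_right hll' hh.le
      linarith
    calc ENNReal.ofReal h * volume ((fun l : ℝ => (l, y)) ⁻¹' (growthSet D y0))
        ≤ ENNReal.ofReal h * volume (Set.Icc 0 (V / h)) := by
          gcongr
      _ = ENNReal.ofReal V := by
          rw [Real.volume_Icc, ← ENNReal.ofReal_mul hh.le]
          congr 1
          field_simp
          ring
      _ = _ := hVe.symm
  have hEint : volume (growthSet D y0) =
      ∫⁻ y : Fin 2 → ℝ, volume ((fun l : ℝ => (l, y)) ⁻¹' (growthSet D y0)) :=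
    Measure.prod_apply_symm hEm
  have hCint : volume (closure C) =
      ∫⁻ y : Fin 2 → ℝ, volume ((fun l : ℝ => (l, y)) ⁻¹' (closure C)) :=
    Measure.prod_apply_symm isClosed_closure.measurableSet
  have hfin : ENNReal.ofReal h * volume (growthSet D y0) ≤ volume (closure C) := by
    rw [hEint, hCint, ← lintegral_const_mul']
    · exact lintegral_mono hfib
    · exact ENNReal.ofReal_ne_top
  rw [← hvol]
  refine le_trans (le_of_eq ?_) hfin
  rw [hE, Helix_disc r hr, ← ENNReal.ofReal_mul (by positivity), ← ENNReal.ofReal_mul hh.le]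
  congr 1
  push_cast
  ring

end Pool.Agent.HVL
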