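import Mathlib
import Pool.Agent.HVL.Helix

namespace Pool.Agent.HVL

open MeasureTheory

/-- The linear map `x ↦ (x 2, (x 0, x 1))`. -/
private noncomputable def helixPhi : E3 →ₗ[ℝ] ℝ × (Fin 2 → ℝ) where
  toFun x := (x 2, ![x 0, x 1])
  map_add' x y := by
    ext i
    · simp
    · fin_cases i <;> simp
  map_smul' c x := by
    ext i
    · simp
    · fin_cases i <;> simp

private theorem helixPhi_injective : Function.Injective helixPhi := by
  intro x y hxy
  have h1 : x 2 = y 2 := congrArg Prod.fst hxy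
  have h2 : (![x 0, x 1] : Fin 2 → ℝ) = ![y 0, y 1] := congrArg Prod.snd hxy
  have h3 : x 0 = y 0 := by simpa using congrFun h2 0
  have h4 : x 1 = y 1 := by simpa using congrFun h2 1
  ext i
  fin_cases i
  · exact h3
  · exact h4
  · exact h1

private noncomputable def helixEquiv : E3 ≃ᵐ ℝ × (Fin 2 → ℝ) :=
  (MeasurableEquiv.toLp 2 (Fin 3 → ℝ)).symm.trans
    (MeasurableEquiv.piFinSuccAbove (fun _ : Fin 3 => ℝ) 2)

private theorem helixEquiv_eq : (helixEquiv : E3 → ℝ × (Fin 2 → ℝ)) = helixPhi := by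
  funext x
  apply Prod.ext
  · rfl
  · funext j
    fin_cases j <;> rfl

private theorem helixEquiv_preserving : MeasurePreserving helixEquiv volume volume := by
  have h1 : MeasurePreserving (@WithLp.ofLp 2 (Fin 3 → ℝ)) volume volume :=
    PiLp.volume_preserving_ofLp (Fin 3)
  have h2 := volume_preserving_piFinSuccAbove (fun _ : Fin 3 => ℝ) 2
  exact h2.comp h1

/-- The helix `γ(t) = (r cos 2πt, r sin 2πt, h t)`, `r = 1/(π sqrt 6)`, `h = 1/sqrt 3`, is 1-Lipschitz (constant speed
`sqrt(4 π^2 r^2 + h^2) = 1`) and the volume of its hull is at least `π/3 r^2 h = 1/(18 sqrt 3 π)`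
(`helix_volume` transported by the measure preserving linear bijection between `EuclideanSpace ℝ (Fin 3)`, `Fin 3 → ℝ`
(`EuclideanSpace.volume_preserving_..`) and `ℝ × (Fin 2 → ℝ)` (`volume_preserving_piFinSuccAbove` at the coordinate 2)). -/
theorem exists_helix : ∃ g : ℝ → E3, LipschitzWith 1 g ∧
    ENNReal.ofReal (1 / (18 * Real.sqrt 3 * Real.pi)) ≤ volume (convexHull ℝ (g '' Set.Icc (0 : ℝ) 1)) := by
  have hpi := Real.pi_pos
  have h6 : Real.sqrt 6 ^ 2 = 6 := Real.sq_sqrt (by norm_num)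
  have h3 : Real.sqrt 3 ^ 2 = 3 := Real.sq_sqrt (by norm_num)
  have h6p : 0 < Real.sqrt 6 := Real.sqrt_pos.2 (by norm_num)
  have h3p : 0 < Real.sqrt 3 := Real.sqrt_pos.2 (by norm_num)
  set r : ℝ := 1 / (Real.pi * Real.sqrt 6) with hr
  set h : ℝ := 1 / Real.sqrt 3 with hh
  have hrp : 0 < r := by positivity
  have hhp : 0 < h := by positivity
  have hr2 : r ^ 2 * (2 * Real.pi) ^ 2 = 2 / 3 := by
    rw [hr]
    field_simp
    rw [h6]
    norm_num
  have hh2 : h ^ 2 = 1 / 3 := by
    rw [hh, div_pow, h3]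
    norm_num
  let g : ℝ → E3 := fun t => WithLp.toLp 2
    (![r * Real.cos (2 * Real.pi * t), r * Real.sin (2 * Real.pi * t), h * t] : Fin 3 → ℝ)
  refine ⟨g, ?_, ?_⟩
  · apply LipschitzWith.of_dist_le_mul
    intro s t
    rw [NNReal.coe_one, one_mul, EuclideanSpace.dist_eq, Real.dist_eq]
    rw [← Real.sqrt_sq (abs_nonneg (s - t)), sq_abs]
    apply Real.sqrt_le_sqrt
    have e0 : g s 0 = r * Real.cos (2 * Real.pi * s) := rfl
    have e1 : g s 1 = r * Real.sin (2 * Real.pi * s) := rfl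
    have e2 : g s 2 = h * s := rfl
    have f0 : g t 0 = r * Real.cos (2 * Real.pi * t) := rfl
    have f1 : g t 1 = r * Real.sin (2 * Real.pi * t) := rfl
    have f2 : g t 2 = h * t := rfl
    rw [Fin.sum_univ_three, e0, e1, e2, f0, f1, f2]
    simp only [Real.dist_eq, sq_abs]
    have hc := Real.one_sub_sq_div_two_le_cos (x := 2 * Real.pi * s - 2 * Real.pi * t)
    rw [Real.cos_sub] at hc
    have s1 := Real.sin_sq_add_cos_sq (2 * Real.pi * s)
    have s2 := Real.sin_sq_add_cos_sq (2 * Real.pi * t)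
    have key : (r * Real.cos (2 * Real.pi * s) - r * Real.cos (2 * Real.pi * t)) ^ 2 +
        (r * Real.sin (2 * Real.pi * s) - r * Real.sin (2 * Real.pi * t)) ^ 2
        ≤ 2 / 3 * (s - t) ^ 2 := by
      have e : (r * Real.cos (2 * Real.pi * s) - r * Real.cos (2 * Real.pi * t)) ^ 2 +
        (r * Real.sin (2 * Real.pi * s) - r * Real.sin (2 * Real.pi * t)) ^ 2 =
        r ^ 2 * (2 - 2 * (Real.cos (2 * Real.pi * s) * Real.cos (2 * Real.pi * t) +
          Real.sin (2 * Real.pi * s) * Real.sin (2 * Real.pi * t))) := by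
        linear_combination r ^ 2 * s1 + r ^ 2 * s2
      rw [e]
      have e' : 2 / 3 * (s - t) ^ 2 = r ^ 2 * (2 * Real.pi * s - 2 * Real.pi * t) ^ 2 := by
        rw [← hr2]; ring
      rw [e']
      apply mul_le_mul_of_nonneg_left _ (sq_nonneg r)
      linarith
    have e3 : (h * s - h * t) ^ 2 = 1 / 3 * (s - t) ^ 2 := by
      rw [← hh2]; ring
    rw [e3]
    linarith
  · have hv := helix_volume r h hrp hhp
    have hval : Real.pi / 3 * r ^ 2 * h = 1 / (18 * Real.sqrt 3 * Real.pi) := by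
      rw [hr, hh]
      have : Real.sqrt 6 ^ 2 = 6 := h6
      field_simp
      rw [this]
      norm_num
    rw [hval] at hv
    refine hv.trans ?_
    have him : ((fun t : ℝ => (h * t, ![r * Real.cos (2 * Real.pi * t), r * Real.sin (2 * Real.pi * t)]) :
        ℝ → ℝ × (Fin 2 → ℝ)) '' Set.Icc (0 : ℝ) 1) = helixPhi '' (g '' Set.Icc (0 : ℝ) 1) := by
      rw [Set.image_image]
      rfl
    rw [him, ← helixPhi.image_convexHull]
    have hpre : volume (helixPhi '' (convexHull ℝ (g '' Set.Icc (0 : ℝ) 1))) =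
        volume (convexHull ℝ (g '' Set.Icc (0 : ℝ) 1)) := by
      rw [← helixEquiv_preserving.measure_preimage_equiv, helixEquiv_eq,
        Set.preimage_image_eq _ helixPhi_injective]
    rw [hpre]

end Pool.Agent.HVL
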