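import Mathlib
import Pool.Agent.HVL.Defs

namespace Pool.Agent.HVL

/-- the two halves of a real interval, split at `a`, add up. -/
theorem Poly_minmax (s t a : ℝ) : |min s a - min t a| + |max s a - max t a| = |s - t| := by
  rcases le_total s a with h1 | h1 <;> rcases le_total t a with h2 | h2
  · rw [min_eq_left h1, min_eq_left h2, max_eq_right h1, max_eq_right h2]; simp
  · rw [min_eq_left h1, min_eq_right h2, max_eq_right h1, max_eq_left h2]
    rw [abs_of_nonpos (by linarith), abs_of_nonpos (by linarith), abs_of_nonpos (by linarith)]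
    ring
  · rw [min_eq_right h1, min_eq_left h2, max_eq_left h1, max_eq_right h2]
    rw [abs_of_nonneg (by linarith), abs_of_nonneg (by linarith), abs_of_nonneg (by linarith)]
    ring
  · rw [min_eq_right h1, min_eq_right h2, max_eq_left h1, max_eq_left h2]; simp

/-- the induction behind `polygon_lipschitz`. -/
theorem Poly_aux (p : ℕ → E3) (N : ℕ) :
    ∃ g : ℝ → E3, LipschitzWith 1 g ∧
      (∀ t, ∑ i ∈ Finset.range N, ‖p (i + 1) - p i‖ ≤ t → g t = p N) ∧
      p '' Set.Iic N ⊆ g '' Set.Icc 0 (∑ i ∈ Finset.range N, ‖p (i + 1) - p i‖) := by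
  induction N with
  | zero =>
    refine ⟨fun _ => p 0, LipschitzWith.const' _, fun _ _ => rfl, ?_⟩
    rintro x ⟨i, hi, rfl⟩
    have : i = 0 := Nat.le_zero.1 hi
    subst this
    exact ⟨0, by simp, rfl⟩
  | succ N ih =>
    obtain ⟨g, hg, hend, him⟩ := ih
    obtain ⟨a, ha⟩ : ∃ a, a = ∑ i ∈ Finset.range N, ‖p (i + 1) - p i‖ := ⟨_, rfl⟩
    have ha0 : 0 ≤ a := by rw [ha]; exact Finset.sum_nonneg fun _ _ => norm_nonneg _
    obtain ⟨e, he⟩ : ∃ e, e = p (N + 1) - p N := ⟨_, rfl⟩
    have hsum : ∑ i ∈ Finset.range (N + 1), ‖p (i + 1) - p i‖ = a + ‖e‖ := by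
      rw [Finset.sum_range_succ, ha, he]
    rw [← ha] at hend him
    rw [hsum]
    have hl : 0 ≤ ‖e‖ := norm_nonneg e
    refine ⟨fun t => g (min t a) + ((min (max t a - a) ‖e‖) / ‖e‖) • e, ?_, ?_, ?_⟩
    · apply LipschitzWith.of_dist_le_mul
      intro s t
      rw [NNReal.coe_one, one_mul]
      refine (dist_add_add_le _ _ _ _).trans ?_
      rw [Real.dist_eq, ← Poly_minmax s t a]
      apply add_le_add
      · have h := hg.dist_le_mul (min s a) (min t a)
        rwa [NNReal.coe_one, one_mul, Real.dist_eq] at h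
      · rw [dist_eq_norm, ← sub_smul, norm_smul, ← sub_div, Real.norm_eq_abs, abs_div,
          abs_of_nonneg hl]
        have h1 : |min (max s a - a) ‖e‖ - min (max t a - a) ‖e‖| ≤ |max s a - max t a| := by
          have h2 := abs_min_sub_min_le_max (max s a - a) ‖e‖ (max t a - a) ‖e‖
          have h3 : max s a - a - (max t a - a) = max s a - max t a := by ring
          rw [h3, sub_self, abs_zero] at h2
          exact h2.trans (max_le le_rfl (abs_nonneg _))
        rcases hl.eq_or_lt with h0 | h0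
        · rw [← h0]
          simp
        · rw [div_mul_cancel₀ _ h0.ne']
          exact h1
    · intro t ht
      have hta : a ≤ t := by linarith
      have h1 : g (min t a) = p N := by
        rw [min_eq_right hta]; exact hend a le_rfl
      show g (min t a) + ((min (max t a - a) ‖e‖) / ‖e‖) • e = p (N + 1)
      rw [h1, max_eq_left hta, min_eq_right (by linarith)]
      rcases hl.eq_or_lt with h0 | h0
      · have h2 : e = 0 := norm_eq_zero.1 h0.symm
        rw [h2, smul_zero, add_zero]
        rw [h2] at he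
        exact (sub_eq_zero.1 he.symm).symm
      · rw [div_self h0.ne', one_smul, he]
        abel
    · rintro x ⟨i, hi, rfl⟩
      rcases Nat.lt_or_ge N i with h | h
      · have hi' : i = N + 1 := le_antisymm hi h
        subst hi'
        refine ⟨a + ‖e‖, ⟨by linarith, le_rfl⟩, ?_⟩
        show g (min (a + ‖e‖) a) + ((min (max (a + ‖e‖) a - a) ‖e‖) / ‖e‖) • e = p (N + 1)
        have hta : a ≤ a + ‖e‖ := by linarith
        rw [min_eq_right hta, max_eq_left hta, hend a le_rfl]
        have h3 : a + ‖e‖ - a = ‖e‖ := by ring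
        rw [h3, min_self]
        rcases hl.eq_or_lt with h0 | h0
        · have h2 : e = 0 := norm_eq_zero.1 h0.symm
          rw [h2, smul_zero, add_zero]
          rw [h2] at he
          exact (sub_eq_zero.1 he.symm).symm
        · rw [div_self h0.ne', one_smul, he]
          abel
      · obtain ⟨t, ⟨ht0, hta⟩, hgt⟩ := him ⟨i, h, rfl⟩
        refine ⟨t, ⟨ht0, by linarith⟩, ?_⟩
        show g (min t a) + ((min (max t a - a) ‖e‖) / ‖e‖) • e = p i
        rw [min_eq_left hta, max_eq_right hta, sub_self, min_eq_left hl, zero_div, zero_smul,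
          add_zero]
        exact hgt

/-- A polygon of length `≤ L` is contained in the image of a 1-Lipschitz map on `[0,L]`.
Induction on `N`: `g` for `N` with `g = p N` on `[L_N, ∞)`, `L_N = ∑ ‖edges‖`; then go linearly from `p N` to `p (N+1)` on
`[L_N, L_(N+1)]` and stay there. -/
theorem polygon_lipschitz (N : ℕ) (p : ℕ → E3) (L : ℝ)
    (hL : ∑ i ∈ Finset.range N, ‖p (i + 1) - p i‖ ≤ L) :
    ∃ g : ℝ → E3, LipschitzWith 1 g ∧ p '' Set.Iic N ⊆ g '' Set.Icc 0 L := by
  obtain ⟨g, hg, _, him⟩ := Poly_aux p N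
  exact ⟨g, hg, him.trans (Set.image_mono (Set.Icc_subset_Icc le_rfl hL))⟩

/-- Scaling: `eVariationOn (c • f) = c * eVariationOn f` for `c > 0`. -/
theorem eVariationOn_smul (f : ℝ → E3) (s : Set ℝ) (c : ℝ) (hc : 0 < c) :
    eVariationOn (fun t => c • f t) s = ENNReal.ofReal c * eVariationOn f s := by
  unfold eVariationOn
  rw [ENNReal.mul_iSup]
  congr 1
  ext q
  rw [Finset.mul_sum]
  apply Finset.sum_congr rfl
  intro i _
  rw [edist_dist, edist_dist, ← ENNReal.ofReal_mul hc.le, dist_smul₀, Real.norm_eq_abs,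
    abs_of_pos hc]

/-- A 1-Lipschitz map has variation `≤ 1` on `[0,1]`. -/
theorem eVariationOn_le_of_lipschitz (g : ℝ → E3) (hg : LipschitzWith 1 g) :
    eVariationOn g (Set.Icc 0 1) ≤ 1 := by
  have h1 := LipschitzOnWith.comp_eVariationOn_le (f := g) (C := 1) (t := Set.univ)
    (hg.lipschitzOnWith (s := Set.univ)) (g := (id : ℝ → ℝ)) (s := Set.Icc 0 1)
    (fun _ _ => Set.mem_univ _)
  have h2 := (MonotoneOn.eVariationOn_eq (f := (id : ℝ → ℝ)) (s := Set.univ)
    (monotone_id.monotoneOn _) (Set.mem_univ 0) (Set.mem_univ 1)).le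
  rw [Set.univ_inter] at h2
  simp only [id_eq, sub_zero, ENNReal.ofReal_one] at h2
  calc eVariationOn g (Set.Icc 0 1) = eVariationOn (g ∘ id) (Set.Icc 0 1) := rfl
    _ ≤ (1 : NNReal) * eVariationOn id (Set.Icc 0 1) := h1
    _ ≤ (1 : NNReal) * 1 := by gcongr
    _ = 1 := by simp

end Pool.Agent.HVL
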