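import Mathlib
import Pool.Agent.HVL.ArcLe
import Pool.Agent.HVL.Helix3
import Pool.Agent.HVL.Poly
import Pool.Agent.HVL.Comp

namespace Pool.Agent.HVL

open MeasureTheory
open scoped Pointwise

/-- Every arc is dominated by a 1-Lipschitz map. -/
theorem arc_le_lipschitz (δ : ℝ → E3) (h : IsArc δ) (V : ENNReal)
    (hV : ∀ f : ℝ → E3, LipschitzWith 1 f → volume (convexHull ℝ (f '' Set.Icc (0 : ℝ) 1)) ≤ V) :
    hullVolume δ ≤ V := by
  refine (hullVolume_le_iSup δ h.1).trans (iSup_le fun m => ?_)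
  obtain ⟨g, hg, hsub⟩ := polygon_lipschitz (2 ^ m) (fun i : ℕ => δ ((i : ℝ) / 2 ^ m)) 1 (by
    have := sum_norm_le δ h.2.le (2 ^ m) (by positivity)
    simpa using this)
  exact (measure_mono (convexHull_mono hsub)).trans (hV g hg)

theorem hullVolume_smul (g : ℝ → E3) (c : ℝ) (hc : 0 < c) :
    hullVolume (fun t => c • g t) = ENNReal.ofReal (c ^ 3) * hullVolume g := by
  unfold hullVolume
  have h1 : (fun t => c • g t) '' Set.Icc (0 : ℝ) 1 = c • (g '' Set.Icc (0 : ℝ) 1) := by
    rw [← Set.image_smul, Set.image_image]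
  rw [h1, convexHull_smul, Measure.addHaar_smul]
  simp [abs_of_pos (pow_pos hc 3)]

/-- MAIN THEOREM. -/
theorem main : ∃ γ : ℝ → E3, IsArc γ ∧ (∀ δ : ℝ → E3, IsArc δ → hullVolume δ ≤ hullVolume γ) ∧
    ENNReal.ofReal (1 / (18 * Real.sqrt 3 * Real.pi)) ≤ hullVolume γ ∧
    hullVolume γ ≤ ENNReal.ofReal (Real.pi / 288) := by
  obtain ⟨g, hg, hmax⟩ := exists_max_lipschitz
  obtain ⟨e, he, hev⟩ := exists_helix
  have hlow : ENNReal.ofReal (1 / (18 * Real.sqrt 3 * Real.pi)) ≤ hullVolume g := hev.trans (hmax e he)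
  have hpos : (0 : ENNReal) < hullVolume g := lt_of_lt_of_le (by
    rw [ENNReal.ofReal_pos]
    positivity) hlow
  have hL1 : eVariationOn g (Set.Icc 0 1) ≤ 1 := eVariationOn_le_of_lipschitz g hg
  have hc : ContinuousOn g (Set.Icc 0 1) := hg.continuous.continuousOn
  set L := eVariationOn g (Set.Icc 0 1) with hL
  have hLtop : L ≠ ⊤ := ne_top_of_le_ne_top ENNReal.one_ne_top hL1
  have hL0 : L ≠ 0 := by
    intro h0
    -- a curve of variation 0 is constant, its hull is a point
    have hcon : ∀ t ∈ Set.Icc (0 : ℝ) 1, g t = g 0 := by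
      intro t ht
      have h1 := eVariationOn.edist_le g ht (Set.left_mem_Icc.mpr zero_le_one)
      rw [← hL, h0] at h1
      exact edist_eq_zero.mp (le_antisymm h1 bot_le)
    have h2 : g '' Set.Icc (0 : ℝ) 1 ⊆ {g 0} := by
      rintro _ ⟨t, ht, rfl⟩
      exact hcon t ht
    have h3 : hullVolume g = 0 := by
      unfold hullVolume
      refine measure_mono_null (convexHull_min h2 (convex_singleton _)) ?_
      exact measure_singleton _
    rw [h3] at hpos
    exact lt_irrefl _ hpos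
  set l : ℝ := L.toReal with hl
  have hlpos : 0 < l := ENNReal.toReal_pos hL0 hLtop
  have hl1 : l ≤ 1 := by
    have := ENNReal.toReal_mono ENNReal.one_ne_top hL1
    simpa using this
  let γ : ℝ → E3 := fun t => l⁻¹ • g t
  have hγ : IsArc γ := by
    have hcγ : ContinuousOn γ (Set.Icc 0 1) := by
      intro t ht
      exact (hc t ht).const_smul l⁻¹
    refine ⟨hcγ, ?_⟩
    rw [eVariationOn_smul g _ l⁻¹ (inv_pos.mpr hlpos), ← hL, ← ENNReal.ofReal_toReal hLtop, ← hl,
      ← ENNReal.ofReal_mul (inv_pos.mpr hlpos).le, inv_mul_cancel₀ hlpos.ne', ENNReal.ofReal_one]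
  have hge : hullVolume g ≤ hullVolume γ := by
    rw [hullVolume_smul g l⁻¹ (inv_pos.mpr hlpos)]
    calc hullVolume g = 1 * hullVolume g := (one_mul _).symm
      _ ≤ _ := by
          gcongr
          rw [← ENNReal.ofReal_one]
          apply ENNReal.ofReal_le_ofReal
          exact one_le_pow₀ ((one_le_inv₀ hlpos).mpr hl1)
  have hall : ∀ δ : ℝ → E3, IsArc δ → hullVolume δ ≤ hullVolume γ := by
    intro δ hδ
    exact (arc_le_lipschitz δ hδ (hullVolume g) (fun f hf => hmax f hf)).trans hge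
  exact ⟨γ, hγ, hall, hlow.trans hge, hullVolume_le γ hγ.1 hγ.2.le⟩

end Pool.Agent.HVL
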