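import Mathlib
import Pool.Agent.HVL.Defs

namespace Pool.Agent.HVL

open MeasureTheory

/-- the map `x ↦ ((x 0, x 1), x 2)` preserves the volume. -/
theorem five_mp : MeasurePreserving (fun x : Fin 3 → ℝ => ((x 0, x 1), x 2)) volume
    ((volume : Measure (ℝ × ℝ)).prod volume) := by
  have h1 := volume_preserving_piFinSuccAbove (fun _ : Fin (2 + 1) => ℝ) 2
  have h2 : MeasurePreserving (Prod.map (id : ℝ → ℝ) (MeasurableEquiv.finTwoArrow (α := ℝ)))
      ((volume : Measure ℝ).prod (volume : Measure (Fin 2 → ℝ)))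
      ((volume : Measure ℝ).prod (volume : Measure (ℝ × ℝ))) :=
    (MeasurePreserving.id _).prod (volume_preserving_finTwoArrow ℝ)
  have h3 : MeasurePreserving Prod.swap ((volume : Measure ℝ).prod (volume : Measure (ℝ × ℝ)))
      ((volume : Measure (ℝ × ℝ)).prod (volume : Measure ℝ)) := Measure.measurePreserving_swap
  exact (h3.comp (h2.comp h1))

theorem five_inner (p : ℝ) (h0 : 0 ≤ p) (h1 : p ≤ 1) :
    ∫ q in (0 : ℝ)..1, (2 - 2 * max p q) = 1 - p ^ 2 := by
  have hc : Continuous fun q : ℝ => 2 - 2 * max p q := by fun_prop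
  rw [← intervalIntegral.integral_add_adjacent_intervals (b := p)
    (hc.intervalIntegrable _ _) (hc.intervalIntegrable _ _)]
  have e1 : ∫ q in (0 : ℝ)..p, (2 - 2 * max p q) = ∫ q in (0 : ℝ)..p, (2 - 2 * p) := by
    refine intervalIntegral.integral_congr ?_
    intro q hq
    rw [Set.uIcc_of_le h0] at hq
    simp only
    rw [max_eq_left hq.2]
  have e2 : ∫ q in p..(1 : ℝ), (2 - 2 * max p q) = ∫ q in p..(1 : ℝ), (2 - 2 * q) := by
    refine intervalIntegral.integral_congr ?_
    intro q hq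
    rw [Set.uIcc_of_le h1] at hq
    simp only
    rw [max_eq_right hq.1]
  rw [e1, e2, intervalIntegral.integral_const, intervalIntegral.integral_sub,
    intervalIntegral.integral_const, intervalIntegral.integral_const_mul, integral_id]
  · simp only [smul_eq_mul]; ring
  · exact (continuous_const).intervalIntegrable _ _
  · exact (by fun_prop : Continuous fun q : ℝ => 2 * q).intervalIntegrable _ _

theorem five_outer : ∫ p in (0 : ℝ)..1, (1 - p ^ 2) = 2 / 3 := by
  rw [intervalIntegral.integral_sub, intervalIntegral.integral_const, integral_pow]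
  · norm_num
  · exact (continuous_const).intervalIntegrable _ _
  · exact (by fun_prop : Continuous fun q : ℝ => q ^ 2).intervalIntegrable _ _

theorem five_region : ((volume : Measure (ℝ × ℝ)).prod (volume : Measure ℝ))
    (regionBetween (fun y : ℝ × ℝ => max 0 (y.2 - y.1))
      (fun y : ℝ × ℝ => min (2 - 2 * y.1) (2 - y.1 - y.2))
      (Set.Ioo (0 : ℝ) 1 ×ˢ Set.Ioo (0 : ℝ) 1)) = ENNReal.ofReal (2 / 3) := by
  have hf : Continuous fun y : ℝ × ℝ => max 0 (y.2 - y.1) := by fun_prop
  have hg : Continuous fun y : ℝ × ℝ => min (2 - 2 * y.1) (2 - y.1 - y.2) := by fun_prop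
  have hsub : (Set.Ioo (0 : ℝ) 1 ×ˢ Set.Ioo (0 : ℝ) 1) ⊆ (Set.Icc (0 : ℝ) 1 ×ˢ Set.Icc (0 : ℝ) 1) :=
    Set.prod_mono Set.Ioo_subset_Icc_self Set.Ioo_subset_Icc_self
  have hK : IsCompact (Set.Icc (0 : ℝ) 1 ×ˢ Set.Icc (0 : ℝ) 1) := isCompact_Icc.prod isCompact_Icc
  have hint : ∀ h : ℝ × ℝ → ℝ, Continuous h →
      IntegrableOn h (Set.Ioo (0 : ℝ) 1 ×ˢ Set.Ioo (0 : ℝ) 1) volume :=
    fun h hh => (hh.continuousOn.integrableOn_compact hK).mono_set hsub
  rw [volume_regionBetween_eq_integral (hint _ hf) (hint _ hg)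
    (measurableSet_Ioo.prod measurableSet_Ioo)]
  · congr 1
    have e : ∀ y : ℝ × ℝ, ((fun y : ℝ × ℝ => min (2 - 2 * y.1) (2 - y.1 - y.2)) -
        fun y : ℝ × ℝ => max 0 (y.2 - y.1)) y = 2 - 2 * max y.1 y.2 := by
      intro y
      simp only [Pi.sub_apply]
      rcases le_total y.1 y.2 with h | h
      · rw [min_eq_right (by linarith), max_eq_right (by linarith), max_eq_right h]; ring
      · rw [min_eq_left (by linarith), max_eq_left (by linarith), max_eq_left h]; ring
    simp only [e]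
    have hc : Continuous fun y : ℝ × ℝ => 2 - 2 * max y.1 y.2 := by fun_prop
    rw [Measure.volume_eq_prod, setIntegral_prod _ (by
      have := hint _ hc
      rwa [Measure.volume_eq_prod] at this)]
    simp only
    have e1 : ∀ p : ℝ, ∫ q in Set.Ioo (0 : ℝ) 1, (2 - 2 * max p q) =
        ∫ q in (0 : ℝ)..1, (2 - 2 * max p q) := by
      intro p
      rw [intervalIntegral.integral_of_le zero_le_one, integral_Ioc_eq_integral_Ioo]
    rw [setIntegral_congr_fun measurableSet_Ioo (g := fun p => 1 - p ^ 2)]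
    · rw [← integral_Ioc_eq_integral_Ioo, ← intervalIntegral.integral_of_le zero_le_one, five_outer]
    · intro p hp
      simp only
      rw [e1, five_inner p hp.1.le hp.2.le]
  · intro y hy
    have h1 := hy.1
    have h2 := hy.2
    simp only [Set.mem_Ioo] at h1 h2
    refine max_le (le_min (by linarith) (by linarith)) (le_min (by linarith) (by linarith))

/-- The standard body: the hull of the 5 points `(0,0,0),(1,0,0),(1,1,0),(0,1,1),(0,0,2)` has volume at least `2/3`.
It contains all `(p,q,z)` with `0 < p,q < 1`, `max 0 (q-p) < z < min (2-2p) (2-p-q)`: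
for `q ≤ p` the weights are `z/2` at `(0,0,2)`, `q` at `(1,1,0)`, `p-q` at `(1,0,0)`, `1-p-z/2` at `0`;
for `p ≤ q` the weights are `(z-(q-p))/2` at `(0,0,2)`, `p` at `(1,1,0)`, `q-p` at `(0,1,1)`, rest at `0`.
The thickness is `2 - 2 max p q`, with integral `2/3` over the unit square (`volume_regionBetween_eq_integral`,
then `volume_preserving_piFinSuccAbove` at the coordinate 2 or any other way to `Fin 3 → ℝ`). -/
theorem five_std : ENNReal.ofReal (2 / 3) ≤ volume (convexHull ℝ
    (({![0, 0, 0], ![1, 0, 0], ![1, 1, 0], ![0, 1, 1], ![0, 0, 2]} : Set (Fin 3 → ℝ)))) := by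
  set S : Set (Fin 3 → ℝ) := {![0, 0, 0], ![1, 0, 0], ![1, 1, 0], ![0, 1, 1], ![0, 0, 2]} with hS
  set R := regionBetween (fun y : ℝ × ℝ => max 0 (y.2 - y.1))
      (fun y : ℝ × ℝ => min (2 - 2 * y.1) (2 - y.1 - y.2))
      (Set.Ioo (0 : ℝ) 1 ×ˢ Set.Ioo (0 : ℝ) 1) with hR
  have hRm : MeasurableSet R :=
    measurableSet_regionBetween (by fun_prop) (by fun_prop) (measurableSet_Ioo.prod measurableSet_Ioo)
  rw [← five_region, ← five_mp.measure_preimage hRm.nullMeasurableSet]
  refine measure_mono ?_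
  intro x hx
  have m1 : (![0, 0, 0] : Fin 3 → ℝ) ∈ convexHull ℝ S := subset_convexHull ℝ S (by simp [hS])
  have m2 : (![1, 0, 0] : Fin 3 → ℝ) ∈ convexHull ℝ S := subset_convexHull ℝ S (by simp [hS])
  have m3 : (![1, 1, 0] : Fin 3 → ℝ) ∈ convexHull ℝ S := subset_convexHull ℝ S (by simp [hS])
  have m4 : (![0, 1, 1] : Fin 3 → ℝ) ∈ convexHull ℝ S := subset_convexHull ℝ S (by simp [hS])
  have m5 : (![0, 0, 2] : Fin 3 → ℝ) ∈ convexHull ℝ S := subset_convexHull ℝ S (by simp [hS])
  obtain ⟨⟨⟨hp0, hp1⟩, ⟨hq0, hq1⟩⟩, hz1, hz2⟩ := hx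
  simp only [max_lt_iff, lt_min_iff] at hp0 hp1 hq0 hq1 hz1 hz2
  have key : ∀ (a b c d e : ℝ), 0 ≤ a → 0 ≤ b → 0 ≤ c → 0 ≤ d → 0 ≤ e → a + b + c + d + e = 1 →
      x = a • ![0, 0, 0] + b • ![1, 0, 0] + c • ![1, 1, 0] + d • ![0, 1, 1] + e • ![0, 0, 2] →
      x ∈ convexHull ℝ S := by
    intro a b c d e ha hb hc hd he hsum hxe
    have := (convex_convexHull ℝ S).sum_mem (t := (Finset.univ : Finset (Fin 5)))
      (w := ![a, b, c, d, e])
      (z := ![![0, 0, 0], ![1, 0, 0], ![1, 1, 0], ![0, 1, 1], ![0, 0, 2]])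
      (by intro i _; fin_cases i <;> simpa)
      (by simp [Fin.sum_univ_succ]; linarith)
      (by intro i _; fin_cases i <;> simpa)
    rw [hxe]
    simpa [Fin.sum_univ_succ, add_assoc] using this
  rcases le_total (x 1) (x 0) with h | h
  · refine key (1 - x 0 - x 2 / 2) (x 0 - x 1) (x 1) 0 (x 2 / 2) (by linarith) (by linarith)
      (by linarith) le_rfl (by linarith) (by ring) ?_
    funext i
    fin_cases i <;> simp
  · refine key (1 - x 1 - (x 2 - (x 1 - x 0)) / 2) 0 (x 0) (x 1 - x 0) ((x 2 - (x 1 - x 0)) / 2)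
      (by linarith) le_rfl (by linarith) (by linarith) (by linarith) (by ring) ?_
    funext i
    fin_cases i <;> simp

/-- the linear map onto the extremal body -/
noncomputable def fiveMat (k : ℝ) : Matrix (Fin 3) (Fin 3) ℝ :=
  !![k, k, 0; k, k, 2 * k; k, -k, 0]

theorem fiveMat_det (k : ℝ) : (fiveMat k).det = 4 * k ^ 3 := by
  rw [fiveMat, Matrix.det_fin_three]
  simp
  ring

/-- the vertices of the extremal polygonal arc -/
noncomputable def fivePts (k : ℝ) : ℕ → (Fin 3 → ℝ)
  | 0 => ![0, 0, 0]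
  | 1 => ![k, k, k]
  | 2 => ![2 * k, 2 * k, 0]
  | 3 => ![k, 3 * k, -k]
  | _ => ![0, 4 * k, 0]

/-- With `k = 1/(4 sqrt 3)` and `v1 = (1,1,1) k`, `v2 = (1,1,-1) k`, `v3 = (-1,1,-1) k`, `v4 = (-1,1,1) k` (all of norm `1/4`) and
`x0 = 0`, `x (i+1) = x i + v (i+1)` (so `x1 = (1,1,1)k, x2 = (2,2,0)k, x3 = (1,3,-1)k, x4 = (0,4,0)k`) the hull is the image of the
standard body under the linear map with columns `v1, v2, v1 + v3`, of determinant `4 k^3`
(`MeasureTheory.Measure.addHaar_image_linearMap`), and `4 k^3 (2/3) = 1/(72 sqrt 3)`. -/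
theorem five_points : ∃ x : ℕ → E3, (∑ i ∈ Finset.range 4, ‖x (i + 1) - x i‖) = 1 ∧
    ENNReal.ofReal (1 / (72 * Real.sqrt 3)) ≤ volume (convexHull ℝ (x '' Set.Iic 4)) := by
  have h3 : (0 : ℝ) < Real.sqrt 3 := Real.sqrt_pos.2 (by norm_num)
  have h33 : Real.sqrt 3 ^ 2 = 3 := Real.sq_sqrt (by norm_num)
  set k : ℝ := 1 / (4 * Real.sqrt 3) with hk
  have hk0 : 0 < k := by positivity
  have hk2 : k ^ 2 * 3 = (1 / 4) ^ 2 := by
    rw [hk, div_pow, mul_pow, h33]; norm_num
  refine ⟨fun n => WithLp.toLp 2 (fivePts k n), ?_, ?_⟩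
  · have hn : ∀ u v w : ℝ, u ^ 2 = k ^ 2 → v ^ 2 = k ^ 2 → w ^ 2 = k ^ 2 → ∀ y : E3,
        y 0 = u → y 1 = v → y 2 = w → ‖y‖ = 1 / 4 := by
      intro u v w hu hv hw y h0 h1 h2
      rw [EuclideanSpace.norm_eq, Fin.sum_univ_three, h0, h1, h2]
      simp only [Real.norm_eq_abs, sq_abs]
      rw [hu, hv, hw, show k ^ 2 + k ^ 2 + k ^ 2 = k ^ 2 * 3 by ring, hk2]
      exact Real.sqrt_sq (by norm_num)
    simp only [Finset.sum_range_succ, Finset.sum_range_zero, zero_add]
    rw [hn k k k rfl rfl rfl _ (by simp [fivePts]) (by simp [fivePts]) (by simp [fivePts]),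
      hn k k (-k) rfl rfl (by ring) _ (by simp [fivePts]; ring) (by simp [fivePts]; ring)
        (by simp [fivePts]),
      hn (-k) k (-k) (by ring) rfl (by ring) _ (by simp [fivePts]; ring) (by simp [fivePts]; ring)
        (by simp [fivePts]),
      hn (-k) k k (by ring) rfl rfl _ (by simp [fivePts]) (by simp [fivePts]; ring)
        (by simp [fivePts])]
    norm_num
  · set S : Set (Fin 3 → ℝ) := {![0, 0, 0], ![1, 0, 0], ![1, 1, 0], ![0, 1, 1], ![0, 0, 2]} with hS
    set M := Matrix.toLin' (fiveMat k) with hM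
    set f : (Fin 3 → ℝ) →ₗ[ℝ] E3 :=
      ((WithLp.linearEquiv 2 ℝ (Fin 3 → ℝ)).symm : (Fin 3 → ℝ) →ₗ[ℝ] E3) ∘ₗ M with hf
    have hsub : f '' S ⊆ (fun n => (WithLp.toLp 2 (fivePts k n) : E3)) '' Set.Iic 4 := by
      rintro y ⟨s, hs, rfl⟩
      have hfs : ∀ s, f s = WithLp.toLp 2 ((fiveMat k).mulVec s) := by
        intro s; rfl
      rw [hfs]
      simp only [hS, Set.mem_insert_iff, Set.mem_singleton_iff] at hs
      rcases hs with rfl | rfl | rfl | rfl | rfl
      · refine ⟨0, by simp, ?_⟩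
        simp only
        congr 1
        funext i; fin_cases i <;> simp [fivePts, fiveMat, Matrix.mulVec, dotProduct, Fin.sum_univ_three]
      · refine ⟨1, by simp, ?_⟩
        simp only
        congr 1
        funext i; fin_cases i <;> simp [fivePts, fiveMat, Matrix.mulVec, dotProduct, Fin.sum_univ_three]
      · refine ⟨2, by simp, ?_⟩
        simp only
        congr 1
        funext i; fin_cases i <;> simp [fivePts, fiveMat, Matrix.mulVec, dotProduct, Fin.sum_univ_three] <;> ring
      · refine ⟨3, by simp, ?_⟩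
        simp only
        congr 1
        funext i; fin_cases i <;> simp [fivePts, fiveMat, Matrix.mulVec, dotProduct, Fin.sum_univ_three] <;> ring
      · refine ⟨4, by simp, ?_⟩
        simp only
        congr 1
        funext i; fin_cases i <;> simp [fivePts, fiveMat, Matrix.mulVec, dotProduct, Fin.sum_univ_three] <;> ring
    have h1 : volume (f '' convexHull ℝ S) = ENNReal.ofReal (4 * k ^ 3) * volume (convexHull ℝ S) := by
      have e1 : f '' convexHull ℝ S = (MeasurableEquiv.toLp 2 (Fin 3 → ℝ)) '' (M '' convexHull ℝ S) := by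
        rw [Set.image_image]
        rfl
      rw [e1, MeasurableEquiv.image_eq_preimage_symm,
        (EuclideanSpace.volume_preserving_symm_measurableEquiv_toLp (Fin 3)).measure_preimage_equiv,
        Measure.addHaar_image_linearMap, hM, LinearMap.det_toLin', fiveMat_det,
        abs_of_pos (by positivity)]
    calc ENNReal.ofReal (1 / (72 * Real.sqrt 3))
        = ENNReal.ofReal (4 * k ^ 3) * ENNReal.ofReal (2 / 3) := by
          rw [← ENNReal.ofReal_mul (by positivity)]
          congr 1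
          have h4 : k ^ 3 = (1 / 48) * k := by
            have : k ^ 3 = k ^ 2 * 3 * k / 3 := by ring
            rw [this, hk2]; ring
          rw [h4, hk]
          field_simp
          norm_num
      _ ≤ ENNReal.ofReal (4 * k ^ 3) * volume (convexHull ℝ S) := by
          gcongr
          exact five_std
      _ = volume (f '' convexHull ℝ S) := h1.symm
      _ = volume (convexHull ℝ (f '' S)) := by rw [f.image_convexHull]
      _ ≤ _ := measure_mono (convexHull_mono hsub)

end Pool.Agent.HVL
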