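import Mathlib
import Pool.Agent.HVL.Defs

namespace Pool.Agent.HVL

private theorem four_sum3 {ι : Type*} [Fintype ι] (c : ℝ) (f g h : ι → ℝ) :
    ∑ i, ∑ j, ∑ k, c * (f i * g j * h k) = c * ((∑ i, f i) * (∑ j, g j) * ∑ k, h k) := by
  simp_rw [← Finset.mul_sum, ← Finset.sum_mul, Finset.sum_mul_sum]

private theorem four_hadamard {A B C x y z : ℝ} (hA : 0 ≤ A) (hB : 0 ≤ B) (hC : 0 ≤ C)
    (hx : x ^ 2 ≤ A * B) :
    A * B * C + 2 * (x * y * z) - A * z ^ 2 - B * y ^ 2 - C * x ^ 2 ≤ ((A + B + C) / 3) ^ 3 := by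
  have h1 : 2 * (x * y * z) ≤ A * z ^ 2 + B * y ^ 2 := by
    have h2 : (2 * (x * y * z)) ^ 2 ≤ (A * z ^ 2 + B * y ^ 2) ^ 2 := by
      have h3 : x ^ 2 * (y ^ 2 * z ^ 2) ≤ A * B * (y ^ 2 * z ^ 2) :=
        mul_le_mul_of_nonneg_right hx (by positivity)
      nlinarith [sq_nonneg (A * z ^ 2 - B * y ^ 2)]
    exact le_of_abs_le (abs_le_of_sq_le_sq h2 (by positivity))
  have h4 : A * B * C ≤ ((A + B + C) / 3) ^ 3 := by
    nlinarith [mul_nonneg hA (sq_nonneg (B - C)), mul_nonneg hB (sq_nonneg (A - C)),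
      mul_nonneg hC (sq_nonneg (A - B)), mul_nonneg hA (sq_nonneg (A - B)),
      mul_nonneg hA (sq_nonneg (A - C)), mul_nonneg hB (sq_nonneg (B - A)),
      mul_nonneg hB (sq_nonneg (B - C)), mul_nonneg hC (sq_nonneg (C - A)),
      mul_nonneg hC (sq_nonneg (C - B))]
  have h5 : 0 ≤ C * x ^ 2 := by positivity
  linarith

/-- `∑ det(w_i,w_j,w_k)^2 ≤ 6 (∑ ‖w_i‖^2 / 3)^3`. -/
private theorem four_gram {ι : Type*} [Fintype ι] (w : ι → E3) :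
    ∑ i, ∑ j, ∑ k, (det3 (w i) (w j) (w k)) ^ 2 ≤ 6 * ((∑ i, ‖w i‖ ^ 2) / 3) ^ 3 := by
  have key : ∀ i j k, (det3 (w i) (w j) (w k)) ^ 2 =
      2 * ((w i 0 * w i 0) * (w j 1 * w j 1) * (w k 2 * w k 2)) +
      2 * ((w i 1 * w i 1) * (w j 0 * w j 0) * (w k 2 * w k 2)) +
      2 * ((w i 2 * w i 2) * (w j 0 * w j 0) * (w k 1 * w k 1)) +
      (-2) * ((w i 0 * w i 0) * (w j 1 * w j 2) * (w k 1 * w k 2)) +
      (-2) * ((w i 1 * w i 1) * (w j 0 * w j 2) * (w k 0 * w k 2)) +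
      (-2) * ((w i 2 * w i 2) * (w j 0 * w j 1) * (w k 0 * w k 1)) +
      (-2) * ((w i 0 * w i 1) * (w j 0 * w j 1) * (w k 2 * w k 2)) +
      2 * ((w i 0 * w i 1) * (w j 1 * w j 2) * (w k 0 * w k 2)) +
      2 * ((w i 0 * w i 1) * (w j 0 * w j 2) * (w k 1 * w k 2)) +
      (-2) * ((w i 0 * w i 1) * (w j 2 * w j 2) * (w k 0 * w k 1)) +
      2 * ((w i 0 * w i 2) * (w j 0 * w j 1) * (w k 1 * w k 2)) +
      (-2) * ((w i 0 * w i 2) * (w j 1 * w j 1) * (w k 0 * w k 2)) +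
      (-2) * ((w i 0 * w i 2) * (w j 0 * w j 2) * (w k 1 * w k 1)) +
      2 * ((w i 0 * w i 2) * (w j 1 * w j 2) * (w k 0 * w k 1)) +
      (-2) * ((w i 1 * w i 2) * (w j 0 * w j 0) * (w k 1 * w k 2)) +
      2 * ((w i 1 * w i 2) * (w j 0 * w j 1) * (w k 0 * w k 2)) +
      2 * ((w i 1 * w i 2) * (w j 0 * w j 2) * (w k 0 * w k 1)) +
      (-2) * ((w i 1 * w i 2) * (w j 1 * w j 2) * (w k 0 * w k 0)) +
      (1 * ((w i 0 * w i 0) * (w j 2 * w j 2) * (w k 1 * w k 1)) +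
        (-1) * ((w i 0 * w i 0) * (w j 1 * w j 1) * (w k 2 * w k 2))) +
      (1 * ((w i 1 * w i 1) * (w j 2 * w j 2) * (w k 0 * w k 0)) +
        (-1) * ((w i 1 * w i 1) * (w j 0 * w j 0) * (w k 2 * w k 2))) +
      (1 * ((w i 2 * w i 2) * (w j 1 * w j 1) * (w k 0 * w k 0)) +
        (-1) * ((w i 2 * w i 2) * (w j 0 * w j 0) * (w k 1 * w k 1))) := by
    intro i j k
    unfold det3
    ring
  have hn : ∑ i, ‖w i‖ ^ 2 =
      (∑ i, w i 0 * w i 0) + (∑ i, w i 1 * w i 1) + ∑ i, w i 2 * w i 2 := by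
    rw [← Finset.sum_add_distrib, ← Finset.sum_add_distrib]
    apply Finset.sum_congr rfl
    intro i _
    rw [EuclideanSpace.norm_sq_eq, Fin.sum_univ_three]
    simp only [Real.norm_eq_abs, sq_abs]
    ring
  have h00 : 0 ≤ ∑ i, w i 0 * w i 0 := Finset.sum_nonneg fun i _ => mul_self_nonneg _
  have h11 : 0 ≤ ∑ i, w i 1 * w i 1 := Finset.sum_nonneg fun i _ => mul_self_nonneg _
  have h22 : 0 ≤ ∑ i, w i 2 * w i 2 := Finset.sum_nonneg fun i _ => mul_self_nonneg _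
  have hcs : (∑ i, w i 0 * w i 1) ^ 2 ≤ (∑ i, w i 0 * w i 0) * ∑ i, w i 1 * w i 1 := by
    have := Finset.sum_mul_sq_le_sq_mul_sq Finset.univ (fun i => w i 0) (fun i => w i 1)
    simpa only [sq] using this
  have hd := four_hadamard h00 h11 h22 hcs (y := ∑ i, w i 0 * w i 2) (z := ∑ i, w i 1 * w i 2)
  simp only [key, Finset.sum_add_distrib, four_sum3]
  rw [hn]
  linarith [hd]

/-- Cauchy-Schwarz: the square of `∑ |det(v_i,v_j,v_k)|` is at most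
`(∑_{i,j,k distinct} ‖v_i‖ ‖v_j‖ ‖v_k‖) 6 (∑ ‖v_i‖ / 3)^3`. -/
private theorem four_cs {ι : Type*} [Fintype ι] [DecidableEq ι] (v : ι → E3) :
    (∑ i, ∑ j, ∑ k, |det3 (v i) (v j) (v k)|) ^ 2 ≤
      (∑ i, ∑ j, ∑ k, if i ≠ j ∧ i ≠ k ∧ j ≠ k then ‖v i‖ * ‖v j‖ * ‖v k‖ else 0) *
        (6 * ((∑ i, ‖v i‖) / 3) ^ 3) := by
  let w : ι → E3 := fun i => (Real.sqrt ‖v i‖)⁻¹ • v i
  have hv : ∀ i, v i = Real.sqrt ‖v i‖ • w i := by
    intro i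
    by_cases h : v i = 0
    · simp [w, h]
    · have h1 : Real.sqrt ‖v i‖ ≠ 0 := (Real.sqrt_pos.mpr (norm_pos_iff.mpr h)).ne'
      simp only [w, smul_smul, mul_inv_cancel₀ h1, one_smul]
  have hw : ∀ i, ‖w i‖ ^ 2 = ‖v i‖ := by
    intro i
    by_cases h : v i = 0
    · simp [w, h]
    · have h0 : 0 < ‖v i‖ := norm_pos_iff.mpr h
      simp only [w, norm_smul, norm_inv, Real.norm_eq_abs, abs_of_nonneg (Real.sqrt_nonneg _),
        mul_pow, inv_pow, Real.sq_sqrt h0.le]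
      field_simp
  have hdet : ∀ i j k, |det3 (v i) (v j) (v k)| =
      (if i ≠ j ∧ i ≠ k ∧ j ≠ k then Real.sqrt (‖v i‖ * ‖v j‖ * ‖v k‖) else 0) *
        |det3 (w i) (w j) (w k)| := by
    intro i j k
    by_cases h : i ≠ j ∧ i ≠ k ∧ j ≠ k
    · rw [if_pos h]
      have h1 : det3 (v i) (v j) (v k) =
          Real.sqrt ‖v i‖ * Real.sqrt ‖v j‖ * Real.sqrt ‖v k‖ * det3 (w i) (w j) (w k) := by
        conv_lhs => rw [hv i, hv j, hv k]
        unfold det3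
        simp only [PiLp.smul_apply, smul_eq_mul]
        ring
      rw [h1, abs_mul, abs_of_nonneg (by positivity), Real.sqrt_mul (by positivity),
        Real.sqrt_mul (by positivity)]
    · rw [if_neg h, zero_mul, abs_eq_zero]
      have h' : i = j ∨ i = k ∨ j = k := by
        by_contra hc
        push Not at hc
        exact h hc
      rcases h' with h' | h' | h'
      · subst h'; unfold det3; ring
      · subst h'; unfold det3; ring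
      · subst h'; unfold det3; ring
  have e1 : ∑ i, ∑ j, ∑ k, |det3 (v i) (v j) (v k)| = ∑ q : ι × ι × ι,
      (if q.1 ≠ q.2.1 ∧ q.1 ≠ q.2.2 ∧ q.2.1 ≠ q.2.2 then
        Real.sqrt (‖v q.1‖ * ‖v q.2.1‖ * ‖v q.2.2‖) else 0) *
          |det3 (w q.1) (w q.2.1) (w q.2.2)| := by
    simp only [Fintype.sum_prod_type, hdet]
  rw [e1]
  refine (Finset.sum_mul_sq_le_sq_mul_sq _ _ _).trans ?_
  have e2 : ∑ q : ι × ι × ι, (if q.1 ≠ q.2.1 ∧ q.1 ≠ q.2.2 ∧ q.2.1 ≠ q.2.2 then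
        Real.sqrt (‖v q.1‖ * ‖v q.2.1‖ * ‖v q.2.2‖) else 0) ^ 2 =
      ∑ i, ∑ j, ∑ k, if i ≠ j ∧ i ≠ k ∧ j ≠ k then ‖v i‖ * ‖v j‖ * ‖v k‖ else 0 := by
    simp only [Fintype.sum_prod_type]
    apply Finset.sum_congr rfl; intro i _
    apply Finset.sum_congr rfl; intro j _
    apply Finset.sum_congr rfl; intro k _
    split_ifs
    · exact Real.sq_sqrt (by positivity)
    · norm_num
  have e3 : ∑ q : ι × ι × ι, |det3 (w q.1) (w q.2.1) (w q.2.2)| ^ 2 =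
      ∑ i, ∑ j, ∑ k, (det3 (w i) (w j) (w k)) ^ 2 := by
    simp only [Fintype.sum_prod_type, sq_abs]
  rw [e2, e3]
  have h4 := four_gram w
  simp only [hw] at h4
  refine mul_le_mul_of_nonneg_left h4 ?_
  refine Finset.sum_nonneg fun i _ => Finset.sum_nonneg fun j _ => Finset.sum_nonneg fun k _ => ?_
  split_ifs <;> positivity

/-- `∑_{i,j,k} |det(v_i,v_j,v_k)| ≤ (1/(2 sqrt 3)) (∑ ‖v_i‖)^3` for four vectors. -/
theorem four_ineq (v : Fin 4 → E3) :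
    ∑ i, ∑ j, ∑ k, |det3 (v i) (v j) (v k)| ≤ (1 / (2 * Real.sqrt 3)) * (∑ i, ‖v i‖) ^ 3 := by
  have h := four_cs v
  obtain ⟨a, ha⟩ : ∃ a, a = ‖v 0‖ := ⟨_, rfl⟩
  obtain ⟨b, hb⟩ : ∃ b, b = ‖v 1‖ := ⟨_, rfl⟩
  obtain ⟨c, hc⟩ : ∃ c, c = ‖v 2‖ := ⟨_, rfl⟩
  obtain ⟨d, hd⟩ : ∃ d, d = ‖v 3‖ := ⟨_, rfl⟩
  have ha0 : 0 ≤ a := ha ▸ norm_nonneg _
  have hb0 : 0 ≤ b := hb ▸ norm_nonneg _
  have hc0 : 0 ≤ c := hc ▸ norm_nonneg _
  have hd0 : 0 ≤ d := hd ▸ norm_nonneg _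
  have hs : ∑ i, ‖v i‖ = a + b + c + d := by
    rw [Fin.sum_univ_four, ← ha, ← hb, ← hc, ← hd]
  have h6 : (∑ i, ∑ j, ∑ k, if i ≠ j ∧ i ≠ k ∧ j ≠ k then ‖v i‖ * ‖v j‖ * ‖v k‖ else 0) =
      6 * (a * b * c + a * b * d + a * c * d + b * c * d) := by
    rw [ha, hb, hc, hd]
    simp only [Fin.sum_univ_four]
    norm_num [Fin.ext_iff]
    ring
  have h7 : a * b * c + a * b * d + a * c * d + b * c * d ≤ (a + b + c + d) ^ 3 / 16 := by
    nlinarith [mul_nonneg (add_nonneg hc0 hd0) (sq_nonneg (a - b)),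
      mul_nonneg (add_nonneg ha0 hb0) (sq_nonneg (c - d)),
      mul_nonneg (add_nonneg (add_nonneg ha0 hb0) (add_nonneg hc0 hd0))
        (sq_nonneg (a + b - c - d))]
  rw [h6, hs] at h
  rw [hs]
  set s := a + b + c + d with hsdef
  have hs0 : 0 ≤ s := by positivity
  set X := ∑ i, ∑ j, ∑ k, |det3 (v i) (v j) (v k)| with hX
  have h8 : X ^ 2 ≤ (1 / (2 * Real.sqrt 3) * s ^ 3) ^ 2 := by
    have h3 : Real.sqrt 3 ^ 2 = 3 := Real.sq_sqrt (by norm_num)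
    have h9 : (1 / (2 * Real.sqrt 3) * s ^ 3) ^ 2 = s ^ 6 / 12 := by
      rw [mul_pow, div_pow, mul_pow, h3]
      ring
    rw [h9]
    have h10 : 6 * (a * b * c + a * b * d + a * c * d + b * c * d) * (6 * (s / 3) ^ 3) ≤
        6 * (s ^ 3 / 16) * (6 * (s / 3) ^ 3) := by
      exact mul_le_mul_of_nonneg_right (mul_le_mul_of_nonneg_left h7 (by norm_num)) (by positivity)
    have h11 : 6 * (s ^ 3 / 16) * (6 * (s / 3) ^ 3) = s ^ 6 / 12 := by ring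
    linarith
  exact le_of_abs_le (abs_le_of_sq_le_sq h8 (by positivity))

end Pool.Agent.HVL
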